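import Pool.Agent.MP_cb5fda_co.AA.Spec

/-! Fixed point complex ball arithmetic. -/

open Complex

namespace Pool.Agent.MP_cb5fda_co.AA.NU

structure Bl where
  x : ℤ
  y : ℤ
  r : ℕ

def S : ℕ := 68719476736

def ub (x y : ℤ) : ℕ :=
  if y.natAbs ≤ x.natAbs then x.natAbs + y.natAbs * 27 / 64 + 1
  else y.natAbs + x.natAbs * 27 / 64 + 1

def nw (n g : ℕ) : ℕ := (g + n / g) / 2

def lbc (n c : ℕ) : ℕ := if c * c ≤ n then c else 0

def lbn (n u : ℕ) : ℕ := lbc n (n / (nw n (nw n u) + 1))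

def lb (x y : ℤ) : ℕ := lbn (x.natAbs * x.natAbs + y.natAbs * y.natAbs) (ub x y)

def add (a b : Bl) : Bl := ⟨a.x + b.x, a.y + b.y, a.r + b.r⟩
def sub (a b : Bl) : Bl := ⟨a.x - b.x, a.y - b.y, a.r + b.r⟩
def mul (a b : Bl) : Bl := ⟨(a.x * b.x - a.y * b.y) / (S : ℕ), (a.x * b.y + a.y * b.x) / (S : ℕ),
  (ub a.x a.y * b.r + ub b.x b.y * a.r + a.r * b.r) / S + 3⟩
def cst (p q : ℕ) : Bl := ⟨(p * S / q : ℕ), 0, 1⟩
def sc (p q : ℕ) (a : Bl) : Bl := ⟨p * a.x / q, p * a.y / q, p * a.r / q + 3⟩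
def ok (a : Bl) : Bool := a.r < lb a.x a.y
def inv (a : Bl) : Bl :=
  ⟨(S * S : ℕ) * a.x / (a.x.natAbs * a.x.natAbs + a.y.natAbs * a.y.natAbs : ℕ),
    -((S * S : ℕ) * a.y) / (a.x.natAbs * a.x.natAbs + a.y.natAbs * a.y.natAbs : ℕ),
    S * S * a.r / (lb a.x a.y * (lb a.x a.y - a.r)) + 3⟩
def wid (a : Bl) (r : ℕ) : Bl := ⟨a.x, a.y, a.r + r⟩
def one : Bl := ⟨(S : ℕ), 0, 0⟩
def re (a : Bl) : Bl := ⟨a.x, 0, a.r⟩
def im (a : Bl) : Bl := ⟨a.y, 0, a.r⟩
def neg (a : Bl) : Bl := ⟨-a.x, -a.y, a.r⟩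

noncomputable def cz (a : Bl) : ℂ := (a.x : ℂ) + (a.y : ℂ) * I

def mem (a : Bl) (z : ℂ) : Prop := ‖(S : ℂ) * z - cz a‖ ≤ a.r

lemma S_pos : 0 < S := by decide
lemma S_pos' : (0 : ℝ) < S := by exact_mod_cast S_pos
lemma S_ne : (S : ℂ) ≠ 0 := by exact_mod_cast S_pos.ne'

lemma nsq (a : Bl) : ‖cz a‖ ^ 2 = ((a.x.natAbs * a.x.natAbs + a.y.natAbs * a.y.natAbs : ℕ) : ℝ) := by
  rw [Complex.sq_norm, cz, ← ofReal_intCast, ← ofReal_intCast, normSq_add_mul_I]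
  push_cast
  simp only [Nat.cast_natAbs, Int.cast_abs, abs_mul_abs_self]
  ring

lemma natdiv (n d : ℕ) (hd : 0 < d) : (n : ℝ) / d ≤ (n / d : ℕ) + 1 := by
  have h := Nat.lt_div_mul_add (a := n) hd
  have hd' : (0 : ℝ) < d := by exact_mod_cast hd
  rw [div_le_iff₀ hd']
  have : (n : ℝ) < (n / d : ℕ) * d + d := by exact_mod_cast h
  linarith

lemma ub_aux (a b : ℕ) (h : b ≤ a) :
    ((a * a + b * b : ℕ) : ℝ) ≤ ((a + b * 27 / 64 + 1 : ℕ) : ℝ) ^ 2 := by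
  have h1 := natdiv (b * 27) 64 (by norm_num)
  have h2 : (b : ℝ) ≤ a := by exact_mod_cast h
  have hb : (0 : ℝ) ≤ b := Nat.cast_nonneg b
  push_cast at h1 ⊢
  set c : ℝ := ((b * 27 / 64 : ℕ) : ℝ)
  have h3 : (a : ℝ) + b * 27 / 64 ≤ a + c + 1 := by linarith
  have h4 : ((a : ℝ) + b * 27 / 64) ^ 2 ≤ (a + c + 1) ^ 2 := by gcongr
  nlinarith

lemma abs_le_abs_of_sq {x y : ℝ} (hy : 0 ≤ y) (h : x ^ 2 ≤ y ^ 2) : x ≤ y :=
  (abs_le_of_sq_le_sq' h hy).2

lemma ub_ge (a : Bl) : ‖cz a‖ ≤ ub a.x a.y := by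
  refine abs_le_abs_of_sq (Nat.cast_nonneg _) ?_
  rw [nsq, ub]
  split_ifs with h
  · exact ub_aux _ _ h
  · rw [add_comm (a.x.natAbs * a.x.natAbs)]
    exact ub_aux _ _ (by omega)

lemma lb_le (a : Bl) : (lb a.x a.y : ℝ) ≤ ‖cz a‖ := by
  refine abs_le_abs_of_sq (norm_nonneg _) ?_
  rw [nsq, lb, lbn, lbc]
  split_ifs with h
  · rw [sq]; exact_mod_cast h
  · rw [Nat.cast_zero, sq, mul_zero]; exact Nat.cast_nonneg _

lemma fl (n : ℤ) (d : ℕ) (hd : 0 < d) : |(n : ℝ) / d - ((n / (d : ℤ) : ℤ) : ℝ)| ≤ 1 := by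
  have hd' : (0 : ℝ) < d := by exact_mod_cast hd
  have hz : (0 : ℤ) < d := by exact_mod_cast hd
  have h1 : ((n / (d : ℤ) * d : ℤ) : ℝ) ≤ n := by exact_mod_cast Int.ediv_mul_le n hz.ne'
  have h2 : (n : ℝ) < (((n / (d : ℤ) + 1) * d : ℤ) : ℝ) := by
    exact_mod_cast Int.lt_ediv_add_one_mul_self n hz
  push_cast at h1 h2
  have h3 : ((n / (d : ℤ) : ℤ) : ℝ) ≤ (n : ℝ) / d := by rw [le_div_iff₀ hd']; exact h1
  have h4 : (n : ℝ) / d < ((n / (d : ℤ) : ℤ) : ℝ) + 1 := by rw [div_lt_iff₀ hd']; exact h2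
  rw [abs_le]; constructor <;> linarith

lemma rnd (u v : ℤ) (d : ℕ) (hd : 0 < d) :
    ‖((u : ℂ) + v * I) / d - (((u / (d : ℤ) : ℤ) : ℂ) + ((v / (d : ℤ) : ℤ) : ℂ) * I)‖ ≤ 2 := by
  have h1 := fl u d hd
  have h2 := fl v d hd
  have e : ((u : ℂ) + v * I) / d - (((u / (d : ℤ) : ℤ) : ℂ) + ((v / (d : ℤ) : ℤ) : ℂ) * I) =
      (((u : ℝ) / d - ((u / (d : ℤ) : ℤ) : ℝ) : ℝ) : ℂ) +
        (((v : ℝ) / d - ((v / (d : ℤ) : ℤ) : ℝ) : ℝ) : ℂ) * I := by
    simp only [ofReal_sub, ofReal_div, ofReal_intCast, ofReal_natCast]; ring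
  rw [e]
  refine (norm_add_le _ _).trans ?_
  rw [norm_mul, norm_I, norm_real, norm_real, Real.norm_eq_abs, Real.norm_eq_abs]
  linarith

variable {a b : Bl} {z w : ℂ}

lemma mem_add (ha : mem a z) (hb : mem b w) : mem (add a b) (z + w) := by
  unfold mem at *
  have e : (S : ℂ) * (z + w) - cz (add a b) = (S * z - cz a) + (S * w - cz b) := by
    simp only [cz, add]; push_cast; ring
  rw [e]
  refine (norm_add_le _ _).trans ?_
  simp only [add]; push_cast; linarith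

lemma mem_sub (ha : mem a z) (hb : mem b w) : mem (sub a b) (z - w) := by
  unfold mem at *
  have e : (S : ℂ) * (z - w) - cz (sub a b) = (S * z - cz a) - (S * w - cz b) := by
    simp only [cz, sub]; push_cast; ring
  rw [e]
  refine (norm_sub_le _ _).trans ?_
  simp only [sub]; push_cast; linarith

lemma mem_neg (ha : mem a z) : mem (neg a) (-z) := by
  unfold mem at *
  have e : (S : ℂ) * (-z) - cz (neg a) = -(S * z - cz a) := by
    simp only [cz, neg]; push_cast; ring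
  rw [e, norm_neg]; exact ha

lemma mem_mul (ha : mem a z) (hb : mem b w) : mem (mul a b) (z * w) := by
  unfold mem at *
  have h1 := rnd (a.x * b.x - a.y * b.y) (a.x * b.y + a.y * b.x) S S_pos
  have h2 := natdiv (ub a.x a.y * b.r + ub b.x b.y * a.r + a.r * b.r) S S_pos
  have e : (S : ℂ) * (z * w) - cz (mul a b) =
      (cz a * (S * w - cz b) + cz b * (S * z - cz a) + (S * z - cz a) * (S * w - cz b)) / S +
      ((((a.x * b.x - a.y * b.y : ℤ) : ℂ) + ((a.x * b.y + a.y * b.x : ℤ) : ℂ) * I) / S -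
        cz (mul a b)) := by
    have e2 : (((a.x * b.x - a.y * b.y : ℤ) : ℂ) + ((a.x * b.y + a.y * b.x : ℤ) : ℂ) * I) =
        cz a * cz b := by
      simp only [cz]; push_cast; linear_combination (-(a.y : ℂ) * b.y) * I_sq
    rw [e2]; have := S_ne; field_simp; ring
  rw [e]
  refine (norm_add_le _ _).trans ?_
  have h3 : ‖cz a * (S * w - cz b) + cz b * (S * z - cz a) + (S * z - cz a) * (S * w - cz b)‖ ≤
      ((ub a.x a.y * b.r + ub b.x b.y * a.r + a.r * b.r : ℕ) : ℝ) := by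
    refine (norm_add₃_le).trans ?_
    rw [norm_mul, norm_mul, norm_mul]
    push_cast
    have := ub_ge a
    have := ub_ge b
    gcongr
  rw [norm_div, norm_natCast]
  have h4 := div_le_div_of_nonneg_right h3 S_pos'.le
  have h5 : ((mul a b).r : ℝ) =
      ((ub a.x a.y * b.r + ub b.x b.y * a.r + a.r * b.r) / S : ℕ) + 3 := by
    simp only [mul]; rw [Nat.cast_add]; norm_num
  rw [h5]
  have h6 : ‖(((a.x * b.x - a.y * b.y : ℤ) : ℂ) + ((a.x * b.y + a.y * b.x : ℤ) : ℂ) * I) / S -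
        cz (mul a b)‖ ≤ 2 := h1
  linarith

lemma mem_cst (p q : ℕ) (hq : 0 < q) : mem (cst p q) ((p : ℂ) / q) := by
  unfold mem
  have h1 := fl (p * S : ℕ) q hq
  have e : (S : ℂ) * (p / q) - cz (cst p q) =
      ((((p * S : ℕ) : ℤ) : ℝ) / q - ((((p * S : ℕ) : ℤ) / (q : ℤ) : ℤ) : ℝ) : ℝ) := by
    simp only [cz, cst, ofReal_sub, ofReal_div, ofReal_intCast, ofReal_natCast, Int.natCast_div]
    push_cast; ring
  rw [e, norm_real, Real.norm_eq_abs]
  simpa [cst] using h1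

lemma mem_sc (p q : ℕ) (hq : 0 < q) (ha : mem a z) : mem (sc p q a) ((p : ℂ) / q * z) := by
  unfold mem at *
  have h1 := rnd (p * a.x) (p * a.y) q hq
  have h2 := natdiv (p * a.r) q hq
  have hq' : (0 : ℝ) < q := by exact_mod_cast hq
  have e : (S : ℂ) * (p / q * z) - cz (sc p q a) = p * (S * z - cz a) / q +
      ((((p * a.x : ℤ) : ℂ) + ((p * a.y : ℤ) : ℂ) * I) / q - cz (sc p q a)) := by
    simp only [cz]; push_cast; ring
  rw [e]
  refine (norm_add_le _ _).trans ?_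
  rw [norm_div, norm_mul, norm_natCast, norm_natCast]
  have h3 : (p : ℝ) * ‖S * z - cz a‖ / q ≤ ((p * a.r : ℕ) : ℝ) / q := by
    push_cast; gcongr
  have h5 : ((sc p q a).r : ℝ) = (p * a.r / q : ℕ) + 3 := by
    simp only [sc]; rw [Nat.cast_add]; norm_num
  have h6 : ‖(((p * a.x : ℤ) : ℂ) + ((p * a.y : ℤ) : ℂ) * I) / q - cz (sc p q a)‖ ≤ 2 := h1
  rw [h5]; linarith

lemma norm_ge (ha : mem a z) : (lb a.x a.y : ℝ) - a.r ≤ S * ‖z‖ := by
  unfold mem at ha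
  have h1 := lb_le a
  have h2 := norm_sub_norm_le (cz a) (S * z)
  rw [norm_sub_rev, norm_mul, norm_natCast] at h2
  linarith

lemma norm_le (ha : mem a z) : S * ‖z‖ ≤ (ub a.x a.y : ℝ) + a.r := by
  unfold mem at ha
  have h1 := ub_ge a
  have h2 := norm_sub_norm_le (S * z) (cz a)
  rw [norm_mul, norm_natCast] at h2
  linarith

lemma mem_inv (ha : mem a z) (h : ok a = true) : mem (inv a) z⁻¹ := by
  have hl : a.r < lb a.x a.y := by simpa [ok] using h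
  have hl' : (a.r : ℝ) < lb a.x a.y := by exact_mod_cast hl
  have h0 := norm_ge ha
  have hA := lb_le a
  have hr : (0 : ℝ) ≤ a.r := Nat.cast_nonneg _
  unfold mem at *
  have hz : z ≠ 0 := by
    rintro rfl
    rw [norm_zero, mul_zero] at h0; linarith
  have hA0 : cz a ≠ 0 := by
    intro e; rw [e, norm_zero] at hA; linarith
  set n := a.x.natAbs * a.x.natAbs + a.y.natAbs * a.y.natAbs with hn
  have hnr := nsq a
  rw [← hn] at hnr
  have hn0 : 0 < n := by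
    have : (0 : ℝ) < n := by rw [← hnr]; have := norm_pos_iff.2 hA0; positivity
    exact_mod_cast this
  have h1 := rnd ((S * S : ℕ) * a.x) (-((S * S : ℕ) * a.y)) n hn0
  have hd : 0 < lb a.x a.y * (lb a.x a.y - a.r) := Nat.mul_pos (by omega) (by omega)
  have h2 := natdiv (S * S * a.r) _ hd
  have e1 : (n : ℂ) = cz a * ((a.x : ℂ) - a.y * I) := by
    have : (n : ℂ) = (a.x : ℂ) * a.x + a.y * a.y := by
      have e3 : (n : ℤ) = a.x * a.x + a.y * a.y := by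
        rw [hn]; push_cast; rw [abs_mul_abs_self, abs_mul_abs_self]
      exact_mod_cast congrArg (Int.cast : ℤ → ℂ) e3
    rw [this, cz]; linear_combination ((a.y : ℂ) * a.y) * I_sq
  have hn1 : (n : ℂ) ≠ 0 := by exact_mod_cast hn0.ne'
  have hc : ((a.x : ℂ) - a.y * I) ≠ 0 := by
    intro e; rw [e, mul_zero] at e1; exact hn1 e1
  have e : (S : ℂ) * z⁻¹ - cz (inv a) = -(S * S * (S * z - cz a) / (cz a * (S * z))) +
      (((((S * S : ℕ) * a.x : ℤ) : ℂ) + ((-((S * S : ℕ) * a.y) : ℤ) : ℂ) * I) / n - cz (inv a)) := by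
    have e2 : ((((S * S : ℕ) * a.x : ℤ) : ℂ) + ((-((S * S : ℕ) * a.y) : ℤ) : ℂ) * I) =
        S * S * ((a.x : ℂ) - a.y * I) := by push_cast; ring
    rw [e2, e1]; have := S_ne; field_simp; ring
  rw [e]
  refine (norm_add_le _ _).trans ?_
  rw [norm_neg, norm_div, norm_mul, norm_mul, norm_mul, norm_mul, norm_natCast]
  have h3 : (S : ℝ) * S * ‖S * z - cz a‖ / (‖cz a‖ * (S * ‖z‖)) ≤
      ((S * S * a.r : ℕ) : ℝ) / ((lb a.x a.y * (lb a.x a.y - a.r) : ℕ) : ℝ) := by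
    rw [Nat.cast_mul (lb a.x a.y), Nat.cast_sub hl.le]
    push_cast
    have := S_pos'
    have h7 : (0 : ℝ) < lb a.x a.y - a.r := by linarith
    have h8 : (0 : ℝ) < lb a.x a.y := by linarith
    gcongr
  have h5 : ((inv a).r : ℝ) = (S * S * a.r / (lb a.x a.y * (lb a.x a.y - a.r)) : ℕ) + 3 := by
    simp only [inv]; rw [Nat.cast_add]; norm_num
  have h6 : ‖((((S * S : ℕ) * a.x : ℤ) : ℂ) + ((-((S * S : ℕ) * a.y) : ℤ) : ℂ) * I) / n -
      cz (inv a)‖ ≤ 2 := h1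
  rw [h5]; linarith

lemma mem_wid (ha : mem a z) (r : ℕ) (h : S * ‖w - z‖ ≤ r) : mem (wid a r) w := by
  unfold mem at *
  have e : (S : ℂ) * w - cz (wid a r) = (S * z - cz a) + S * (w - z) := by
    simp only [cz, wid]; ring
  rw [e]
  refine (norm_add_le _ _).trans ?_
  rw [norm_mul, norm_natCast]
  simp only [wid]; push_cast; linarith

lemma mem_one : mem one 1 := by simp [mem, cz, one]

lemma re_abs (ha : mem a z) : |S * z.re - a.x| ≤ a.r := by
  have := (abs_re_le_norm _).trans ha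
  simpa [cz] using this

lemma im_abs (ha : mem a z) : |S * z.im - a.y| ≤ a.r := by
  have := (abs_im_le_norm _).trans ha
  simpa [cz] using this

lemma mem_re (ha : mem a z) : mem (re a) (z.re : ℂ) := by
  have h := re_abs ha
  unfold mem
  have e : (S : ℂ) * z.re - cz (re a) = ((S * z.re - a.x : ℝ) : ℂ) := by simp [cz, re]
  rw [e, norm_real]; exact h

lemma mem_im (ha : mem a z) : mem (im a) (z.im : ℂ) := by
  have h := im_abs ha
  unfold mem
  have e : (S : ℂ) * z.im - cz (im a) = ((S * z.im - a.y : ℝ) : ℂ) := by simp [cz, im]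
  rw [e, norm_real]; exact h

lemma re_pos (ha : mem a z) (h : (a.r : ℤ) < a.x) : 0 < z.re := by
  have h1 := (abs_le.1 (re_abs ha)).1
  have h2 : (a.r : ℝ) < a.x := by exact_mod_cast h
  have h3 : 0 < S * z.re := by linarith
  exact (mul_pos_iff_of_pos_left S_pos').1 h3

end Pool.Agent.MP_cb5fda_co.AA.NU
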