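import Pool.Agent.MP_cb5fda_co.AA.Spec

/-! The coefficient of a graph depends only on the list of its component sizes. -/

noncomputable section
open Finset Complex Metric Filter
open scoped Classical

namespace Pool.Agent.MP_cb5fda_co.AA

namespace C1

theorem sum_equiv' {ι κ : Type} [Fintype ι] [DecidableEq ι] [Fintype κ] [DecidableEq κ] (k : ℕ)
    (w : ι → ℕ) (w' : κ → ℕ) (h : univ.val.map w = univ.val.map w') :
    ∑ τ : ι → Fin k, ∏ c : Fin k,
        (1 / 2 : ℂ) ^ ((∑ i ∈ univ.filter (fun i => τ i = c), w i).choose 2) =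
      ∑ τ : κ → Fin k, ∏ c : Fin k,
        (1 / 2 : ℂ) ^ ((∑ i ∈ univ.filter (fun i => τ i = c), w' i).choose 2) := by
  have hc : ∀ s : ℕ, Fintype.card {i // w i = s} = Fintype.card {i // w' i = s} := fun s => by
    have := congrArg (Multiset.count s) h
    rw [Multiset.count_map, Multiset.count_map] at this
    rw [Fintype.card_subtype, Fintype.card_subtype]
    simp only [eq_comm (b := s)]
    exact this
  let e : ι ≃ κ := Equiv.ofFiberEquiv fun s => Fintype.equivOfCardEq (hc s)
  have he : ∀ i, w' (e i) = w i := fun i => Equiv.ofFiberEquiv_map _ i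
  refine Fintype.sum_equiv (e.arrowCongr (Equiv.refl _)) _ _ fun τ => prod_congr rfl fun c _ => ?_
  congr 2
  refine sum_equiv e (fun i => ?_) fun i _ => (he i).symm
  simp

variable {n : ℕ} (H : SimpleGraph (Fin n))

theorem ncard_eq (K : H.ConnectedComponent) :
    K.supp.ncard = (univ.filter fun v => H.connectedComponentMk v = K).card := by
  rw [← Set.ncard_coe_finset]
  congr 1
  ext v
  simp

theorem card_fib (p : H.ConnectedComponent → Prop) [DecidablePred p] :
    (univ.filter fun v => p (H.connectedComponentMk v)).card =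
      ∑ K ∈ univ.filter p, K.supp.ncard := by
  rw [card_eq_sum_card_fiberwise (f := H.connectedComponentMk) (t := univ.filter p)
    (fun v hv => by simpa using hv)]
  refine sum_congr rfl fun K hK => ?_
  rw [ncard_eq]
  congr 1
  ext v
  simp only [mem_filter, mem_univ, true_and] at hK ⊢
  exact ⟨fun h => h.2, fun h => ⟨h ▸ hK, h⟩⟩

theorem const {k : ℕ} {σ : Fin n → Fin k} (h : ∀ u v, H.Adj u v → σ u = σ v) {u v : Fin n}
    (r : H.Reachable u v) : σ u = σ v := by
  obtain ⟨w⟩ := r
  induction w with
  | nil => rfl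
  | cons a _ ih => exact (h _ _ a).trans ih

theorem c0_eq (k : ℕ) : c0 H k = ∑ τ : H.ConnectedComponent → Fin k, ∏ c : Fin k,
    (1 / 2 : ℂ) ^ ((∑ K ∈ univ.filter (fun K => τ K = c), K.supp.ncard).choose 2) := by
  unfold c0
  symm
  refine sum_bij (fun τ _ v => τ (H.connectedComponentMk v)) (fun τ _ => ?_) (fun τ _ τ' _ e => ?_)
    (fun σ hσ => ?_) fun τ _ => prod_congr rfl fun c _ => ?_
  · refine mem_filter.2 ⟨mem_univ _, fun u v a => ?_⟩
    exact congrArg τ (SimpleGraph.ConnectedComponent.connectedComponentMk_eq_of_adj a)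
  · funext K
    induction K using SimpleGraph.ConnectedComponent.ind with
    | _ v => exact congrFun e v
  · refine ⟨fun K => σ K.out, mem_univ _, funext fun v => ?_⟩
    exact const H (mem_filter.1 hσ).2 (SimpleGraph.ConnectedComponent.exact (Quot.out_eq _))
  · rw [← card_fib H fun K => τ K = c]

theorem pad_eq : ((pad n (ms H) : List ℕ) : Multiset ℕ) =
    univ.val.map fun K : H.ConnectedComponent => K.supp.ncard := by
  have h1 : ((ms H : List ℕ) : Multiset ℕ) =
      (univ.filter fun K : H.ConnectedComponent => 2 ≤ K.supp.ncard).val.map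
        fun K => K.supp.ncard := by
    rw [ms, ← Multiset.map_coe, coe_toList]
  have h2 : ∀ K ∈ univ.filter fun K : H.ConnectedComponent => ¬ 2 ≤ K.supp.ncard,
      K.supp.ncard = 1 := fun K hK => by
    have a := (mem_filter.1 hK).2
    have b : 0 < K.supp.ncard := (Set.ncard_pos (Set.toFinite _)).2 K.nonempty_supp
    omega
  have h3 : (ms H).sum = ∑ K ∈ univ.filter fun K : H.ConnectedComponent => 2 ≤ K.supp.ncard,
      K.supp.ncard := by
    rw [← Multiset.sum_coe, h1]
    rfl
  have h4 : ∑ K : H.ConnectedComponent, K.supp.ncard = n := by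
    have := card_fib H fun _ => True
    simpa using this.symm
  have h5 : n - (ms H).sum =
      (univ.filter fun K : H.ConnectedComponent => ¬ 2 ≤ K.supp.ncard).card := by
    rw [← sum_filter_add_sum_filter_not univ fun K : H.ConnectedComponent => 2 ≤ K.supp.ncard,
      ← h3, sum_congr rfl h2, ← card_eq_sum_ones] at h4
    omega
  rw [pad, ← Multiset.coe_add, h1, Multiset.coe_replicate, h5,
    ← Multiset.filter_add_not (fun K : H.ConnectedComponent => 2 ≤ K.supp.ncard) univ.val,
    Multiset.map_add]
  congr 1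
  symm
  refine Multiset.eq_replicate.2 ⟨by rw [Multiset.card_map]; rfl, fun b hb => ?_⟩
  obtain ⟨K, hK, rfl⟩ := Multiset.mem_map.1 hb
  exact h2 K hK

end C1

theorem c1S : C1Stmt := by
  intro n H k
  rw [C1.c0_eq, SS]
  refine C1.sum_equiv' k _ _ ?_
  rw [Fin.univ_val_map, List.ofFn_get, C1.pad_eq]

end Pool.Agent.MP_cb5fda_co.AA
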