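import Pool.Agent.MP_cb5fda_co.AA.Spec

/-! The list of the sizes of the components. -/

noncomputable section
open Finset Complex Metric Filter
open scoped Classical

namespace Pool.Agent.MP_cb5fda_co.AA

namespace C2

variable {n : ℕ} {H : SimpleGraph (Fin n)}

theorem mem_ms {s : ℕ} : s ∈ ms H ↔ ∃ K : H.ConnectedComponent, 2 ≤ K.supp.ncard ∧
    K.supp.ncard = s := by
  simp only [ms, List.mem_map, mem_toList, mem_filter, mem_univ, true_and]

theorem sum_le : (ms H).sum ≤ n := by
  rw [ms, sum_map_toList]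
  refine (sum_le_sum_of_subset (filter_subset _ _)).trans (le_of_eq ?_)
  have := card_eq_sum_card_fiberwise (f := H.connectedComponentMk) (s := univ) (t := univ)
    fun _ _ => mem_univ _
  rw [card_univ, Fintype.card_fin] at this
  refine Eq.trans (sum_congr rfl fun K _ => ?_) this.symm
  rw [← Set.ncard_coe_finset]
  congr 1
  ext v
  simp

theorem walk (h : ¬Cherry H) {u v : Fin n} (e : H.Adj u v) {a w : Fin n} (p : H.Walk a w)
    (ha : a = u ∨ a = v) : w = u ∨ w = v := by
  induction p with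
  | nil => exact ha
  | @cons a b _ f _ ih =>
    refine ih ?_
    rcases ha with rfl | rfl
    · exact Or.inr (by_contra fun c => h ⟨a, b, v, c, f, e⟩)
    · exact Or.inl (by_contra fun c => h ⟨a, b, u, c, f, e.symm⟩)

theorem supp_pair (h : ¬Cherry H) {u v : Fin n} (e : H.Adj u v) :
    (H.connectedComponentMk u).supp = {u, v} := by
  ext w
  rw [SimpleGraph.ConnectedComponent.mem_supp_iff, SimpleGraph.ConnectedComponent.eq]
  refine ⟨fun r => ?_, ?_⟩
  · obtain ⟨p⟩ := r.symm
    exact walk h e p (Or.inl rfl)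
  · rintro (rfl | rfl)
    exacts [SimpleGraph.Reachable.refl _, e.symm.reachable]

theorem ex_edge {K : H.ConnectedComponent} (h : 2 ≤ K.supp.ncard) :
    ∃ u v, H.Adj u v ∧ H.connectedComponentMk u = K := by
  obtain ⟨a, ha, b, hb, ne⟩ := (Set.one_lt_ncard (Set.toFinite _)).1 h
  rw [SimpleGraph.ConnectedComponent.mem_supp_iff] at ha hb
  obtain ⟨p⟩ := SimpleGraph.ConnectedComponent.eq.1 (ha.trans hb.symm)
  cases p with
  | nil => exact absurd rfl ne
  | cons f _ => exact ⟨_, _, f, ha⟩

theorem len (h : ¬Cherry H) : (ms H).length = (ed H).card := by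
  rw [ms, List.length_map, length_toList,
    ← card_image_of_injective _ SimpleGraph.ConnectedComponent.supp_injective,
    ← card_image_of_injective (ed H) (SetLike.coe_injective (A := Sym2 (Fin n)))]
  congr 1
  ext S
  simp only [mem_image, mem_filter, mem_univ, true_and, ed]
  constructor
  · rintro ⟨K, a, rfl⟩
    obtain ⟨u, v, e, rfl⟩ := ex_edge a
    exact ⟨s(u, v), e, by rw [supp_pair h e]; exact Sym2.coe_mk⟩
  · rintro ⟨e, a, rfl⟩
    induction e using Sym2.ind with
    | _ u v =>
      have f : H.Adj u v := a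
      exact ⟨H.connectedComponentMk u, by rw [supp_pair h f, Set.ncard_pair f.ne],
        by rw [supp_pair h f]; exact Sym2.coe_mk.symm⟩

end C2

theorem c2S : C2Stmt := by
  intro n H
  refine ⟨fun s hs => ?_, C2.sum_le, fun h => List.eq_replicate_iff.2 ⟨C2.len h, fun s hs => ?_⟩, ?_⟩
  · obtain ⟨K, a, rfl⟩ := C2.mem_ms.1 hs
    exact a
  · obtain ⟨K, a, rfl⟩ := C2.mem_ms.1 hs
    obtain ⟨u, v, e, rfl⟩ := C2.ex_edge a
    rw [C2.supp_pair h e, Set.ncard_pair e.ne]
  · rintro ⟨u, v, w, ne, e, f⟩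
    have a : 3 ≤ (H.connectedComponentMk u).supp.ncard := by
      rw [← Set.ncard_eq_three.2 ⟨u, v, w, e.ne, f.ne, ne, rfl⟩]
      refine Set.ncard_le_ncard ?_ (Set.toFinite _)
      rintro x (rfl | rfl | rfl)
      exacts [rfl, SimpleGraph.ConnectedComponent.eq.2 e.symm.reachable,
        SimpleGraph.ConnectedComponent.eq.2 f.symm.reachable]
    exact ⟨_, C2.mem_ms.2 ⟨_, le_trans (by norm_num) a, rfl⟩, a⟩

end Pool.Agent.MP_cb5fda_co.AA
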