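import Pool.Agent.MP_cb5fda_co.AA.Spec

/-! Row CV: the curve covers the half plane; a mean value inequality. -/

noncomputable section
open Finset Complex Metric Filter
open scoped Classical

namespace Pool.Agent.MP_cb5fda_co.AA

namespace CV

lemma re_mul_conj (w z : ℂ) : (w * z * (starRingEnd ℂ) z).re = w.re * ‖z‖ ^ 2 := by
  rw [mul_assoc, Complex.mul_conj', ← Complex.ofReal_pow, Complex.mul_re, Complex.ofReal_re,
    Complex.ofReal_im, mul_zero, sub_zero]

lemma dc {f : ℂ → ℂ} (hf : AnalyticOnNhd ℂ f (closedBall 0 1)) : DiffContOnCl ℂ f (ball 0 1) := by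
  apply DifferentiableOn.diffContOnCl
  rw [closure_ball _ one_ne_zero]
  exact hf.differentiableOn

lemma phi_eq (D : CD) {z : ℂ} (hz : z ≠ 0) : D.phi z = D.tau z * z := by
  rw [CD.tau, div_mul_cancel₀ _ hz]

lemma zero (D : CD) (hs : D.Soft) (hC : D.Cert) (τ1 : ℂ) (hτ : 249 / 500 ≤ τ1.re) :
    ∃ z ∈ closedBall (0 : ℂ) 1, D.phi z = τ1 * z := by
  by_contra hne
  have hne' : ∀ z ∈ closedBall (0 : ℂ) 1, D.phi z - τ1 * z ≠ 0 :=
    fun z hz h => hne ⟨z, hz, sub_eq_zero.mp h⟩
  have ha : AnalyticOnNhd ℂ (fun z => exp (z / (D.phi z - τ1 * z))) (closedBall 0 1) := by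
    intro z hz
    exact (analyticAt_id.div ((hs.aphi z hz).sub (analyticAt_const.mul analyticAt_id))
      (hne' z hz)).cexp'
  obtain ⟨z1, hz1, hmax⟩ := (isCompact_sphere (0 : ℂ) 1).exists_isMaxOn
    ⟨1, by simp⟩ (ha.continuousOn.mono sphere_subset_closedBall).norm
  have hn : ‖z1‖ = 1 := by simpa using hz1
  have h0 : z1 ≠ 0 := by
    intro h
    rw [h, norm_zero] at hn
    exact zero_ne_one hn
  have hlt : ‖exp (z1 / (D.phi z1 - τ1 * z1))‖ < 1 := by
    have hre : (D.tau z1 - τ1).re < 0 := by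
      have := (hC z1 hn).1
      rw [Complex.sub_re]
      linarith
    have hw : D.tau z1 - τ1 ≠ 0 := by
      intro h
      rw [h, Complex.zero_re] at hre
      exact lt_irrefl _ hre
    have e : z1 / (D.phi z1 - τ1 * z1) = (D.tau z1 - τ1)⁻¹ := by
      rw [phi_eq D h0, ← sub_mul, div_mul_cancel_right₀ h0]
    rw [e, Complex.norm_exp, Complex.inv_re, Real.exp_lt_one_iff]
    exact div_neg_of_neg_of_pos hre (Complex.normSq_pos.mpr hw)
  have hle := Complex.norm_le_of_forall_mem_frontier_norm_le isBounded_ball (dc ha)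
    (C := ‖exp (z1 / (D.phi z1 - τ1 * z1))‖) (fun z hz => by
      rw [frontier_ball _ one_ne_zero] at hz
      exact hmax hz) (z := 0) (subset_closure (mem_ball_self one_pos))
  rw [zero_div, Complex.exp_zero, norm_one] at hle
  exact absurd hlt (not_lt.mpr hle)

lemma cover (D : CD) (hs : D.Soft) (hC : D.Cert) : D.Cover := by
  have hcl : IsClosed {z ∈ closedBall (0 : ℂ) 1 |
      249 / 500 * ‖z‖ ^ 2 ≤ (D.phi z * (starRingEnd ℂ) z).re} := by
    refine isClosed_closedBall.isClosed_le (by fun_prop) ?_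
    exact Complex.continuous_re.comp_continuousOn
      (hs.aphi.continuousOn.mul Complex.continuous_conj.continuousOn)
  have hK := (isCompact_closedBall (0 : ℂ) 1).of_isClosed_subset hcl (fun z hz => hz.1)
  obtain ⟨z1, hz1, hmax⟩ := hK.exists_isMaxOn ⟨0, by simp⟩ continuous_norm.continuousOn
  refine ⟨‖z1‖, ?_, fun τ1 hτ => ?_⟩
  · have h1 : ‖z1‖ ≤ 1 := by simpa using hz1.1
    refine lt_of_le_of_ne h1 fun hn => ?_
    have h0 : z1 ≠ 0 := by
      intro h
      rw [h, norm_zero] at hn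
      exact zero_ne_one hn
    have h2 := hz1.2
    rw [phi_eq D h0, re_mul_conj, hn] at h2
    have := (hC z1 hn).1
    linarith
  · obtain ⟨z, hz, e⟩ := zero D hs hC τ1 hτ
    have h0 : z ≠ 0 := by
      intro h
      rw [h, mul_zero] at e
      have hb : (0 : ℂ) ∈ closedBall (0 : ℂ) 1 := mem_closedBall_self zero_le_one
      have hd : deriv D.G 0 ≠ 0 := by
        intro h'
        have := D.dG_re 0 hb
        rw [h', Complex.zero_re] at this
        exact lt_irrefl _ this
      exact div_ne_zero (hs.L1_ne 0 hb) hd e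
    refine ⟨z, hmax ⟨hz, ?_⟩, h0, ?_⟩
    · rw [e, re_mul_conj]
      exact mul_le_mul_of_nonneg_right hτ (sq_nonneg _)
    · rw [CD.tau, e, mul_div_cancel_right₀ _ h0]

lemma mean (g : ℂ → ℂ) (r0 : ℝ) (z : ℂ) (hg : AnalyticOnNhd ℂ g (closedBall 0 1)) (hr : r0 < 1)
    (hz : ‖z‖ ≤ r0) :
    ‖g z‖ ^ 2 ≤ Real.circleAverage (fun w => ‖g w‖ ^ 2) 0 1 / (1 - r0) := by
  have h2 : AnalyticOnNhd ℂ (fun w => g w ^ 2) (closedBall 0 1) := fun w hw => (hg w hw).pow 2
  have h3 : DiffContOnCl ℂ (fun w => g w ^ 2) (ball 0 |(1 : ℝ)|) := by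
    rw [abs_one]
    exact dc h2
  have hzb : z ∈ ball (0 : ℂ) |(1 : ℝ)| := by
    rw [abs_one, mem_ball_zero_iff]
    linarith
  have e := h3.circleAverage_smul_div hzb
  have hp : 0 < 1 - r0 := by linarith
  have hpi : (0 : ℝ) ≤ 2 * Real.pi := by positivity
  have hc : Continuous fun θ : ℝ => ‖g (circleMap 0 1 θ)‖ ^ 2 := by
    have : Continuous fun θ : ℝ => g (circleMap 0 1 θ) :=
      hg.continuousOn.comp_continuous (continuous_circleMap 0 1) fun θ =>
        circleMap_mem_closedBall 0 zero_le_one θ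
    exact this.norm.pow 2
  have hb := intervalIntegral.norm_integral_le_of_norm_le (μ := MeasureTheory.volume) hpi
    (f := fun θ : ℝ => ((circleMap 0 1 θ - 0) / (circleMap 0 1 θ - z)) • g (circleMap 0 1 θ) ^ 2)
    (g := fun θ : ℝ => ‖g (circleMap 0 1 θ)‖ ^ 2 / (1 - r0))
    (Eventually.of_forall fun θ _ => by
      have hn : ‖circleMap 0 1 θ‖ = 1 := by simp
      have h4 : 1 - r0 ≤ ‖circleMap 0 1 θ - z‖ := by
        have := norm_sub_norm_le (circleMap 0 1 θ) z
        linarith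
      rw [norm_smul, norm_div, sub_zero, hn, norm_pow, one_div, ← div_eq_inv_mul]
      exact div_le_div_of_nonneg_left (sq_nonneg _) hp h4)
    ((hc.div_const _).intervalIntegrable _ _)
  rw [← norm_pow, ← e, Real.circleAverage_def, Real.circleAverage_def, norm_smul, smul_eq_mul,
    Real.norm_of_nonneg (inv_nonneg.mpr hpi), mul_div_assoc, ← intervalIntegral.integral_div]
  exact mul_le_mul_of_nonneg_left hb (inv_nonneg.mpr hpi)

end CV

theorem cvS (hS : SOStmt) : CVStmt :=
  ⟨fun D hC => CV.cover D (hS D) hC, CV.mean⟩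

end Pool.Agent.MP_cb5fda_co.AA
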