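import Pool.Agent.MP_cb5fda_co.AA.Spec

/-! The recursion `cw` at a natural number is the weighted count of colourings; `cw` is a
polynomial in `q`. -/

noncomputable section
open Finset Complex Metric Filter
open scoped Classical

namespace Pool.Agent.MP_cb5fda_co.AA

namespace CW

/-- weight of a mass vector -/
def W (k : ℕ) (a : ℕ → ℕ) : ℂ := ∏ c : Fin k, (1 / 2 : ℂ) ^ ((a c).choose 2)

/-- recursive form of the count -/
def R (k : ℕ) : List ℕ → (ℕ → ℕ) → ℂ
  | [], a => W k a
  | s :: L, a => ∑ c : Fin k, R k L (Function.update a c (a c + s))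

/-- closed form of the count -/
def S (k : ℕ) (L : List ℕ) (a : ℕ → ℕ) : ℂ :=
  ∑ τ : Fin L.length → Fin k, ∏ c : Fin k,
    (1 / 2 : ℂ) ^ ((a c + ∑ i ∈ univ.filter (fun i => τ i = c), L.get i).choose 2)

lemma R_eq_S (k : ℕ) (L : List ℕ) : ∀ a, R k L a = S k L a := by
  induction L with
  | nil =>
    intro a
    simp [R, S, W]
  | cons s L ih =>
    intro a
    have e := (Fin.consEquiv (fun _ : Fin (L.length + 1) => Fin k)).sum_comp
      (fun τ : Fin (L.length + 1) → Fin k => ∏ c : Fin k,
        (1 / 2 : ℂ) ^ ((a c + ∑ i ∈ univ.filter (fun i => τ i = c), (s :: L).get i).choose 2))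
    have e2 : S k (s :: L) a = ∑ τ : Fin (L.length + 1) → Fin k, ∏ c : Fin k,
        (1 / 2 : ℂ) ^ ((a c + ∑ i ∈ univ.filter (fun i => τ i = c), (s :: L).get i).choose 2) := rfl
    rw [e2, ← e, Fintype.sum_prod_type]
    simp only [R]
    refine Finset.sum_congr rfl fun c0 _ => ?_
    rw [ih, S]
    refine Finset.sum_congr rfl fun τ _ => ?_
    refine Finset.prod_congr rfl fun c _ => ?_
    congr 2
    rw [Finset.sum_filter, Finset.sum_filter, Fin.sum_univ_succ]
    simp only [Fin.consEquiv_apply, Fin.cons_zero, Fin.cons_succ]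
    have h0 : (s :: L).get (0 : Fin (L.length + 1)) = s := rfl
    have h1 : ∀ i : Fin L.length, (s :: L).get (Fin.succ i : Fin (L.length + 1)) = L.get i :=
      fun i => rfl
    simp only [h0, h1]
    by_cases h : c0 = c
    · subst h
      simp [add_assoc]
    · have h' : (c : ℕ) ≠ (c0 : ℕ) := fun hh => h (Fin.ext hh).symm
      simp [h, Function.update_of_ne h']

lemma S_perm (k : ℕ) (L : List ℕ) (a b : ℕ → ℕ) (π : Equiv.Perm (Fin k))
    (h : ∀ c : Fin k, b (π c) = a c) : S k L a = S k L b := by
  unfold S
  refine Fintype.sum_equiv (Equiv.arrowCongr (Equiv.refl _) π) _ _ fun τ => ?_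
  refine Fintype.prod_equiv π _ _ fun c => ?_
  rw [h]
  have : univ.filter (fun i => τ i = c) =
      univ.filter (fun i => (Equiv.arrowCongr (Equiv.refl _) π) τ i = π c) := by
    ext i
    simp
  rw [this]

lemma choose_add (a s : ℕ) : (a + s).choose 2 = a.choose 2 + (s.choose 2 + s * a) := by
  induction s with
  | zero => simp
  | succ s ih =>
    rw [← add_assoc, Nat.choose_succ_succ' (a + s) 1, ih, Nat.choose_succ_succ' s 1]
    simp only [Nat.choose_one_right]
    ring

lemma W_update (k : ℕ) (a : ℕ → ℕ) (c : Fin k) (s : ℕ) :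
    W k (Function.update a c (a c + s)) =
      W k a * ((1 / 2 : ℂ) ^ (s.choose 2) * (1 / 2 : ℂ) ^ (s * a c)) := by
  unfold W
  rw [← Finset.mul_prod_erase univ _ (Finset.mem_univ c),
    ← Finset.mul_prod_erase univ (fun c : Fin k => (1 / 2 : ℂ) ^ ((a c).choose 2))
      (Finset.mem_univ c)]
  have : ∏ x ∈ univ.erase c, (1 / 2 : ℂ) ^ ((Function.update a c (a c + s) (x : ℕ)).choose 2) =
      ∏ x ∈ univ.erase c, (1 / 2 : ℂ) ^ ((a (x : ℕ)).choose 2) := by
    refine Finset.prod_congr rfl fun x hx => ?_
    have hx' : (x : ℕ) ≠ (c : ℕ) := fun hh => (Finset.mem_erase.1 hx).1 (Fin.ext hh)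
    rw [Function.update_of_ne hx']
  rw [this, Function.update_self, choose_add, pow_add, pow_add]
  ring

lemma main (k : ℕ) (L : List ℕ) : ∀ (g : ℕ) (a : ℕ → ℕ), g ≤ k → (∀ i, g ≤ i → a i = 0) →
    W k a * cwG (fun _ _ => 1) (k : ℂ) L g a = R k L a := by
  induction L with
  | nil => intro g a _ _; simp [cwG, R]
  | cons s L ih =>
    intro g a hg ha
    simp only [cwG, R]
    -- split the colours
    have hsplit : ∑ c : Fin k, R k L (Function.update a c (a c + s)) =
        ∑ c ∈ range g, R k L (Function.update a c (a c + s)) +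
          ∑ c ∈ Ico g k, R k L (Function.update a c (a c + s)) := by
      rw [Fin.sum_univ_eq_sum_range (fun c => R k L (Function.update a c (a c + s))) k,
        Finset.sum_range_add_sum_Ico _ hg]
    have hlow : ∀ i ∈ range g, R k L (Function.update a i (a i + s)) =
        W k a * ((1 / 2 : ℂ) ^ (s.choose 2) * ((1 / 2 : ℂ) ^ (s * a i) *
          cwG (fun _ _ => 1) (k : ℂ) L g (Function.update a i (a i + s)))) := by
      intro i hi
      have hi' := Finset.mem_range.1 hi
      rw [← ih g _ hg (fun j hj => by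
        rw [Function.update_of_ne (by omega)]; exact ha j hj)]
      have := W_update k a ⟨i, by omega⟩ s
      simp only at this
      rw [this]; ring
    have hhigh : ∑ c ∈ Ico g k, R k L (Function.update a c (a c + s)) =
        W k a * ((1 / 2 : ℂ) ^ (s.choose 2) * (((k : ℂ) - g) *
          cwG (fun _ _ => 1) (k : ℂ) L (g + 1) (Function.update a g s))) := by
      rcases Nat.eq_or_lt_of_le hg with h | h
      · subst h; simp
      · have hc : ∀ c ∈ Ico g k, R k L (Function.update a c (a c + s)) =
            R k L (Function.update a g s) := by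
          intro c hc
          obtain ⟨hc1, hc2⟩ := Finset.mem_Ico.1 hc
          rw [R_eq_S, R_eq_S, ha c hc1, zero_add]
          refine S_perm k L _ _ (Equiv.swap ⟨c, hc2⟩ ⟨g, h⟩) fun d => ?_
          by_cases h1 : d = ⟨c, hc2⟩
          · subst h1; simp
          · by_cases h2 : d = ⟨g, h⟩
            · subst h2
              have hne : g ≠ c := fun hh => h1 (Fin.ext hh)
              simp [Function.update_of_ne hne, Function.update_of_ne hne.symm, ha c hc1,
                ha g le_rfl]
            · have n1 : (d : ℕ) ≠ c := fun hh => h1 (Fin.ext hh)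
              have n2 : (d : ℕ) ≠ g := fun hh => h2 (Fin.ext hh)
              rw [Equiv.swap_apply_of_ne_of_ne h1 h2, Function.update_of_ne n1,
                Function.update_of_ne n2]
        rw [Finset.sum_congr rfl hc, Finset.sum_const, Nat.card_Ico, nsmul_eq_mul,
          Nat.cast_sub hg]
        rw [← ih (g + 1) _ h (fun j hj => by
          rw [Function.update_of_ne (by omega)]; exact ha j (by omega))]
        have := W_update k a ⟨g, h⟩ s
        simp only [ha g le_rfl, zero_add, mul_zero, pow_zero, mul_one] at this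
        rw [this]; ring
    rw [hsplit, hhigh, Finset.sum_congr rfl hlow, ← Finset.mul_sum, ← Finset.mul_sum]
    ring

lemma poly (L : List ℕ) : ∀ (g : ℕ) (a : ℕ → ℕ), ∃ p : Polynomial ℂ, p.natDegree ≤ L.length ∧
    ∀ q, p.eval q = cwG (fun _ _ => 1) q L g a := by
  induction L with
  | nil => intro g a; exact ⟨1, by simp, fun q => by simp [cwG]⟩
  | cons s L ih =>
    intro g a
    choose p hp hpe using ih
    refine ⟨Polynomial.C ((1 / 2 : ℂ) ^ (s.choose 2)) *
      ((Polynomial.X - Polynomial.C (g : ℂ)) * p (g + 1) (Function.update a g s) +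
        ∑ i ∈ range g, Polynomial.C ((1 / 2 : ℂ) ^ (s * a i)) *
          p g (Function.update a i (a i + s))), ?_, fun q => ?_⟩
    · refine (Polynomial.natDegree_C_mul_le _ _).trans ?_
      refine (Polynomial.natDegree_add_le _ _).trans (max_le ?_ ?_)
      · refine Polynomial.natDegree_mul_le.trans ?_
        rw [Polynomial.natDegree_X_sub_C, List.length_cons, add_comm]
        exact Nat.succ_le_succ (hp _ _)
      · refine Polynomial.natDegree_sum_le_of_forall_le _ _ fun i _ => ?_
        refine (Polynomial.natDegree_C_mul_le _ _).trans ((hp _ _).trans ?_)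
        simp
    · simp only [cwG, Polynomial.eval_mul, Polynomial.eval_add, Polynomial.eval_sub,
        Polynomial.eval_C, Polynomial.eval_X, Polynomial.eval_finsetSum, hpe]

end CW

theorem cwS : CWStmt := by
  intro k L
  have h := CW.main k L 0 (fun _ => 0) (Nat.zero_le _) (fun _ _ => rfl)
  rw [CW.R_eq_S] at h
  simpa [CW.W, CW.S, cw, SS] using h

theorem cpS : CPStmt := fun L => CW.poly L 0 (fun _ => 0)

end Pool.Agent.MP_cb5fda_co.AA
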