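import Pool.Agent.MP_cb5fda_co.AA.Spec

/-! The explicit contour satisfies the certificate. -/

noncomputable section
open Finset Complex Metric Filter
open scoped Classical

namespace Pool.Agent.MP_cb5fda_co.AA

namespace CX

/-- minimum principle for the real part -/
theorem re_pos {f : ℂ → ℂ} (hf : AnalyticOnNhd ℂ f (closedBall 0 1))
    (h : ∀ z : ℂ, ‖z‖ = 1 → 0 < (f z).re) : ∀ z ∈ closedBall (0 : ℂ) 1, 0 < (f z).re := by
  intro z hz
  obtain ⟨w, hw, hm⟩ := (isCompact_sphere (0 : ℂ) 1).exists_isMinOn ⟨1, by simp⟩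
    (continuous_re.comp_continuousOn (hf.continuousOn.mono sphere_subset_closedBall))
  have hd : DiffContOnCl ℂ (fun z => exp (-f z)) (ball 0 1) :=
    DifferentiableOn.diffContOnCl (by
      rw [closure_ball _ one_ne_zero]
      exact hf.differentiableOn.neg.cexp)
  have := norm_le_of_forall_mem_frontier_norm_le (C := Real.exp (-(f w).re)) isBounded_ball hd
    (fun y hy => by
      rw [frontier_ball _ one_ne_zero] at hy
      rw [norm_exp, neg_re]
      exact Real.exp_le_exp.2 (neg_le_neg (hm hy))) (z := z) (by rwa [closure_ball _ one_ne_zero])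
  rw [norm_exp, neg_re, Real.exp_le_exp, neg_le_neg_iff] at this
  exact (h w (mem_sphere_zero_iff_norm.1 hw)).trans_le this

theorem Q_re {z : ℂ} (hz : z ∈ closedBall (0 : ℂ) 1) : 0 < (QQ z).re := by
  have h1 : ‖z‖ ≤ 1 := mem_closedBall_zero_iff.1 hz
  have k : ∀ n : ℕ, |(z ^ n).re| ≤ 1 := fun n =>
    (abs_re_le_norm _).trans (by rw [norm_pow]; exact pow_le_one₀ (norm_nonneg _) h1)
  have e : (QQ z).re = 1 - 149 / 200 * (z ^ 1).re + 53 / 500 * (z ^ 2).re -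
      39 / 1000 * (z ^ 3).re := by
    have : QQ z = ((1 : ℝ) : ℂ) - ((149 / 200 : ℝ) : ℂ) * z ^ 1 + ((53 / 500 : ℝ) : ℂ) * z ^ 2 -
        ((39 / 1000 : ℝ) : ℂ) * z ^ 3 := by
      rw [QQ]; push_cast; ring
    rw [this, sub_re, add_re, sub_re, re_ofReal_mul, re_ofReal_mul, re_ofReal_mul, ofReal_re]
  have k1 := abs_le.1 (k 1)
  have k2 := abs_le.1 (k 2)
  have k3 := abs_le.1 (k 3)
  rw [e]
  linarith [k1.2, k2.1, k3.2]

theorem ne_of_re {x : ℂ} (h : 0 < x.re) : x ≠ 0 := fun e => by simp [e] at h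

theorem Q_ne {z : ℂ} (hz : z ∈ closedBall (0 : ℂ) 1) : QQ z ≠ 0 := ne_of_re (Q_re hz)

def dQ (z : ℂ) : ℂ := -(149 / 200) + 53 / 250 * z - 117 / 1000 * z ^ 2

def dQ1 (z : ℂ) : ℂ := -(149 / 200) + 53 / 125 * z - 351 / 1000 * z ^ 2

theorem Q_der (z : ℂ) : HasDerivAt QQ (dQ z) z := by
  have := ((((hasDerivAt_id z).const_mul (149 / 200 : ℂ)).const_sub 1).add
    ((hasDerivAt_pow 2 z).const_mul (53 / 500 : ℂ))).sub
      ((hasDerivAt_pow 3 z).const_mul (39 / 1000 : ℂ))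
  refine this.congr_deriv ?_
  rw [dQ]; push_cast; ring

theorem Q1_der (z : ℂ) : HasDerivAt Q1 (dQ1 z) z := by
  have := (((hasDerivAt_id z).const_mul (-(149 / 200) : ℂ)).add
    ((hasDerivAt_pow 2 z).const_mul (53 / 250 : ℂ))).sub
      ((hasDerivAt_pow 3 z).const_mul (117 / 1000 : ℂ))
  refine this.congr_deriv ?_
  rw [dQ1]; push_cast; ring

theorem Q1_eq (z : ℂ) : Q1 z = z * dQ z := by rw [Q1, dQ]; ring

theorem Q2_eq (z : ℂ) : Q2 z = z * dQ1 z := by rw [Q2, dQ1]; ring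

theorem Q_an (z : ℂ) : AnalyticAt ℂ QQ z :=
  Differentiable.analyticAt (fun w => (Q_der w).differentiableAt) z

def RR (z : ℂ) : ℂ := 2187 / 1000 / QQ z

theorem nx_eq (z : ℂ) : z * RR z = nx z := by rw [RR, nx]; ring

theorem R_ne {z : ℂ} (h : QQ z ≠ 0) : RR z ≠ 0 := div_ne_zero (by norm_num) h

theorem R_an {z : ℂ} (h : QQ z ≠ 0) : AnalyticAt ℂ RR z := analyticAt_const.div (Q_an z) h

theorem R_der {z : ℂ} (h : QQ z ≠ 0) :
    HasDerivAt RR (-(2187 / 1000 * dQ z) / QQ z ^ 2) z := by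
  refine ((hasDerivAt_const z (2187 / 1000 : ℂ)).div (Q_der z) h).congr_deriv ?_
  ring

theorem L1_eq {z : ℂ} (h : QQ z ≠ 0) : LL1 RR z = nL1 z := by
  rw [LL1, (R_der h).deriv, nL1, RR, Q1_eq]
  field_simp
  ring

theorem L2_eq {z : ℂ} (h : QQ z ≠ 0) : z * deriv (LL1 RR) z = nL2 z := by
  have e : LL1 RR =ᶠ[nhds z] nL1 :=
    ((Q_an z).continuousAt.eventually_ne h).mono fun w hw => L1_eq hw
  have d : HasDerivAt nL1 (-((dQ1 z * QQ z - Q1 z * dQ z) / QQ z ^ 2)) z :=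
    ((Q1_der z).div (Q_der z) h).const_sub 1
  rw [e.deriv_eq, d.deriv, nL2, Q2_eq, Q1_eq]
  field_simp
  ring

theorem nx_der {z : ℂ} (h : QQ z ≠ 0) : HasDerivAt nx (RR z * LL1 RR z) z := by
  have e : nx = fun w => w * RR w := funext fun w => (nx_eq w).symm
  rw [e]
  refine ((hasDerivAt_id z).mul (R_der h)).congr_deriv ?_
  have := R_ne h
  rw [LL1, (R_der h).deriv, id]
  field_simp

def PP (z : ℂ) : ℂ := FF (nx z) * QQ z ^ 3

def GG (z : ℂ) : ℂ := log (PP z) - 3 * log (QQ z)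

theorem exp_G {z : ℂ} (h : QQ z ≠ 0) (k : PP z ≠ 0) : exp (GG z) = FF (nx z) := by
  have e : (3 : ℂ) * log (QQ z) = (3 : ℕ) * log (QQ z) := by norm_num
  rw [GG, exp_sub, e, exp_nat_mul, exp_log h, exp_log k, PP]
  field_simp

variable (hF : FBStmt) (hN : NUStmt)
include hF

theorem P_an {z : ℂ} (h : QQ z ≠ 0) : AnalyticAt ℂ PP z :=
  ((Differentiable.analyticAt (fun w => (hF.1 w).differentiableAt) _).comp
    ((analyticAt_const.mul analyticAt_id).div (Q_an z) h)).mul ((Q_an z).pow 3)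

include hN

theorem P_re : ∀ z ∈ closedBall (0 : ℂ) 1, 0 < (PP z).re :=
  re_pos (fun _ hz => P_an hF (Q_ne hz)) fun z hz => (hN z hz).1

theorem F_ne {z : ℂ} (hz : z ∈ closedBall (0 : ℂ) 1) : FF (nx z) ≠ 0 :=
  left_ne_zero_of_mul (ne_of_re (P_re hF hN z hz))

theorem G_an : AnalyticOnNhd ℂ GG (closedBall 0 1) := fun z hz =>
  ((P_an hF (Q_ne hz)).clog (.inl (P_re hF hN z hz))).sub
    (analyticAt_const.mul ((Q_an z).clog (.inl (Q_re hz))))

theorem G_der {z : ℂ} (hz : z ∈ closedBall (0 : ℂ) 1) :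
    deriv GG z * FF (nx z) = FF (nx z / 2) * (RR z * LL1 RR z) := by
  have h := Q_ne hz
  have k := ne_of_re (P_re hF hN z hz)
  have e : (fun w => exp (GG w)) =ᶠ[nhds z] fun w => FF (nx w) :=
    (((Q_an z).continuousAt.eventually_ne h).and
      ((P_an hF h).continuousAt.eventually_ne k)).mono fun w hw => exp_G hw.1 hw.2
  have d1 := (G_an hF hN z hz).differentiableAt.hasDerivAt.cexp
  have d2 : HasDerivAt (fun w => FF (nx w)) (FF (nx z / 2) * (RR z * LL1 RR z)) z :=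
    (hF.1 (nx z)).comp z (nx_der h)
  rw [← (d2.congr_of_eventuallyEq e).unique d1 |>.symm, exp_G h k, mul_comm]

theorem G1_eq {z : ℂ} (hz : z ∈ closedBall (0 : ℂ) 1) : z * deriv GG z = nG1 z := by
  have k := F_ne hF hN hz
  rw [eq_div_of_mul_eq k (G_der hF hN hz), nG1, nN, L1_eq (Q_ne hz), ← nx_eq]
  ring

theorem dG_eq {z : ℂ} (hz : ‖z‖ = 1) : deriv GG z = nG1 z / z := by
  have z0 : z ≠ 0 := fun e => by simp [e] at hz
  rw [← G1_eq hF hN (mem_closedBall_zero_iff.2 hz.le), mul_div_cancel_left₀ _ z0]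

/-- the contour -/
def DD : CD where
  R := RR
  G := GG
  hR := fun _ hz => R_an (Q_ne hz)
  hG := G_an hF hN
  R_ne := fun _ hz => R_ne (Q_ne hz)
  G0 := by simp [GG, PP, nx, QQ, hF.2.1]
  expG := fun z hz => by rw [nx_eq, exp_G (Q_ne hz) (ne_of_re (P_re hF hN z hz))]
  dG := fun z hz => by rw [nx_eq, G_der hF hN hz]
  dG_re := re_pos (G_an hF hN).deriv fun z hz => by
    rw [dG_eq hF hN hz]
    exact (hN z hz).2.1

end CX

open CX in
theorem cxS (hF : FBStmt) (hN : NUStmt) : CXStmt := by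
  refine ⟨DD hF hN, fun z hz => ?_⟩
  have hb : z ∈ closedBall (0 : ℂ) 1 := mem_closedBall_zero_iff.2 hz.le
  have z0 : z ≠ 0 := fun e => by simp [e] at hz
  obtain ⟨-, h2, h⟩ := hN z hz
  have g0 : nG1 z ≠ 0 := fun e => by simp [e] at h2
  have l0 : nL1 z ≠ 0 := right_ne_zero_of_mul g0
  have n0 : nN z ≠ 0 := left_ne_zero_of_mul g0
  have e0 : (DD hF hN).gam z = nx z := nx_eq z
  have e1 : (DD hF hN).L1 z = nL1 z := L1_eq (Q_ne hb)
  have e2 : (DD hF hN).L2 z = nL2 z := L2_eq (Q_ne hb)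
  have e3 : (DD hF hN).G1 z = nG1 z := G1_eq hF hN hb
  have e4 : (DD hF hN).tau z = (nN z)⁻¹ := by
    have : deriv (DD hF hN).G z = nG1 z / z := dG_eq hF hN hz
    rw [CD.tau, CD.phi, e1, this, nG1]
    field_simp
  have e5 : (DD hF hN).om z = nom z := by rw [CD.om, e0, e1, e2, nom, nN]
  have e6 : (DD hF hN).H1 z = nH1 z := by rw [CD.H1, e1, e3, nH1]
  have e7 : (DD hF hN).H2 z = nH2 z := by rw [CD.H2, e2, e3, e5, nH2]
  rw [e3, e4, e5, e6, e7]
  exact h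

end Pool.Agent.MP_cb5fda_co.AA
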