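import Pool.Agent.MP_cb5fda_co.AA.Ball

/-! The check of the inequalities on one cell of the unit circle, and covers by cells. -/

open Complex Finset

namespace Pool.Agent.MP_cb5fda_co.AA.NU

def hor (x : Bl) : List ℕ → Bl
  | [] => cst 1 10569646080
  | d :: L => add (cst 1 (d + 1)) (mul x (hor x L))

def fb (x : Bl) : Bl := wid (hor x [0, 0, 3, 47, 1535, 122879, 23592959]) (S / 500000 + 1)

def c4 (z Q f0 N G1 om H1 e : Bl) : Bool :=
  ok N && decide (((mul f0 (mul (mul Q Q) Q)).r : ℤ) < (mul f0 (mul (mul Q Q) Q)).x) &&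
  decide (((mul G1 (inv z)).r : ℤ) < (mul G1 (inv z)).x) &&
  decide (500 * ((inv N).x + (inv N).r) < 249 * (S : ℕ)) &&
  decide (S + 5 * (sub (inv N) (cst 7 25)).r <
    5 * lb (sub (inv N) (cst 7 25)).x (sub (inv N) (cst 7 25)).y) &&
  decide ((om.r : ℤ) < om.x) && decide ((H1.r : ℤ) < H1.x) && decide (G1.r ≤ lb G1.x G1.y) &&
  decide (25 * ((e.x.natAbs + e.r) * (e.x.natAbs + e.r)) * (S * S) +
    25 * ((om.x.natAbs - om.r) * (om.x.natAbs - om.r)) *
      ((H1.y.natAbs + H1.r) * (H1.y.natAbs + H1.r)) <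
    ((om.x.natAbs - om.r) * (om.x.natAbs - om.r)) * ((lb G1.x G1.y - G1.r) * (lb G1.x G1.y - G1.r)))

def c3 (z Q f0 L1 L2 N G1 om : Bl) : Bool :=
  c4 z Q f0 N G1 om (sub L1 (sc 7 25 G1))
    (add (mul (im om) (im (sub L1 (sc 7 25 G1)))) (re (sub L2 (sc 7 25 (mul G1 om)))))

def c2 (z Q x f0 f1 f2 L1 L2 N : Bl) : Bool :=
  ok L1 && c3 z Q f0 L1 L2 N (mul N L1)
    (add (mul L2 (inv L1)) (mul L1 (sub (add one (mul (mul x (sc 1 2 f2)) (inv f1))) N)))

def c1 (z Q x a b f0 f1 : Bl) : Bool :=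
  ok f0 && ok f1 &&
    c2 z Q x f0 f1 (fb (sc 1 4 x)) (sub one a) (sub (mul a a) b) (mul (mul x f1) (inv f0))

def cr (z Q x iQ Q1 Q2 : Bl) : Bool :=
  decide (2 * (ub x.x x.y + x.r) ≤ 15 * S) &&
    c1 z Q x (mul Q1 iQ) (mul Q2 iQ) (fb x) (fb (sc 1 2 x))

def cq (z z2 z3 a1 Q : Bl) : Bool :=
  ok Q && cr z Q (mul (sc 2187 1000 z) (inv Q)) (inv Q)
    (sub (sub (sc 53 250 z2) a1) (sc 117 1000 z3)) (sub (sub (sc 53 125 z2) a1) (sc 351 1000 z3))

def cp (z z2 z3 a1 : Bl) : Bool :=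
  cq z z2 z3 a1 (sub (add (sub one a1) (sc 53 500 z2)) (sc 39 1000 z3))

def chk (z : Bl) : Bool := ok z && cp z (mul z z) (mul (mul z z) z) (sc 149 200 z)

def zb (m : ℤ) (rad : ℕ) : Bl := wid (mul ⟨(S : ℕ), m, 0⟩ (inv ⟨(S : ℕ), -m, 0⟩)) rad

def cell (sg : Bool) (m : ℤ) (rad : ℕ) : Bool :=
  ok ⟨(S : ℕ), -m, 0⟩ && chk (if sg then zb m rad else neg (zb m rad))

def run (sg : Bool) (st : ℕ) : ℕ → ℤ → Bool
  | 0, _ => true
  | c + 1, lo => cell sg (lo + (st / 2 : ℕ)) (st + 2) && run sg st c (lo + st)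

def W : ℕ := 2147483648

def seg (sg : Bool) (j st c : ℕ) : Bool :=
  decide (W ≤ st * c) && run sg st c ((W * j : ℕ) - (S : ℕ))

def Sg (sg : Bool) (j : ℕ) : Prop := ∃ st c, seg sg j st c = true

/-- The seven inequalities. -/
def PP (z : ℂ) : Prop :=
  0 < (FF (nx z) * QQ z ^ 3).re ∧ 0 < (nG1 z / z).re ∧
  (nN z)⁻¹.re < 249 / 500 ∧ 1 / 5 < ‖(nN z)⁻¹ - 7 / 25‖ ∧ 0 < (nom z).re ∧ 0 < (nH1 z).re ∧
    ((nom z).im * (nH1 z).im + (nH2 z).re) ^ 2 <
      (nom z).re ^ 2 * (1 / 25 * ‖nG1 z‖ ^ 2 - (nH1 z).im ^ 2)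

noncomputable def hv (x : ℂ) : List ℕ → ℂ
  | [] => ((1 : ℕ) : ℂ) / (10569646080 : ℕ)
  | d :: L => ((1 : ℕ) : ℂ) / (d + 1 : ℕ) + x * hv x L

lemma mem_hor {a : Bl} {x : ℂ} (ha : mem a x) : ∀ L, mem (hor a L) (hv x L)
  | [] => mem_cst _ _ (by norm_num)
  | d :: L => mem_add (mem_cst _ _ (Nat.succ_pos d)) (mem_mul ha (mem_hor ha L))

lemma mem_fb (hF : FBStmt) {a : Bl} {x : ℂ} (ha : mem a x) (hx : ‖x‖ ≤ 15 / 2) :
    mem (fb a) (FF x) := by
  refine mem_wid (mem_hor ha _) _ ?_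
  have h := hF.2.2.2 x hx
  have e : hv x [0, 0, 3, 47, 1535, 122879, 23592959] =
      ∑ k ∈ range 8, x ^ k / ((2 : ℂ) ^ (k.choose 2) * (k.factorial : ℂ)) := by
    simp only [hv, sum_range_succ, sum_range_zero, Nat.choose, Nat.factorial]
    push_cast
    ring
  rw [e]
  have h2 := natdiv S 500000 (by norm_num)
  have h3 := mul_le_mul_of_nonneg_left h S_pos'.le
  rw [Nat.cast_add, Nat.cast_one]
  push_cast at h2
  linarith

lemma last {R s o h g E m k n : ℝ} (hs : 0 < s) (ho : 0 ≤ o) (hg : 0 ≤ g)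
    (hE : |s * E| ≤ R) (hm : o ≤ s * m) (hk : |s * k| ≤ h) (hn : g ≤ s * n)
    (H : 25 * (R * R) * (s * s) + 25 * (o * o) * (h * h) < o * o * (g * g)) :
    E ^ 2 < m ^ 2 * (1 / 25 * n ^ 2 - k ^ 2) := by
  have h1 : (s * E) ^ 2 ≤ R ^ 2 := by rw [← sq_abs]; gcongr
  have h2 : (s * k) ^ 2 ≤ h ^ 2 := by rw [← sq_abs]; gcongr
  have h3 : g ^ 2 ≤ (s * n) ^ 2 := by gcongr
  have h4 : o ^ 2 ≤ (s * m) ^ 2 := by gcongr
  have h5 : 0 < o ^ 2 * (g ^ 2 - 25 * h ^ 2) := by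
    have : 0 ≤ R * R * (s * s) := mul_nonneg (mul_self_nonneg _) (mul_self_nonneg _)
    nlinarith
  have h6 : 0 ≤ g ^ 2 - 25 * h ^ 2 := by
    by_contra hc
    have := mul_nonpos_of_nonneg_of_nonpos (sq_nonneg o) (not_le.1 hc).le
    linarith
  have h7 : o ^ 2 * (g ^ 2 - 25 * h ^ 2) ≤ (s * m) ^ 2 * ((s * n) ^ 2 - 25 * (s * k) ^ 2) :=
    mul_le_mul h4 (by linarith) h6 (sq_nonneg _)
  have h8 : (s * E) ^ 2 * s ^ 2 ≤ R ^ 2 * s ^ 2 := by gcongr
  have h9 : s ^ 4 * E ^ 2 < s ^ 4 * (m ^ 2 * (1 / 25 * n ^ 2 - k ^ 2)) := by nlinarith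
  exact lt_of_mul_lt_mul_left h9 (by positivity)

lemma abs_le_nat {t : ℝ} {x : ℤ} {r : ℕ} (h : |t - x| ≤ r) : |t| ≤ ((x.natAbs + r : ℕ) : ℝ) := by
  have := abs_sub_abs_le_abs_sub t x
  rw [Nat.cast_add, Nat.cast_natAbs, Int.cast_abs]
  linarith

lemma c4_ok {z Q f0 N G1 om H1 e : Bl} {z' Q' f0' N' G1' om' H1' : ℂ} {E : ℝ}
    (hz : mem z z') (oz : ok z = true) (hQ : mem Q Q') (hf : mem f0 f0') (hN : mem N N')
    (hG : mem G1 G1') (ho : mem om om') (hH : mem H1 H1') (he : mem e (E : ℂ))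
    (h : c4 z Q f0 N G1 om H1 e = true) :
    0 < (f0' * Q' ^ 3).re ∧ 0 < (G1' / z').re ∧ N'⁻¹.re < 249 / 500 ∧ 1 / 5 < ‖N'⁻¹ - 7 / 25‖ ∧
      0 < om'.re ∧ 0 < H1'.re ∧ E ^ 2 < om'.re ^ 2 * (1 / 25 * ‖G1'‖ ^ 2 - H1'.im ^ 2) := by
  simp only [c4, Bool.and_eq_true, decide_eq_true_eq] at h
  obtain ⟨⟨⟨⟨⟨⟨⟨⟨h1, h2⟩, h3⟩, h4⟩, h5⟩, h6⟩, h7⟩, h8⟩, h9⟩ := h
  have hS := S_pos'
  have hi := mem_inv hN h1
  refine ⟨?_, ?_, ?_, ?_, re_pos ho h6, re_pos hH h7, ?_⟩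
  · have := re_pos (mem_mul hf (mem_mul (mem_mul hQ hQ) hQ)) h2
    rwa [pow_three']
  · exact re_pos (mem_mul hG (mem_inv hz oz)) h3
  · have a1 := (abs_le.1 (re_abs hi)).2
    have a2 : (500 : ℝ) * ((inv N).x + (inv N).r) < 249 * S := by exact_mod_cast h4
    have a3 : (S : ℝ) * N'⁻¹.re < S * (249 / 500) := by linarith
    exact lt_of_mul_lt_mul_left a3 hS.le
  · have a1 := norm_ge (mem_sub hi (mem_cst 7 25 (by norm_num)))
    have a2 : (S : ℝ) + 5 * (sub (inv N) (cst 7 25)).r <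
      5 * lb (sub (inv N) (cst 7 25)).x (sub (inv N) (cst 7 25)).y := by exact_mod_cast h5
    push_cast at a1
    have a3 : (S : ℝ) * (1 / 5) < S * ‖N'⁻¹ - 7 / 25‖ := by linarith
    exact lt_of_mul_lt_mul_left a3 hS.le
  · have a1 := abs_le_nat (re_abs he)
    rw [ofReal_re] at a1
    have a2 := abs_le_nat (im_abs hH)
    have a3 := norm_ge hG
    rw [← Nat.cast_sub h8] at a3
    have a4 : ((om.x.natAbs - om.r : ℕ) : ℝ) ≤ S * om'.re := by
      have b1 := (abs_le.1 (re_abs ho)).1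
      have b2 : ((om.x.natAbs - om.r : ℕ) : ℤ) = om.x - om.r := by omega
      have b3 : ((om.x.natAbs - om.r : ℕ) : ℝ) = om.x - om.r := by exact_mod_cast b2
      linarith
    refine last hS (Nat.cast_nonneg _) (Nat.cast_nonneg _) a1 a4 a2 a3 ?_
    exact_mod_cast h9

lemma mc {a : Bl} {z : ℂ} (h : mem a z) (w : ℂ) (e : z = w) : mem a w := e ▸ h

lemma chk_ok (hF : FBStmt) {a : Bl} {z : ℂ} (hz : mem a z) (h : chk a = true) : PP z := by
  simp only [chk, cp, cq, cr, c1, c2, c3, Bool.and_eq_true, decide_eq_true_eq] at h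
  obtain ⟨oz, oQ, ox, ⟨o0, o1⟩, oL, h⟩ := h
  have z2 := mem_mul hz hz
  have z3 := mem_mul z2 hz
  have a1 := mem_sc 149 200 (by norm_num) hz
  have hQ := mem_sub (mem_add (mem_sub mem_one a1) (mem_sc 53 500 (by norm_num) z2))
    (mem_sc 39 1000 (by norm_num) z3)
  have hQ1 := mem_sub (mem_sub (mem_sc 53 250 (by norm_num) z2) a1) (mem_sc 117 1000 (by norm_num) z3)
  have hQ2 := mem_sub (mem_sub (mem_sc 53 125 (by norm_num) z2) a1) (mem_sc 351 1000 (by norm_num) z3)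
  replace hQ := mc hQ (QQ z) (by unfold QQ; push_cast; ring)
  replace hQ1 := mc hQ1 (Q1 z) (by unfold Q1; push_cast; ring)
  replace hQ2 := mc hQ2 (Q2 z) (by unfold Q2; push_cast; ring)
  have iQ := mem_inv hQ oQ
  have hx := mem_mul (mem_sc 2187 1000 (by norm_num) hz) iQ
  replace hx := mc hx (nx z) (by unfold nx; push_cast; ring)
  have nx0 : ‖nx z‖ ≤ 15 / 2 := by
    have b1 := norm_le hx
    have b2 := (Nat.cast_le (α := ℝ)).2 ox
    push_cast at b2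
    have b3 : (S : ℝ) * ‖nx z‖ ≤ S * (15 / 2) := by linarith
    exact le_of_mul_le_mul_left b3 S_pos'
  have x2 := mem_sc 1 2 (by norm_num) hx
  have x4 := mem_sc 1 4 (by norm_num) hx
  replace x2 := mc x2 (nx z / 2) (by push_cast; ring)
  replace x4 := mc x4 (nx z / 4) (by push_cast; ring)
  have f0 := mem_fb hF hx nx0
  have f1 := mem_fb hF x2 (by rw [norm_div]; simp only [Complex.norm_ofNat]; linarith)
  have f2 := mem_fb hF x4 (by
    have := norm_nonneg (nx z); rw [norm_div]; simp only [Complex.norm_ofNat]; linarith)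
  have ha := mem_mul hQ1 iQ
  have L1 := mem_sub mem_one ha
  have L2 := mem_sub (mem_mul ha ha) (mem_mul hQ2 iQ)
  replace L1 := mc L1 (nL1 z) (by unfold nL1; ring)
  replace L2 := mc L2 (nL2 z) (by unfold nL2; ring)
  have hN := mem_mul (mem_mul hx f1) (mem_inv f0 o0)
  replace hN := mc hN (nN z) (by unfold nN; ring)
  have hG : mem _ (nG1 z) := mem_mul hN L1
  have ho := mem_add (mem_mul L2 (mem_inv L1 oL)) (mem_mul L1 (mem_sub (mem_add mem_one
    (mem_mul (mem_mul hx (mem_sc 1 2 (by norm_num) f2)) (mem_inv f1 o1))) hN))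
  replace ho := mc ho (nom z) (by unfold nom; push_cast; ring)
  have H1 := mem_sub L1 (mem_sc 7 25 (by norm_num) hG)
  have H2 := mem_sub L2 (mem_sc 7 25 (by norm_num) (mem_mul hG ho))
  replace H1 := mc H1 (nH1 z) (by unfold nH1; push_cast; ring)
  replace H2 := mc H2 (nH2 z) (by unfold nH2; push_cast; ring)
  have he := mem_add (mem_mul (mem_im ho) (mem_im H1)) (mem_re H2)
  rw [← ofReal_mul, ← ofReal_add] at he
  exact c4_ok hz oz hQ f0 hN hG ho H1 he h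

noncomputable def zz (s : ℝ) : ℂ := (1 + s * I) / (1 - s * I)

lemma den_ge (s : ℝ) : 1 ≤ ‖(1 : ℂ) - s * I‖ := by
  have := abs_re_le_norm ((1 : ℂ) - s * I)
  simpa using this

lemma zz_lip (s t : ℝ) : ‖zz s - zz t‖ ≤ 2 * |s - t| := by
  have h1 := den_ge s
  have h2 := den_ge t
  have n1 : (1 : ℂ) - s * I ≠ 0 := by intro e; rw [e, norm_zero] at h1; linarith
  have n2 : (1 : ℂ) - t * I ≠ 0 := by intro e; rw [e, norm_zero] at h2; linarith
  have e : zz s - zz t = 2 * ((s - t : ℝ) : ℂ) * I / ((1 - s * I) * (1 - t * I)) := by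
    unfold zz; rw [div_sub_div _ _ n1 n2]; congr 1; push_cast; ring
  rw [e, norm_div, norm_mul, norm_mul, norm_mul, norm_I, norm_real, Real.norm_eq_abs, mul_one]
  simp only [Complex.norm_ofNat]
  exact div_le_self (by positivity) (one_le_mul_of_one_le_of_one_le h1 h2)

lemma cell_ok (hF : FBStmt) {sg : Bool} {m : ℤ} {rad : ℕ} (h : cell sg m rad = true) {s : ℝ}
    (hs : 2 * |S * s - m| ≤ rad) : PP (if sg then zz s else -zz s) := by
  simp only [cell, Bool.and_eq_true] at h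
  have hS := S_ne
  have m1 : mem ⟨(S : ℕ), m, 0⟩ (1 + ((m / S : ℝ) : ℂ) * I) := by
    simp only [mem, cz]; push_cast
    rw [show (S : ℂ) * (1 + m / S * I) - (S + m * I) = 0 by field_simp; ring, norm_zero]
  have m2 : mem ⟨(S : ℕ), -m, 0⟩ (1 - ((m / S : ℝ) : ℂ) * I) := by
    simp only [mem, cz]; push_cast
    rw [show (S : ℂ) * (1 - m / S * I) - (S + -m * I) = 0 by field_simp; ring, norm_zero]
  have m3 : mem (zb m rad) (zz s) := by
    refine mem_wid (mem_mul m1 (mem_inv m2 h.1)) _ ?_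
    have l := mul_le_mul_of_nonneg_left (zz_lip s (m / S)) S_pos'.le
    have e : (S : ℝ) * (2 * |s - m / S|) = 2 * |S * s - m| := by
      rw [show (S : ℝ) * s - m = S * (s - m / S) by have := S_pos'.ne'; field_simp, abs_mul,
        abs_of_pos S_pos']
      ring
    rw [e] at l
    exact l.trans hs
  cases sg
  · exact chk_ok hF (mem_neg m3) h.2
  · exact chk_ok hF m3 h.2

lemma run_ok (hF : FBStmt) {sg : Bool} {st : ℕ} {s : ℝ} : ∀ (c : ℕ) (lo : ℤ),
    run sg st c lo = true → 0 < c → (lo : ℝ) ≤ S * s → S * s ≤ lo + st * c →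
      PP (if sg then zz s else -zz s)
  | 0, _, _, h, _, _ => absurd h (lt_irrefl 0)
  | c + 1, lo, h, _, h1, h2 => by
    simp only [run, Bool.and_eq_true] at h
    by_cases hc : S * s ≤ lo + st
    · refine cell_ok hF h.1 ?_
      have a1 : (2 * (st / 2 : ℕ) : ℝ) ≤ st := by
        exact_mod_cast (by omega : 2 * (st / 2) ≤ st)
      have a2 : (st : ℝ) ≤ 2 * (st / 2 : ℕ) + 1 := by
        exact_mod_cast (by omega : st ≤ 2 * (st / 2) + 1)
      rw [Int.cast_add, Int.cast_natCast, Nat.cast_add]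
      have : |S * s - (lo + (st / 2 : ℕ))| ≤ ((st : ℝ) + 2) / 2 := by
        rw [abs_le]; constructor <;> linarith
      push_cast at this ⊢
      linarith
    · refine run_ok hF c _ h.2 (Nat.pos_of_ne_zero ?_) ?_ ?_
      · rintro rfl
        exact hc (by simpa using h2)
      · push_cast; linarith
      · push_cast at h2 ⊢; linarith

lemma ex_j {w t : ℝ} (h0 : 0 ≤ t) : ∀ n : ℕ, t ≤ w * (n + 1 : ℕ) →
    ∃ j : ℕ, j < n + 1 ∧ w * j ≤ t ∧ t ≤ w * j + w
  | 0, h => ⟨0, Nat.one_pos, by simpa using h0, by simpa using h⟩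
  | n + 1, h => by
    by_cases hc : t ≤ w * (n + 1 : ℕ)
    · obtain ⟨j, h1, h2⟩ := ex_j h0 n hc
      exact ⟨j, by omega, h2⟩
    · refine ⟨n + 1, by omega, (not_le.1 hc).le, ?_⟩
      push_cast at h ⊢; linarith

lemma half_ok (hF : FBStmt) {sg : Bool} (h : ∀ j < 64, Sg sg j) {s : ℝ} (hs : |s| ≤ 1) :
    PP (if sg then zz s else -zz s) := by
  have h1 := abs_le.1 hs
  have hS := S_pos'
  obtain ⟨j, hj, h2, h3⟩ := ex_j (w := W) (t := S * s + S) (by nlinarith) 63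
    (by simp only [S, W]; push_cast; linarith)
  obtain ⟨st, c, h4⟩ := h j hj
  simp only [seg, Bool.and_eq_true, decide_eq_true_eq] at h4
  have a1 : (W : ℝ) ≤ st * c := by exact_mod_cast h4.1
  refine run_ok hF _ _ h4.2 (Nat.pos_of_ne_zero fun e => ?_) ?_ ?_
  · have := h4.1
    rw [e, mul_zero] at this
    exact absurd this (by decide)
  · push_cast; linarith
  · push_cast; linarith

lemma ex_s {z : ℂ} (hz : ‖z‖ = 1) (h0 : 0 ≤ z.re) : ∃ s : ℝ, |s| ≤ 1 ∧ z = zz s := by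
  have h1 : z.re ^ 2 + z.im ^ 2 = 1 := by
    have := Complex.sq_norm z
    rw [hz, normSq_apply] at this; linarith
  have hp : 0 < 1 + z.re := by linarith
  refine ⟨z.im / (1 + z.re), ?_, ?_⟩
  · rw [abs_div, abs_of_pos hp, div_le_one hp]
    have := abs_im_le_norm z
    linarith
  · have h2 := den_ge (z.im / (1 + z.re))
    have n1 : (1 : ℂ) - (z.im / (1 + z.re) : ℝ) * I ≠ 0 := by
      intro e; rw [e, norm_zero] at h2; linarith
    unfold zz
    rw [eq_div_iff n1]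
    apply Complex.ext
    · simp only [mul_re, sub_re, one_re, ofReal_re, I_re, mul_zero, ofReal_im, I_im, mul_one,
        sub_self, sub_zero, sub_im, one_im, mul_im, add_zero, zero_sub, add_re]
      field_simp
      linarith
    · simp only [mul_re, sub_re, one_re, ofReal_re, I_re, mul_zero, ofReal_im, I_im, mul_one,
        sub_self, sub_zero, sub_im, one_im, mul_im, add_zero, zero_sub, add_im, zero_add]
      field_simp
      ring

lemma all_ok (hF : FBStmt) (hL : ∀ j < 64, Sg true j) (hM : ∀ j < 64, Sg false j) :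
    NUStmt := by
  intro z hz
  by_cases h0 : 0 ≤ z.re
  · obtain ⟨s, hs, e⟩ := ex_s hz h0
    have := half_ok hF hL hs
    rw [if_pos rfl, ← e] at this
    exact this
  · obtain ⟨s, hs, e⟩ := ex_s (z := -z) (by simpa using hz) (by rw [neg_re]; linarith)
    have := half_ok hF hM hs
    rw [if_neg Bool.false_ne_true, ← e, neg_neg] at this
    exact this

end Pool.Agent.MP_cb5fda_co.AA.NU
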