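import Mathlib

/-! Chromatic roots of almost all graphs: definitions and the statements of the steps. -/

noncomputable section
open Finset Complex Metric Filter
open scoped Classical

namespace Pool.Agent.MP_cb5fda_co.AA

/-- The deformed exponential at `y = 1/2`. -/
def FF (x : ℂ) : ℂ := ∑' k : ℕ, x ^ k / ((2 : ℂ) ^ (k.choose 2) * (k.factorial : ℂ))

/-- Place the masses of a list one after the other: `g` colours are in use, `a i` is the mass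
on colour `i`, `q - g` colours are free, `fin` is the terminal value. -/
def cwG (fin : ℕ → (ℕ → ℕ) → ℂ) (q : ℂ) : List ℕ → ℕ → (ℕ → ℕ) → ℂ
  | [], g, a => fin g a
  | s :: L, g, a => (1 / 2 : ℂ) ^ (s.choose 2) *
      ((q - g) * cwG fin q L (g + 1) (Function.update a g s) +
        ∑ i ∈ range g, (1 / 2 : ℂ) ^ (s * a i) * cwG fin q L g (Function.update a i (a i + s)))

def cw (q : ℂ) (L : List ℕ) : ℂ := cwG (fun _ _ => 1) q L 0 (fun _ => 0)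

/-- Weighted count of the colourings of the positions of a list of masses. -/
def SS (k : ℕ) (L : List ℕ) : ℂ :=
  ∑ τ : Fin L.length → Fin k, ∏ c : Fin k,
    (1 / 2 : ℂ) ^ ((∑ i ∈ univ.filter (fun i => τ i = c), L.get i).choose 2)

def pf (g : ℕ) (a : ℕ → ℕ) (x : ℂ) : ℂ := ∏ i ∈ range g, FF (x / 2 ^ (a i)) / FF x

def TT (q : ℂ) (L : List ℕ) (x : ℂ) : ℂ := cwG (fun g a => pf g a x) q L 0 (fun _ => 0)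

def ed {n : ℕ} (H : SimpleGraph (Fin n)) : Finset (Sym2 (Fin n)) :=
  univ.filter (fun e => e ∈ H.edgeSet)

def xi {n : ℕ} (G : SimpleGraph (Fin n)) (e : Sym2 (Fin n)) : ℝ := if e ∈ G.edgeSet then -1 else 1

def chi {n : ℕ} (H G : SimpleGraph (Fin n)) : ℝ := ∏ e ∈ ed H, xi G e

def XX {n : ℕ} (G : SimpleGraph (Fin n)) : ℝ := ∑ e ∈ ed (⊤ : SimpleGraph (Fin n)), xi G e

def YY {n : ℕ} (G : SimpleGraph (Fin n)) (κ : ℂ) : ℂ :=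
  ∏ e ∈ ed (⊤ : SimpleGraph (Fin n)), (1 + κ * (xi G e : ℂ))

def c0 {n : ℕ} (H : SimpleGraph (Fin n)) (k : ℕ) : ℂ :=
  ∑ σ ∈ univ.filter (fun σ : Fin n → Fin k => ∀ u v, H.Adj u v → σ u = σ v),
    ∏ c : Fin k, (1 / 2 : ℂ) ^ ((univ.filter (fun v => σ v = c)).card.choose 2)

/-- Sizes of the components with at least two vertices. -/
def ms {n : ℕ} (H : SimpleGraph (Fin n)) : List ℕ :=
  (univ.filter (fun K : H.ConnectedComponent => 2 ≤ K.supp.ncard)).toList.map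
    (fun K => K.supp.ncard)

/-- `L` followed by ones, total mass `n`. -/
def pad (n : ℕ) (L : List ℕ) : List ℕ := L ++ List.replicate (n - L.sum) 1

def Cherry {n : ℕ} (H : SimpleGraph (Fin n)) : Prop := ∃ u v w, v ≠ w ∧ H.Adj u v ∧ H.Adj u w

/-- `z γ' / γ` for `γ z = z R z`. -/
def LL1 (R : ℂ → ℂ) (z : ℂ) : ℂ := 1 + z * deriv R z / R z

/-- A contour `γ z = z R z` on the closed unit disc with a logarithm `G` of `FF ∘ γ`. -/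
structure CD where
  R : ℂ → ℂ
  G : ℂ → ℂ
  hR : AnalyticOnNhd ℂ R (closedBall 0 1)
  hG : AnalyticOnNhd ℂ G (closedBall 0 1)
  R_ne : ∀ z ∈ closedBall (0 : ℂ) 1, R z ≠ 0
  G0 : G 0 = 0
  expG : ∀ z ∈ closedBall (0 : ℂ) 1, exp (G z) = FF (z * R z)
  dG : ∀ z ∈ closedBall (0 : ℂ) 1,
    deriv G z * FF (z * R z) = FF (z * R z / 2) * (R z * LL1 R z)
  dG_re : ∀ z ∈ closedBall (0 : ℂ) 1, 0 < (deriv G z).re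

namespace CD
variable (D : CD)
def gam (z : ℂ) : ℂ := z * D.R z
def L1 (z : ℂ) : ℂ := LL1 D.R z
def L2 (z : ℂ) : ℂ := z * deriv (LL1 D.R) z
def G1 (z : ℂ) : ℂ := z * deriv D.G z
def phi (z : ℂ) : ℂ := D.L1 z / deriv D.G z
def tau (z : ℂ) : ℂ := D.phi z / z
def om (z : ℂ) : ℂ := D.L2 z / D.L1 z + D.L1 z *
  (1 + D.gam z * (FF (D.gam z / 4) / 2) / FF (D.gam z / 2) - D.gam z * FF (D.gam z / 2) / FF (D.gam z))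
def al (z : ℂ) : ℂ := (D.L1 z * D.om z - D.L2 z) / 2
def kap (z : ℂ) : ℂ := D.gam z * FF (D.gam z / 4) / (2 * FF (D.gam z / 2))
def Om (z0 z : ℂ) : ℂ := exp (D.tau z0 * (D.G z - D.G z0)) * D.gam z0 / D.gam z
def H1 (z : ℂ) : ℂ := D.L1 z - 7 / 25 * D.G1 z
def H2 (z : ℂ) : ℂ := D.L2 z - 7 / 25 * (D.G1 z * D.om z)
/-- `γ^n p (n τ)` without the pole at `0`. -/
def hom (n : ℕ) (p : Polynomial ℂ) (z : ℂ) : ℂ :=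
  ∑ j ∈ range (n + 1), p.coeff j * ((n : ℂ) * D.R z * D.phi z) ^ j * D.gam z ^ (n - j)

/-- The inequalities on the unit circle. -/
def Cert : Prop := ∀ z : ℂ, ‖z‖ = 1 →
  (D.tau z).re < 249 / 500 ∧ 1 / 5 < ‖D.tau z - 7 / 25‖ ∧ 0 < (D.om z).re ∧ 0 < (D.H1 z).re ∧
    ((D.om z).im * (D.H1 z).im + (D.H2 z).re) ^ 2 <
      (D.om z).re ^ 2 * (1 / 25 * ‖D.G1 z‖ ^ 2 - (D.H1 z).im ^ 2)

/-- Soft facts. -/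
structure Soft : Prop where
  aL1 : AnalyticOnNhd ℂ D.L1 (closedBall 0 1)
  aL2 : AnalyticOnNhd ℂ D.L2 (closedBall 0 1)
  aphi : AnalyticOnNhd ℂ D.phi (closedBall 0 1)
  aom : AnalyticOnNhd ℂ D.om (closedBall 0 1)
  aal : AnalyticOnNhd ℂ D.al (closedBall 0 1)
  akap : AnalyticOnNhd ℂ D.kap (closedBall 0 1)
  agam : AnalyticOnNhd ℂ D.gam (closedBall 0 1)
  F_ne : ∀ z ∈ closedBall (0 : ℂ) 1, FF (D.gam z) ≠ 0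
  F2_ne : ∀ z ∈ closedBall (0 : ℂ) 1, FF (D.gam z / 2) ≠ 0
  L1_ne : ∀ z ∈ closedBall (0 : ℂ) 1, D.L1 z ≠ 0
  dgam : ∀ z ∈ closedBall (0 : ℂ) 1, HasDerivAt D.gam (D.R z * D.L1 z) z
  dG1 : ∀ z ∈ closedBall (0 : ℂ) 1, HasDerivAt D.G1 (deriv D.G z * D.om z) z
  kap_eq : ∀ z ∈ closedBall (0 : ℂ) 1, z ≠ 0 →
    D.kap z = D.tau z * (FF (D.gam z / 4) / (2 * FF (D.gam z))) * D.gam z ^ 2
  exE : ∃ E : ℂ → ℂ, AnalyticOnNhd ℂ E (closedBall 0 1) ∧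
    ∀ z ∈ closedBall (0 : ℂ) 1, z ≠ 0 → E z = D.tau z * D.G z
  ahom : ∀ n p, AnalyticOnNhd ℂ (D.hom n p) (closedBall 0 1)
  hom_eq : ∀ (n : ℕ) (p : Polynomial ℂ), p.natDegree ≤ n → ∀ z : ℂ, z ≠ 0 → D.R z ≠ 0 →
    D.hom n p z = D.gam z ^ n * p.eval ((n : ℂ) * D.tau z)

/-- The circle is a descent contour for each of its points. -/
def Desc : Prop := ∀ z0 : ℂ, ‖z0‖ = 1 →
  0 < (D.al z0).re ∧ ∀ z : ℂ, ‖z‖ = 1 → z ≠ z0 → ‖D.Om z0 z‖ < 1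

def Quad : Prop := ∃ c M : ℝ, 0 < c ∧ ∀ z0 : ℂ, ‖z0‖ = 1 → c ≤ (D.al z0).re ∧
  ∀ t : ℝ, |t| ≤ Real.pi → ‖D.Om z0 (z0 * exp (t * I))‖ ≤ Real.exp (-c * t ^ 2) ∧
    ‖D.Om z0 (z0 * exp (t * I)) - exp (-D.al z0 * t ^ 2)‖ ≤ M * |t| ^ 3

def LapA : Prop := ∃ B : ℝ, ∀ n : ℕ, 1 ≤ n → ∀ z0 : ℂ, ‖z0‖ = 1 →
  Real.circleAverage (fun z => ‖D.Om z0 z‖ ^ n) 0 1 ≤ B / √n ∧
    Real.circleAverage (fun z => ‖D.Om z0 z‖ ^ n * ‖z - z0‖) 0 1 ≤ B / n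

def LapB : Prop := ∀ ε : ℝ, 0 < ε → ∀ᶠ n : ℕ in atTop, ∀ z0 : ℂ, ‖z0‖ = 1 →
  ‖(n : ℂ) * Real.circleAverage (fun z => D.Om z0 z ^ n) 0 1 ^ 2 * (4 * Real.pi * D.al z0) - 1‖ ≤ ε

/-- The contour formula, normalised at the saddle. -/
def Form : Prop := ∀ (n : ℕ) (L : List ℕ), L.sum ≤ n → ∀ z0 : ℂ, ‖z0‖ = 1 →
  cw (n * D.tau z0) (pad n L) = ((n - L.sum).factorial : ℂ) *
    (exp (n * D.tau z0 * D.G z0) / D.gam z0 ^ n) *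
      Real.circleAverage (fun z => D.Om z0 z ^ n *
        (TT (n * D.tau z0) L (D.gam z) * D.gam z ^ L.sum * D.L1 z)) 0 1

def Low : Prop :=
  (∃ c : ℝ, 0 < c ∧ ∀ᶠ n : ℕ in atTop, ∀ z0 : ℂ, ‖z0‖ = 1 →
    c / √n ≤ ‖Real.circleAverage (fun z => D.Om z0 z ^ n * D.L1 z) 0 1‖) ∧
  ∀ᶠ n : ℕ in atTop, ∀ z0 : ℂ, ‖z0‖ = 1 →
    ‖(n : ℂ) * Real.circleAverage (fun z => D.Om z0 z ^ n * D.L1 z) 0 1 ^ 2 *
      (4 * Real.pi * D.al z0 / D.L1 z0 ^ 2) - 1‖ ≤ 1 / 2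

def R0 : Prop := ∀ᶠ n : ℕ in atTop, ∀ p : Polynomial ℂ, p.natDegree ≤ n →
  (∀ q, p.eval q = cw q (pad n [])) → ∀ z ∈ closedBall (0 : ℂ) 1, D.hom n p z ≠ 0

def R1 : Prop := ∃ C : ℝ, 1 ≤ C ∧ ∀ᶠ n : ℕ in atTop, ∀ z : ℂ, ‖z‖ = 1 → ∀ L : List ℕ,
  (∀ s ∈ L, 2 ≤ s) → L.sum ≤ n → ‖cw (n * D.tau z) (pad n L)‖ ≤
    C * (L.map fun s => (1 / 2 : ℝ) ^ (s.choose 2) * C ^ s / (n : ℝ) ^ (s - 1)).prod *
      ‖cw (n * D.tau z) (pad n [])‖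

def R2 : Prop := ∀ (r : ℕ) (ε : ℝ), 0 < ε → ∀ᶠ n : ℕ in atTop, ∀ z : ℂ, ‖z‖ = 1 →
  ‖cw (n * D.tau z) (pad n (List.replicate r 2)) - (D.kap z / n) ^ r * cw (n * D.tau z) (pad n [])‖ ≤
    ε / (n : ℝ) ^ r * ‖cw (n * D.tau z) (pad n [])‖

def Nz : Prop := ∀ᶠ n : ℕ in atTop, ∀ z : ℂ, ‖z‖ = 1 → cw (n * D.tau z) (pad n []) ≠ 0

def L2small : Prop := ∀ ε : ℝ, 0 < ε → ∀ᶠ n : ℕ in atTop, ∀ z : ℂ, ‖z‖ = 1 →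
  ∑ H : SimpleGraph (Fin n), ‖cw (n * D.tau z) (pad n (ms H)) / cw (n * D.tau z) (pad n []) -
    (D.kap z / n) ^ (ed H).card‖ ^ 2 ≤ ε

def Cover : Prop := ∃ r0 : ℝ, r0 < 1 ∧ ∀ τ1 : ℂ, 249 / 500 ≤ τ1.re →
  ∃ z : ℂ, ‖z‖ ≤ r0 ∧ z ≠ 0 ∧ D.tau z = τ1

end CD

def FBStmt : Prop := (∀ x, HasDerivAt FF (FF (x / 2)) x) ∧ FF 0 = 1 ∧
  (∀ x, ‖FF x‖ ≤ Real.exp ‖x‖) ∧ ∀ x : ℂ, ‖x‖ ≤ 15 / 2 →
    ‖FF x - ∑ k ∈ range 8, x ^ k / ((2 : ℂ) ^ (k.choose 2) * (k.factorial : ℂ))‖ ≤ 1 / 500000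

def CWStmt : Prop := ∀ (k : ℕ) (L : List ℕ), cw k L = SS k L

def CPStmt : Prop := ∀ L : List ℕ, ∃ p : Polynomial ℂ, p.natDegree ≤ L.length ∧
  ∀ q, p.eval q = cw q L

def WAStmt : Prop := ∀ (n : ℕ) (G : SimpleGraph (Fin n)) (k : ℕ),
  (Nat.card (G.Coloring (Fin k)) : ℂ) = ∑ H : SimpleGraph (Fin n), c0 H k * (chi H G : ℂ)

def WYStmt : Prop := (∀ (n : ℕ) (G : SimpleGraph (Fin n)) (κ : ℂ),
    YY G κ = ∑ H : SimpleGraph (Fin n), κ ^ (ed H).card * (chi H G : ℂ)) ∧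
  (∀ (n : ℕ) (t : ℝ), ∑ H : SimpleGraph (Fin n), t ^ (ed H).card = (1 + t) ^ (n.choose 2)) ∧
  ∀ (n : ℕ) (t : ℝ), 0 ≤ t →
    ∑ H ∈ univ.filter (fun H : SimpleGraph (Fin n) => Cherry H), t ^ (ed H).card ≤
      (n : ℝ) ^ 3 * t ^ 2 * (1 + t) ^ (n.choose 2)

def PVStmt : Prop := ∀ n : ℕ, Fintype.card (SimpleGraph (Fin n)) = 2 ^ (n.choose 2) ∧
  (∀ a : SimpleGraph (Fin n) → ℂ,
    ∑ G : SimpleGraph (Fin n), ‖∑ H : SimpleGraph (Fin n), a H * (chi H G : ℂ)‖ ^ 2 =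
      2 ^ (n.choose 2) * ∑ H : SimpleGraph (Fin n), ‖a H‖ ^ 2) ∧
  ∑ G : SimpleGraph (Fin n), XX G ^ 2 = 2 ^ (n.choose 2) * (n.choose 2 : ℝ)

def C1Stmt : Prop := ∀ (n : ℕ) (H : SimpleGraph (Fin n)) (k : ℕ), c0 H k = SS k (pad n (ms H))

def C2Stmt : Prop := ∀ (n : ℕ) (H : SimpleGraph (Fin n)), (∀ s ∈ ms H, 2 ≤ s) ∧ (ms H).sum ≤ n ∧
  (¬ Cherry H → ms H = List.replicate (ed H).card 2) ∧ (Cherry H → ∃ s ∈ ms H, 3 ≤ s)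

def POStmt : Prop := ∀ (n : ℕ) (β : ℕ → ℝ), (∀ s, 0 ≤ β s) →
  ∑ H : SimpleGraph (Fin n), ((ms H).map β).prod ≤
    Real.exp (∑ s ∈ Icc 2 n, (n.choose s : ℝ) * 2 ^ (s.choose 2) * β s)

def SOStmt : Prop := ∀ D : CD, D.Soft

def INStmt : Prop := ∀ (D : CD) (q : ℂ) (m g : ℕ) (a : ℕ → ℕ),
  cwG (fun _ _ => 1) q (List.replicate m 1) g a = (m.factorial : ℂ) *
    Real.circleAverage (fun z => exp (q * D.G z) * pf g a (D.gam z) * D.L1 z / D.gam z ^ m) 0 1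

def FOStmt : Prop := (∀ (q : ℂ) (L : List ℕ) (x : ℂ), FF x ≠ 0 → ContinuousAt (TT q L) x) ∧
  ∀ D : CD, D.Form

def TBStmt : Prop := ∀ (B : ℝ) (x q : ℂ), 1 ≤ B → (∀ j : ℕ, ‖FF (x / 2 ^ j) / FF x‖ ≤ B) →
  (∀ L : List ℕ, ‖TT q L x‖ ≤ ((‖q‖ + 2 * L.length) * B) ^ L.length *
    (L.map fun s => (1 / 2 : ℝ) ^ (s.choose 2)).prod) ∧
  ∀ r : ℕ, ‖TT q (List.replicate r 2) x - (q * (FF (x / 4) / (2 * FF x))) ^ r‖ ≤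
    2 * r ^ 2 * (‖q‖ + 2 * r) ^ (r - 1) * B ^ r

def ENStmt : Prop := ∀ D : CD, D.Cert → D.Desc
def QUStmt : Prop := ∀ D : CD, D.Desc → D.Quad
def LAStmt : Prop := ∀ D : CD, D.Quad → D.LapA
def LBStmt : Prop := ∀ D : CD, D.Quad → D.LapB
def LOStmt : Prop := ∀ D : CD, D.LapA → D.LapB → D.Low
def R0Stmt : Prop := ∀ D : CD, D.Low → D.R0 ∧ D.Nz
def R1Stmt : Prop := ∀ D : CD, D.LapA → D.Low → D.R1
def R2Stmt : Prop := ∀ D : CD, D.LapA → D.Low → D.R2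
def L2Stmt : Prop := ∀ D : CD, D.Nz → D.R1 → D.R2 → D.L2small
def CVStmt : Prop := (∀ D : CD, D.Cert → D.Cover) ∧
  ∀ (g : ℂ → ℂ) (r0 : ℝ) (z : ℂ), AnalyticOnNhd ℂ g (closedBall 0 1) → r0 < 1 → ‖z‖ ≤ r0 →
    ‖g z‖ ^ 2 ≤ Real.circleAverage (fun w => ‖g w‖ ^ 2) 0 1 / (1 - r0)

def PRStmt : Prop := ∀ (n : ℕ) (G : SimpleGraph (Fin n)),
  (∀ κ : ℂ, ‖κ‖ ≤ 1 / 2 → Real.exp (-(‖κ‖ * |XX G| + (n.choose 2 : ℝ) * ‖κ‖ ^ 2)) ≤ ‖YY G κ‖) ∧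
    (n.choose 2 : ℝ) - XX G ≤ n * (G.maxDegree : ℝ)

/-- The explicit contour. -/
def QQ (z : ℂ) : ℂ := 1 - 149 / 200 * z + 53 / 500 * z ^ 2 - 39 / 1000 * z ^ 3
def Q1 (z : ℂ) : ℂ := -(149 / 200) * z + 53 / 250 * z ^ 2 - 117 / 1000 * z ^ 3
def Q2 (z : ℂ) : ℂ := -(149 / 200) * z + 53 / 125 * z ^ 2 - 351 / 1000 * z ^ 3
def nx (z : ℂ) : ℂ := 2187 / 1000 * z / QQ z
def nL1 (z : ℂ) : ℂ := 1 - Q1 z / QQ z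
def nL2 (z : ℂ) : ℂ := (Q1 z / QQ z) ^ 2 - Q2 z / QQ z
def nN (z : ℂ) : ℂ := nx z * FF (nx z / 2) / FF (nx z)
def nG1 (z : ℂ) : ℂ := nN z * nL1 z
def nom (z : ℂ) : ℂ :=
  nL2 z / nL1 z + nL1 z * (1 + nx z * (FF (nx z / 4) / 2) / FF (nx z / 2) - nN z)
def nH1 (z : ℂ) : ℂ := nL1 z - 7 / 25 * nG1 z
def nH2 (z : ℂ) : ℂ := nL2 z - 7 / 25 * (nG1 z * nom z)

def NUStmt : Prop := ∀ z : ℂ, ‖z‖ = 1 →
  0 < (FF (nx z) * QQ z ^ 3).re ∧ 0 < (nG1 z / z).re ∧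
  (nN z)⁻¹.re < 249 / 500 ∧ 1 / 5 < ‖(nN z)⁻¹ - 7 / 25‖ ∧ 0 < (nom z).re ∧ 0 < (nH1 z).re ∧
    ((nom z).im * (nH1 z).im + (nH2 z).re) ^ 2 <
      (nom z).re ^ 2 * (1 / 25 * ‖nG1 z‖ ^ 2 - (nH1 z).im ^ 2)

def CXStmt : Prop := ∃ D : CD, D.Cert

end Pool.Agent.MP_cb5fda_co.AA
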