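import Mathlib
import Pool.Agent.MP_cb5fda_co.AA.Spec

/-! The certified inequalities make the unit circle a descent contour. -/

noncomputable section
open Finset Complex Metric Filter
open scoped Classical

namespace Pool.Agent.MP_cb5fda_co.AA

namespace EN

lemma strict_max {K K1 : ℝ → ℝ} (hK : ∀ t, HasDerivAt K (K1 t) t) {t k : ℝ}
    (h1 : HasDerivAt K1 k t) (h0 : K1 t = 0) (hk : k < 0) :
    ∃ δ > 0, ∀ s, s ≠ t → |s - t| < δ → K s < K t := by
  have h := (hasDerivAt_iff_tendsto_slope.1 h1).eventually (gt_mem_nhds hk)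
  rw [eventually_nhdsWithin_iff, Metric.eventually_nhds_iff] at h
  obtain ⟨δ, hδ, h⟩ := h
  refine ⟨δ, hδ, fun s hs hsd => ?_⟩
  have hc : Continuous K := continuous_iff_continuousAt.2 fun x => (hK x).continuousAt
  rw [abs_lt] at hsd
  rcases lt_or_gt_of_ne hs with hlt | hlt
  · obtain ⟨c, hc1, hc2⟩ :=
      exists_hasDerivAt_eq_slope K K1 hlt hc.continuousOn (fun x _ => hK x)
    have h2 := h (y := c) (by
      rw [Real.dist_eq, abs_lt]; constructor <;> linarith [hc1.1, hc1.2]) (ne_of_lt hc1.2)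
    rw [slope_def_field, h0, sub_zero, div_neg_iff] at h2
    have h3 : 0 < K1 c := by
      rcases h2 with h2 | h2
      · exact h2.1
      · linarith [h2.2, hc1.2]
    rw [hc2, div_pos_iff_of_pos_right (by linarith)] at h3
    linarith
  · obtain ⟨c, hc1, hc2⟩ :=
      exists_hasDerivAt_eq_slope K K1 hlt hc.continuousOn (fun x _ => hK x)
    have h2 := h (y := c) (by
      rw [Real.dist_eq, abs_lt]; constructor <;> linarith [hc1.1, hc1.2]) (ne_of_gt hc1.1)
    rw [slope_def_field, h0, sub_zero, div_neg_iff] at h2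
    have h3 : K1 c < 0 := by
      rcases h2 with h2 | h2
      · linarith [h2.2, hc1.1]
      · exact h2.1
    rw [hc2, div_neg_iff] at h3
    rcases h3 with h3 | h3
    · linarith [h3.2]
    · linarith [h3.1]

lemma exists_min {K K1 K2 : ℝ → ℝ} (hK : ∀ t, HasDerivAt K (K1 t) t)
    (h1 : ∀ t, HasDerivAt K1 (K2 t) t) {a b s : ℝ} (hs : s ∈ Set.Ioo a b) (ha : K s < K a)
    (hb : K s < K b) : ∃ t ∈ Set.Ioo a b, K1 t = 0 ∧ 0 ≤ K2 t ∧ K t ≤ K s := by
  have hc : Continuous K := continuous_iff_continuousAt.2 fun x => (hK x).continuousAt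
  have hs' : s ∈ Set.Icc a b := Set.Ioo_subset_Icc_self hs
  obtain ⟨t, ht, hmin⟩ := isCompact_Icc.exists_isMinOn ⟨s, hs'⟩ hc.continuousOn
  have hts : K t ≤ K s := hmin hs'
  have hta : a < t := lt_of_le_of_ne ht.1 (by rintro rfl; linarith)
  have htb : t < b := lt_of_le_of_ne ht.2 (by rintro rfl; linarith)
  have hl : IsLocalMin K t := hmin.isLocalMin (Icc_mem_nhds hta htb)
  have h0 : K1 t = 0 := hl.hasDerivAt_eq_zero (hK t)
  refine ⟨t, ⟨hta, htb⟩, h0, ?_, hts⟩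
  by_contra hneg
  obtain ⟨δ, hδ, h⟩ := strict_max hK (h1 t) h0 (not_le.1 hneg)
  have hm : 0 < min δ (b - t) := lt_min hδ (by linarith)
  have m1 := min_le_left δ (b - t)
  have m2 := min_le_right δ (b - t)
  have h2 := h (t + min δ (b - t) / 2) (by linarith) (by
    rw [abs_lt]; constructor <;> linarith)
  have h3 : K t ≤ K (t + min δ (b - t) / 2) := hmin ⟨by linarith, by linarith⟩
  linarith

lemma cos_signs {a b c d : ℝ} (hab : a ≤ b) (hbc : b ≤ c) (hcd : c ≤ d)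
    (hd : d ≤ a + 2 * Real.pi) (ha : 0 < Real.cos a) (hb : Real.cos b < 0) (hc : 0 < Real.cos c)
    (hd' : Real.cos d < 0) : False := by
  have hpi := Real.pi_pos
  set k : ℤ := ⌊(a + Real.pi / 2) / (2 * Real.pi)⌋ with hk
  have k1 : (k : ℝ) * (2 * Real.pi) ≤ a + Real.pi / 2 := by
    rw [← le_div_iff₀ (by positivity)]; exact Int.floor_le _
  have k2 : a + Real.pi / 2 < ((k : ℝ) + 1) * (2 * Real.pi) := by
    rw [← div_lt_iff₀ (by positivity)]; exact Int.lt_floor_add_one _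
  rw [← Real.cos_sub_int_mul_two_pi _ k] at ha hb hc hd'
  have a1 : a - k * (2 * Real.pi) < Real.pi / 2 := by
    by_contra h
    have := Real.cos_nonpos_of_pi_div_two_le_of_le (not_lt.1 h) (by linarith)
    linarith
  have b1 : Real.pi / 2 ≤ b - k * (2 * Real.pi) := by
    by_contra h
    have := Real.cos_nonneg_of_mem_Icc (x := b - k * (2 * Real.pi))
      ⟨by linarith, (not_le.1 h).le⟩
    linarith
  have d1 : d - k * (2 * Real.pi) ≤ Real.pi + Real.pi / 2 := by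
    by_contra h
    have := Real.cos_nonneg_of_mem_Icc (x := d - k * (2 * Real.pi) - 2 * Real.pi)
      ⟨by linarith [not_le.1 h], by linarith⟩
    rw [Real.cos_sub_two_pi] at this
    linarith
  have := Real.cos_nonpos_of_pi_div_two_le_of_le (x := c - k * (2 * Real.pi))
    (by linarith) (by linarith)
  linarith

/-- The real-variable argument. -/
lemma neg_between {K K1 K2 θ : ℝ → ℝ} (hK : ∀ t, HasDerivAt K (K1 t) t)
    (h1 : ∀ t, HasDerivAt K1 (K2 t) t) (hθ : Monotone θ)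
    (hper : θ (2 * Real.pi) = θ 0 + 2 * Real.pi)
    (hs : ∀ t, K1 t = 0 → K2 t * Real.cos (θ t) < 0) (a0 : K 0 = 0) (a1 : K1 0 = 0)
    (a2 : K2 0 < 0) (b0 : K (2 * Real.pi) = 0) (b1 : K1 (2 * Real.pi) = 0)
    (b2 : K2 (2 * Real.pi) < 0) {t : ℝ} (ht : t ∈ Set.Ioo 0 (2 * Real.pi)) : K t < 0 := by
  by_contra hneg
  have hge : 0 ≤ K t := not_lt.1 hneg
  obtain ⟨δ, hδ, h⟩ := strict_max hK (h1 0) a1 a2
  obtain ⟨δ', hδ', h'⟩ := strict_max hK (h1 _) b1 b2
  have hm : 0 < min δ t := lt_min hδ ht.1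
  have m1 := min_le_left δ t
  have m2 := min_le_right δ t
  have hm' : 0 < min δ' (2 * Real.pi - t) := lt_min hδ' (by linarith [ht.2])
  have m3 := min_le_left δ' (2 * Real.pi - t)
  have m4 := min_le_right δ' (2 * Real.pi - t)
  have s1 := h (min δ t / 2) (by linarith) (by rw [abs_lt]; constructor <;> linarith)
  have s3 := h' (2 * Real.pi - min δ' (2 * Real.pi - t) / 2) (by linarith)
    (by rw [abs_lt]; constructor <;> linarith)
  obtain ⟨t1, ht1, p1, q1, r1⟩ := exists_min hK h1 (a := 0) (b := t) (s := min δ t / 2)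
    ⟨by linarith, by linarith⟩ s1 (by linarith)
  obtain ⟨t3, ht3, p3, q3, r3⟩ := exists_min hK h1 (a := t) (b := 2 * Real.pi)
    (s := 2 * Real.pi - min δ' (2 * Real.pi - t) / 2) ⟨by linarith, by linarith⟩ (by linarith) s3
  obtain ⟨t2, ht2, p2, q2, -⟩ := exists_min (K := fun x => -K x) (K1 := fun x => -K1 x)
    (K2 := fun x => -K2 x) (fun x => (hK x).neg) (fun x => (h1 x).neg) (a := t1) (b := t3)
    (s := t) ⟨ht1.2, ht3.1⟩ (by show -K t < -K t1; linarith) (by show -K t < -K t3; linarith)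
  have p2' : K1 t2 = 0 := neg_eq_zero.1 p2
  have q2' : K2 t2 ≤ 0 := neg_nonneg.1 q2
  have c0 := hs 0 a1
  have c1 := hs t1 p1
  have c2 := hs t2 p2'
  have c3 := hs t3 p3
  refine cos_signs (hθ ht1.1.le) (hθ ht2.1.le) (hθ ht2.2.le) (hper ▸ hθ ht3.2.le) ?_ ?_ ?_ ?_
  · by_contra hc; nlinarith [not_lt.1 hc]
  · by_contra hc; nlinarith [not_lt.1 hc]
  · by_contra hc; nlinarith [not_lt.1 hc]
  · by_contra hc; nlinarith [not_lt.1 hc]

lemma key {s g o h1 h2 : ℂ} (hs : 1 / 5 < ‖s‖) (ho : 0 < o.re)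
    (hc : (o.im * h1.im + h2.re) ^ 2 < o.re ^ 2 * (1 / 25 * ‖g‖ ^ 2 - h1.im ^ 2))
    (h0 : (s * g - h1).im = 0) : -(s * g * o - h2).re * (s * g).re < 0 := by
  have e1 : (s * g).im = h1.im := by rw [sub_im] at h0; linarith
  have e2 : (s * g).re ^ 2 + (s * g).im ^ 2 = ‖s‖ ^ 2 * ‖g‖ ^ 2 := by
    rw [← mul_pow, ← norm_mul, Complex.sq_norm, Complex.normSq_apply]; ring
  have e3 : 1 / 25 * ‖g‖ ^ 2 ≤ ‖s‖ ^ 2 * ‖g‖ ^ 2 :=
    mul_le_mul_of_nonneg_right (by nlinarith) (by positivity)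
  have e4 : -(s * g * o - h2).re = -(o.re * (s * g).re) + (o.im * h1.im + h2.re) := by
    rw [sub_re, mul_re (s * g) o, e1]; ring
  rw [e4]
  set u := (s * g).re
  set c := o.im * h1.im + h2.re
  have e5 : c ^ 2 < (o.re * u) ^ 2 := by
    refine hc.trans_le ?_
    rw [mul_pow]
    refine mul_le_mul_of_nonneg_left ?_ (by positivity)
    rw [e1] at e2; linarith
  have e6 := sq_lt_sq.1 e5
  rcases lt_trichotomy u 0 with hu | hu | hu
  · have : o.re * u < 0 := mul_neg_of_pos_of_neg ho hu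
    rw [abs_of_neg this, abs_lt] at e6
    nlinarith [e6.1]
  · rw [hu] at e5; nlinarith [sq_nonneg c]
  · have : 0 < o.re * u := mul_pos ho hu
    rw [abs_of_pos this, abs_lt] at e6
    nlinarith [e6.2]

/-- The circle through `z0`. -/
def zz (z0 : ℂ) (t : ℝ) : ℂ := z0 * exp (t * I)

lemma norm_zz {z0 : ℂ} (h : ‖z0‖ = 1) (t : ℝ) : ‖zz z0 t‖ = 1 := by
  rw [zz, norm_mul, h, norm_exp_ofReal_mul_I, one_mul]

lemma zz_zero (z0 : ℂ) : zz z0 0 = z0 := by simp [zz]

lemma zz_two_pi (z0 : ℂ) : zz z0 (2 * Real.pi) = z0 := by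
  rw [zz]; push_cast; rw [exp_two_pi_mul_I, mul_one]

lemma d_comp {f : ℂ → ℂ} {f' z0 : ℂ} {t : ℝ} (h : HasDerivAt f f' (zz z0 t)) :
    HasDerivAt (fun s : ℝ => f (zz z0 s)) (f' * (zz z0 t * I)) t := by
  have h1 : HasDerivAt (fun w : ℂ => z0 * exp (w * I)) (zz z0 t * I) (t : ℂ) := by
    have := (((hasDerivAt_id (t : ℂ)).mul_const I).cexp).const_mul z0
    simpa [zz, mul_assoc] using this
  exact (HasDerivAt.comp (t : ℂ) (h₂ := f) h h1).comp_ofReal

lemma d_im {f : ℝ → ℂ} {f' : ℂ} {t : ℝ} (h : HasDerivAt f f' t) :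
    HasDerivAt (fun s => (f s).im) f'.im t :=
  imCLM.hasFDerivAt.comp_hasDerivAt t h

lemma d_logn {f : ℝ → ℂ} {a : ℂ} {t : ℝ} (h : HasDerivAt f (f t * (I * a)) t) (h0 : f t ≠ 0) :
    HasDerivAt (fun s => Real.log (‖f s‖ ^ 2)) (-2 * a.im) t := by
  have hn : ‖f t‖ ^ 2 ≠ 0 := pow_ne_zero _ (norm_ne_zero_iff.2 h0)
  have := h.norm_sq.log hn
  convert this using 1
  rw [eq_div_iff hn, Complex.inner, Complex.sq_norm, Complex.normSq_apply]
  simp only [mul_re, mul_im, I_re, I_im, conj_re, conj_im]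
  ring

lemma exists_angle {z0 z : ℂ} (h0 : ‖z0‖ = 1) (h : ‖z‖ = 1) (hne : z ≠ z0) :
    ∃ t ∈ Set.Ioo 0 (2 * Real.pi), zz z0 t = z := by
  have hz0 : z0 ≠ 0 := norm_ne_zero_iff.1 (by rw [h0]; exact one_ne_zero)
  have hw : ‖z / z0‖ = 1 := by rw [norm_div, h, h0, div_one]
  have he : zz z0 (arg (z / z0)) = z := by
    have := norm_mul_exp_arg_mul_I (z / z0)
    rw [hw, ofReal_one, one_mul] at this
    rw [zz, this, mul_div_cancel₀ _ hz0]
  have hpi := Real.pi_pos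
  have a1 := neg_pi_lt_arg (z / z0)
  have a2 := arg_le_pi (z / z0)
  rcases lt_trichotomy (arg (z / z0)) 0 with ha | ha | ha
  · refine ⟨arg (z / z0) + 2 * Real.pi, ⟨by linarith, by linarith⟩, ?_⟩
    refine Eq.trans ?_ he
    rw [zz, zz]
    push_cast
    rw [add_mul, exp_add, exp_two_pi_mul_I, mul_one]
  · rw [ha, zz_zero] at he; exact absurd he.symm hne
  · exact ⟨_, ⟨ha, by linarith⟩, he⟩

end EN

open EN in
theorem enS (hS : SOStmt) : ENStmt := by
  intro D hC z0 hz0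
  have S := hS D
  have mem : ∀ {z : ℂ}, ‖z‖ = 1 → z ∈ closedBall (0 : ℂ) 1 := fun h => by
    rw [mem_closedBall_zero_iff, h]
  have ne0 : ∀ {z : ℂ}, ‖z‖ = 1 → z ≠ 0 := fun h =>
    norm_ne_zero_iff.1 (by rw [h]; exact one_ne_zero)
  have dne : ∀ {z : ℂ}, ‖z‖ = 1 → deriv D.G z ≠ 0 := fun h h' => by
    have := D.dG_re _ (mem h); rw [h'] at this; simp at this
  have gne : ∀ {z : ℂ}, ‖z‖ = 1 → D.gam z ≠ 0 := fun h => mul_ne_zero (ne0 h) (D.R_ne _ (mem h))
  have hz := norm_zz hz0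
  set τ0 := D.tau z0 with hτ
  set sg := τ0 - 7 / 25 with hsg
  have hsg5 : 1 / 5 < ‖sg‖ := (hC z0 hz0).2.1
  have hτG : τ0 * D.G1 z0 = D.L1 z0 := by
    have := ne0 hz0; have := dne hz0
    rw [hτ, CD.tau, CD.phi, CD.G1]; field_simp
  let W : ℝ → ℂ := fun t => D.Om z0 (zz z0 t)
  let A : ℝ → ℂ := fun t => sg * D.G1 (zz z0 t) - D.H1 (zz z0 t)
  let B : ℝ → ℂ := fun t => sg * D.G1 (zz z0 t) * D.om (zz z0 t) - D.H2 (zz z0 t)
  let g : ℝ → ℂ := fun t => D.G1 (zz z0 t) / zz z0 t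
  let θ : ℝ → ℝ := fun t => t + arg (sg * z0) + (log (g t)).im
  have hA : ∀ t, A t = τ0 * D.G1 (zz z0 t) - D.L1 (zz z0 t) := fun t => by
    simp only [A, hsg, CD.H1]; ring
  have hB : ∀ t, B t = τ0 * (D.G1 (zz z0 t) * D.om (zz z0 t)) - D.L2 (zz z0 t) := fun t => by
    simp only [B, hsg, CD.H2]; ring
  have hg : ∀ t, g t = deriv D.G (zz z0 t) := fun t => by
    have := ne0 (hz t)
    simp only [g, CD.G1]; field_simp
  have W0 : ∀ t, W t ≠ 0 := fun t =>
    div_ne_zero (mul_ne_zero (exp_ne_zero _) (gne hz0)) (gne (hz t))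
  have dG1 : ∀ t, HasDerivAt (fun s => D.G1 (zz z0 s))
      (I * (D.G1 (zz z0 t) * D.om (zz z0 t))) t := fun t => by
    convert d_comp (S.dG1 _ (mem (hz t))) using 1
    rw [CD.G1]; ring
  have dW : ∀ t, HasDerivAt W (W t * (I * A t)) t := fun t => by
    have h1 := d_comp (D.hG _ (mem (hz t))).differentiableAt.hasDerivAt
    have h2 := d_comp (S.dgam _ (mem (hz t)))
    have h3 := ((((h1.sub_const (D.G z0)).const_mul τ0).cexp).mul_const (D.gam z0)).div h2
      (gne (hz t))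
    refine HasDerivAt.congr_deriv h3 ?_
    have := gne (hz t)
    rw [hA]
    simp only [W, CD.Om, CD.G1, ← hτ]
    field_simp
    rw [show D.gam (zz z0 t) = zz z0 t * D.R (zz z0 t) from rfl]
    ring
  have dA : ∀ t, HasDerivAt A (I * B t) t := fun t => by
    have h1 := d_comp (S.aL1 _ (mem (hz t))).differentiableAt.hasDerivAt
    have h3 := ((dG1 t).const_mul τ0).sub h1
    rw [show A = fun s => τ0 * D.G1 (zz z0 s) - D.L1 (zz z0 s) from funext hA]
    refine HasDerivAt.congr_deriv h3 ?_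
    rw [hB, CD.L2, show D.L1 = LL1 D.R from rfl]
    ring
  have dg : ∀ t, HasDerivAt g (g t * (I * (D.om (zz z0 t) - 1))) t := fun t => by
    have h1 := d_comp (z0 := z0) (t := t) (hasDerivAt_id (zz z0 t))
    have h3 := (dG1 t).div h1 (ne0 (hz t))
    refine HasDerivAt.congr_deriv h3 ?_
    have := ne0 (hz t)
    simp only [g, id]
    field_simp
  have dθ : ∀ t, HasDerivAt θ (D.om (zz z0 t)).re t := fun t => by
    have h1 := d_im ((dg t).clog_real (Or.inl (by rw [hg]; exact D.dG_re _ (mem (hz t)))))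
    have h2 := ((hasDerivAt_id t).add_const (arg (sg * z0))).add h1
    refine HasDerivAt.congr_deriv h2 ?_
    have : g t ≠ 0 := by rw [hg]; exact dne (hz t)
    rw [mul_div_cancel_left₀ _ this]
    simp
  have hmono : Monotone θ :=
    monotone_of_hasDerivAt_nonneg dθ (fun t => (hC _ (hz t)).2.2.1.le)
  have hper : θ (2 * Real.pi) = θ 0 + 2 * Real.pi := by
    simp only [θ, g, zz_zero, zz_two_pi]; ring
  have hpol : ∀ t, (sg * D.G1 (zz z0 t)).re = (‖sg * z0‖ * ‖g t‖) * Real.cos (θ t) := fun t => by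
    have e1 : sg * D.G1 (zz z0 t) = (sg * z0) * exp (t * I) * g t := by
      rw [hg, CD.G1, zz]; ring
    have e2 : sg * D.G1 (zz z0 t) = ((‖sg * z0‖ * ‖g t‖ : ℝ) : ℂ) * exp ((θ t : ℝ) * I) := by
      rw [e1]
      conv_lhs => rw [← norm_mul_exp_arg_mul_I (sg * z0), ← norm_mul_exp_arg_mul_I (g t)]
      simp only [θ, log_im]
      push_cast
      rw [add_mul, add_mul, exp_add, exp_add]
      ring
    rw [e2, re_ofReal_mul, exp_ofReal_mul_I_re]
  have hkey : ∀ t, (A t).im = 0 → -(B t).re * (sg * D.G1 (zz z0 t)).re < 0 := fun t h =>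
    key hsg5 (hC _ (hz t)).2.2.1 (hC _ (hz t)).2.2.2.2 h
  have hend : ∀ t, zz z0 t = z0 → W t = 1 ∧ A t = 0 ∧ 0 < (B t).re := fun t ht => by
    have a : A t = 0 := by rw [hA, ht, hτG, sub_self]
    refine ⟨?_, a, ?_⟩
    · simp only [W, ht, CD.Om, sub_self, mul_zero, exp_zero, one_mul]
      exact div_self (gne hz0)
    · have h1 := hkey t (by rw [a]; rfl)
      have h2 : sg * D.G1 (zz z0 t) = D.H1 (zz z0 t) := sub_eq_zero.1 a
      rw [h2] at h1
      have h3 := (hC _ (hz t)).2.2.2.1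
      by_contra hc
      nlinarith [not_lt.1 hc]
  obtain ⟨u1, u2, u3⟩ := hend 0 (zz_zero z0)
  obtain ⟨v1, v2, v3⟩ := hend _ (zz_two_pi z0)
  refine ⟨?_, fun z hz1 hne => ?_⟩
  · have : D.al z0 = B 0 / 2 := by rw [hB, zz_zero, CD.al, ← mul_assoc, hτG]
    rw [this, div_ofNat_re]
    positivity
  · obtain ⟨t, ht, rfl⟩ := exists_angle hz0 hz1 hne
    have hK := neg_between (K := fun s => Real.log (‖W s‖ ^ 2)) (K1 := fun s => -2 * (A s).im)
      (K2 := fun s => -2 * (B s).re) (θ := θ) (fun s => d_logn (dW s) (W0 s))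
      (fun s => by simpa using (d_im (dA s)).const_mul (-2 : ℝ)) hmono hper
      (fun s hs => by
        have h1 := hkey s (by linarith)
        rw [hpol] at h1
        have h2 : 0 < ‖sg * z0‖ * ‖g s‖ := by
          refine mul_pos ?_ (norm_pos_iff.2 (by rw [hg]; exact dne (hz s)))
          rw [norm_mul, hz0]; linarith
        by_contra hc
        nlinarith [mul_nonneg h2.le (not_lt.1 hc)])
      (by simp [u1]) (by simp [u2]) (by linarith) (by simp [v1]) (by simp [v2]) (by linarith) ht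
    have h2 : 0 < ‖W t‖ := norm_pos_iff.2 (W0 t)
    rw [Real.log_neg_iff (by positivity)] at hK
    show ‖W t‖ < 1
    nlinarith

end Pool.Agent.MP_cb5fda_co.AA
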