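import Pool.Agent.MP_cb5fda_co.AA.Spec

/-! Basic facts on the deformed exponential. -/

noncomputable section
open Finset Complex Metric Filter
open scoped Classical

namespace Pool.Agent.MP_cb5fda_co.AA

namespace FB

/-- one term of the series -/
def tm (k : ℕ) (x : ℂ) : ℂ := x ^ k / ((2 : ℂ) ^ (k.choose 2) * (k.factorial : ℂ))

theorem tm_succ (k : ℕ) (x : ℂ) : tm (k + 1) x = tm k x * (x / (2 ^ k * (k + 1))) := by
  have h1 : (k.factorial : ℂ) ≠ 0 := by exact_mod_cast k.factorial_ne_zero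
  have h2 : (k : ℂ) + 1 ≠ 0 := by exact_mod_cast k.succ_ne_zero
  rw [tm, tm, Nat.choose_succ_succ' k 1, Nat.choose_one_right, Nat.factorial_succ]
  push_cast
  field_simp
  ring

theorem norm_tm (k : ℕ) (x : ℂ) : ‖tm k x‖ ≤ ‖x‖ ^ k / k.factorial := by
  have h1 : (0 : ℝ) < k.factorial := by exact_mod_cast k.factorial_pos
  rw [tm, norm_div, norm_mul, norm_pow, norm_pow, Complex.norm_natCast, Complex.norm_ofNat]
  exact div_le_div_of_nonneg_left (by positivity) h1
    (le_mul_of_one_le_left h1.le (one_le_pow₀ one_le_two))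

theorem sm (x : ℂ) : Summable fun k => tm k x :=
  Summable.of_norm_bounded (Real.summable_pow_div_factorial ‖x‖) fun k => norm_tm k x

theorem der_tm (k : ℕ) (x : ℂ) : HasDerivAt (tm (k + 1)) (tm k (x / 2)) x := by
  have h1 : (k.factorial : ℂ) ≠ 0 := by exact_mod_cast k.factorial_ne_zero
  have h2 : (k : ℂ) + 1 ≠ 0 := by exact_mod_cast k.succ_ne_zero
  refine ((hasDerivAt_pow (k + 1) x).div_const
    ((2 : ℂ) ^ ((k + 1).choose 2) * ((k + 1).factorial : ℂ))).congr_deriv ?_
  rw [tm, Nat.choose_succ_succ' k 1, Nat.choose_one_right, Nat.factorial_succ,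
    Nat.add_sub_cancel, div_pow]
  push_cast
  field_simp
  ring

theorem FF_eq (x : ℂ) : FF x = 1 + ∑' k, tm (k + 1) x := by
  have h := (sm x).tsum_eq_zero_add
  rw [show tm 0 x = 1 by simp [tm]] at h
  exact h

theorem der (x : ℂ) : HasDerivAt FF (FF (x / 2)) x := by
  have h := hasDerivAt_tsum_of_isPreconnected (g := fun k => tm (k + 1))
    (g' := fun k y => tm k (y / 2)) (t := ball (0 : ℂ) (‖x‖ + 1)) (y₀ := x) (y := x)
    (Real.summable_pow_div_factorial (‖x‖ + 1)) isOpen_ball (convex_ball _ _).isPreconnected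
    (fun k y _ => der_tm k y) (fun k y hy => (norm_tm k _).trans (by
      have h1 : ‖y / 2‖ ≤ ‖x‖ + 1 := by
        rw [norm_div, Complex.norm_ofNat]
        linarith [mem_ball_zero_iff.1 hy, norm_nonneg y]
      gcongr)) (by simp) ((summable_nat_add_iff 1).2 (sm x)) (by simp)
  rw [show FF = fun z => 1 + ∑' k, tm (k + 1) z from funext FF_eq]
  beta_reduce
  rw [← FF_eq]
  exact h.const_add 1

theorem tail {x : ℂ} (hx : ‖x‖ ≤ 15 / 2) (k : ℕ) :
    ‖tm (k + 8) x‖ ≤ 1 / 1000000 * (1 / 2) ^ k := by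
  induction k with
  | zero =>
    rw [tm, norm_div, norm_mul, norm_pow, norm_pow, Complex.norm_natCast, Complex.norm_ofNat]
    have h : ‖x‖ ^ 8 ≤ (15 / 2) ^ 8 := by gcongr
    rw [div_le_iff₀ (by positivity)]
    refine h.trans ?_
    norm_num [Nat.choose, Nat.factorial]
  | succ k ih =>
    rw [show k + 1 + 8 = (k + 8) + 1 by ring, tm_succ, norm_mul, pow_succ (1 / 2 : ℝ),
      ← mul_assoc]
    refine mul_le_mul ih ?_ (norm_nonneg _) (by positivity)
    have h1 : (1 : ℝ) ≤ ((k + 8 + 1 : ℕ) : ℝ) := by exact_mod_cast by omega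
    have h2 : (2 : ℝ) ^ 8 ≤ 2 ^ (k + 8) := pow_le_pow_right₀ one_le_two (by omega)
    rw [← Nat.cast_succ, norm_div, norm_mul, norm_pow, Complex.norm_natCast, Complex.norm_ofNat,
      div_le_iff₀ (by positivity)]
    nlinarith

end FB

open FB in
theorem fbS : FBStmt := by
  refine ⟨der, ?_, fun x => ?_, fun x hx => ?_⟩
  · rw [FF_eq]
    simp [tm]
  · rw [Real.exp_eq_exp_ℝ]
    exact tsum_of_norm_bounded (NormedSpace.expSeries_div_hasSum_exp ‖x‖) fun k => norm_tm k x
  · have h := (sm x).sum_add_tsum_nat_add 8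
    have e : FF x - ∑ k ∈ range 8, x ^ k / ((2 : ℂ) ^ (k.choose 2) * (k.factorial : ℂ)) =
        ∑' k, tm (k + 8) x := sub_eq_of_eq_add' h.symm
    rw [e]
    exact (tsum_of_norm_bounded (hasSum_geometric_two.mul_left (1 / 1000000)) (tail hx)).trans_eq
      (by norm_num)

end Pool.Agent.MP_cb5fda_co.AA
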