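import Pool.Agent.MP_cb5fda_co.AA.Spec

/-! Orthogonality of the characters on the set of graphs, and two pointwise bounds. -/

noncomputable section
open Finset Complex Metric Filter
open scoped Classical

namespace Pool.Agent.MP_cb5fda_co.AA

namespace PV

variable {n : ℕ}

theorem mem_ed {G : SimpleGraph (Fin n)} {e : Sym2 (Fin n)} : e ∈ ed G ↔ e ∈ G.edgeSet := by
  simp [ed]

theorem ed_sub (G : SimpleGraph (Fin n)) : ed G ⊆ ed (⊤ : SimpleGraph (Fin n)) := fun _ h =>
  mem_ed.2 (SimpleGraph.edgeSet_mono le_top (mem_ed.1 h))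

theorem ed_inj {G H : SimpleGraph (Fin n)} (h : ed G = ed H) : G = H :=
  SimpleGraph.edgeSet_injective (Set.ext fun e => by rw [← mem_ed, h, mem_ed])

theorem card_top : (ed (⊤ : SimpleGraph (Fin n))).card = n.choose 2 := by
  have : ed (⊤ : SimpleGraph (Fin n)) = (⊤ : SimpleGraph (Fin n)).edgeFinset :=
    Finset.ext fun e => by rw [mem_ed, SimpleGraph.mem_edgeFinset]
  rw [this, SimpleGraph.card_edgeFinset_top_eq_card_choose_two, Fintype.card_fin]

theorem fac (a b : Sym2 (Fin n) → ℝ) :
    ∑ G : SimpleGraph (Fin n), ∏ e ∈ ed (⊤ : SimpleGraph (Fin n)),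
      (if e ∈ G.edgeSet then a e else b e) = ∏ e ∈ ed (⊤ : SimpleGraph (Fin n)), (a e + b e) := by
  rw [prod_add]
  refine sum_bij (fun G _ => ed G) (fun G _ => mem_powerset.2 (ed_sub G))
    (fun G _ H _ h => ed_inj h) (fun A hA => ⟨SimpleGraph.fromEdgeSet A, mem_univ _, ?_⟩)
    fun G _ => ?_
  · ext e
    rw [mem_ed, SimpleGraph.edgeSet_fromEdgeSet, Set.mem_sdiff, mem_coe, and_iff_left_iff_imp]
    exact fun h => SimpleGraph.not_isDiag_of_mem_edgeSet _ (mem_ed.1 (mem_powerset.1 hA h))
  · rw [prod_ite]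
    congr 2
    · ext e
      rw [mem_filter, ← mem_ed, and_iff_right_iff_imp]
      exact fun h => ed_sub G h
    · ext e
      rw [mem_filter, Finset.mem_sdiff, mem_ed (G := G)]

theorem orth {A B : Finset (Sym2 (Fin n))} (hA : A ⊆ ed (⊤ : SimpleGraph (Fin n)))
    (hB : B ⊆ ed (⊤ : SimpleGraph (Fin n))) :
    ∑ G : SimpleGraph (Fin n), (∏ e ∈ A, xi G e) * ∏ e ∈ B, xi G e =
      if A = B then 2 ^ (n.choose 2) else 0 := by
  have e1 : ∀ G : SimpleGraph (Fin n), (∏ e ∈ A, xi G e) * ∏ e ∈ B, xi G e =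
      ∏ e ∈ ed (⊤ : SimpleGraph (Fin n)), (if e ∈ G.edgeSet then
        (if e ∈ A then (-1 : ℝ) else 1) * (if e ∈ B then -1 else 1) else 1) := by
    intro G
    rw [← inter_eq_right.2 hA, ← inter_eq_right.2 hB, ← prod_ite_mem, ← prod_ite_mem,
      ← prod_mul_distrib, inter_eq_right.2 hA, inter_eq_right.2 hB]
    refine prod_congr rfl fun e _ => ?_
    unfold xi
    split_ifs <;> norm_num
  simp only [e1, fac]
  split_ifs with h
  · rw [← card_top, ← prod_const, h]
    exact prod_congr rfl fun e _ => by split_ifs <;> norm_num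
  · by_contra k
    refine h (Finset.ext fun e => ?_)
    by_contra ne
    by_cases h1 : e ∈ A <;> by_cases h2 : e ∈ B
    · exact ne (iff_of_true h1 h2)
    · exact k (prod_eq_zero (hA h1) (by simp [h1, h2]))
    · exact k (prod_eq_zero (hB h2) (by simp [h1, h2]))
    · exact ne (iff_of_false h1 h2)

theorem exp_le {x : ℝ} (h : -(1 / 2) ≤ x) : Real.exp (x - x ^ 2) ≤ 1 + x := by
  have h0 := Real.exp_pos (x - x ^ 2)
  have h1 : Real.exp (x - x ^ 2) * Real.exp (-(x - x ^ 2)) = 1 := by
    rw [← Real.exp_add, add_neg_cancel, Real.exp_zero]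
  have h2 : 1 ≤ (1 + x) * Real.exp (-(x - x ^ 2)) := by
    rcases le_total 0 x with k | k
    · have := mul_le_mul_of_nonneg_left (Real.add_one_le_exp (-(x - x ^ 2)))
        (by linarith : 0 ≤ 1 + x)
      have := pow_nonneg k 3
      linarith
    · have := mul_le_mul_of_nonneg_left (Real.quadratic_le_exp_of_nonneg
        (x := -(x - x ^ 2)) (by nlinarith)) (by linarith : 0 ≤ 1 + x)
      have k2 : 0 ≤ 1 + x - x ^ 2 + x ^ 3 := by nlinarith
      have := mul_nonneg (sq_nonneg x) k2
      linarith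
  nlinarith

end PV

theorem pvS : PVStmt := by
  intro n
  refine ⟨?_, fun a => ?_, ?_⟩
  · have := PV.orth (n := n) (empty_subset _) (empty_subset _)
    simp only [prod_empty, mul_one, sum_const, card_univ, nsmul_eq_mul, if_true] at this
    exact_mod_cast this
  · have e1 : ∀ H H' : SimpleGraph (Fin n), ∑ G : SimpleGraph (Fin n),
        (chi H G : ℂ) * (chi H' G : ℂ) = if H = H' then 2 ^ (n.choose 2) else 0 := by
      intro H H'
      have := congrArg ((↑) : ℝ → ℂ) (PV.orth (PV.ed_sub H) (PV.ed_sub H'))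
      rw [ofReal_sum] at this
      simp only [ofReal_mul] at this
      refine this.trans ?_
      by_cases h : H = H'
      · simp [h]
      · rw [if_neg h, if_neg fun k => h (PV.ed_inj k), ofReal_zero]
    apply ofReal_injective
    simp only [ofReal_sum, ofReal_mul, ofReal_pow, ← mul_conj', map_sum, map_mul, conj_ofReal,
      sum_mul_sum, ofReal_ofNat]
    rw [sum_comm, mul_sum]
    refine sum_congr rfl fun H _ => ?_
    rw [sum_comm, sum_congr rfl (g := fun H' => if H = H' then
      2 ^ (n.choose 2) * (a H * (starRingEnd ℂ) (a H')) else 0) fun H' _ => ?_, sum_ite_eq,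
      if_pos (mem_univ _)]
    rw [← ite_zero_mul, ← e1, sum_mul]
    exact sum_congr rfl fun G _ => by ring
  · simp only [XX, sq, sum_mul_sum]
    rw [sum_comm, ← PV.card_top, mul_comm, ← nsmul_eq_mul, ← sum_const, PV.card_top]
    refine sum_congr rfl fun e he => ?_
    rw [sum_comm, sum_congr rfl (g := fun e' => if e = e' then (2 : ℝ) ^ (n.choose 2) else 0)
      fun e' he' => ?_, sum_ite_eq, if_pos he]
    simpa using PV.orth (singleton_subset_iff.2 he) (singleton_subset_iff.2 he')

theorem prS : PRStmt := by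
  intro n G
  refine ⟨fun κ hκ => ?_, ?_⟩
  · have e1 : ∀ e, Real.exp (κ.re * xi G e - ‖κ‖ ^ 2) ≤ ‖1 + κ * (xi G e : ℂ)‖ := by
      intro e
      have h1 : |κ.re * xi G e| ≤ ‖κ‖ := by
        rw [abs_mul]
        unfold xi
        split_ifs <;> simpa using abs_re_le_norm κ
      have h2 := sq_le_sq' (abs_le.1 h1).1 (abs_le.1 h1).2
      refine le_trans (Real.exp_le_exp.2 (sub_le_sub_left h2 _))
        ((PV.exp_le (by linarith [(abs_le.1 h1).1])).trans ?_)
      simpa using re_le_norm (1 + κ * (xi G e : ℂ))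
    rw [YY, norm_prod]
    refine le_trans ?_ (prod_le_prod (fun e _ => (Real.exp_pos _).le) fun e _ => e1 e)
    rw [← Real.exp_sum, sum_sub_distrib, ← mul_sum, sum_const, PV.card_top, nsmul_eq_mul]
    refine Real.exp_le_exp.2 ?_
    have h1 : |κ.re * XX G| ≤ ‖κ‖ * |XX G| := by
      rw [abs_mul]
      exact mul_le_mul_of_nonneg_right (abs_re_le_norm κ) (abs_nonneg _)
    have h2 := (abs_le.1 h1).1
    rw [XX] at h2 ⊢
    linarith
  · have e1 : (n.choose 2 : ℝ) - XX G = 2 * (G.edgeFinset.card : ℝ) := by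
      have : (ed (⊤ : SimpleGraph (Fin n))).filter (fun e => e ∈ G.edgeSet) = G.edgeFinset :=
        Finset.ext fun e => by
          rw [mem_filter, SimpleGraph.mem_edgeFinset, and_iff_right_iff_imp]
          exact fun h => PV.ed_sub G (PV.mem_ed.2 h)
      rw [← this, ← PV.card_top, XX, card_filter, card_eq_sum_ones, Nat.cast_sum, Nat.cast_sum,
        mul_sum, ← sum_sub_distrib]
      refine sum_congr rfl fun e _ => ?_
      unfold xi
      split_ifs <;> norm_num
    have e2 := sum_le_card_nsmul univ _ _ fun v _ => G.degree_le_maxDegree v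
    rw [G.sum_degrees_eq_twice_card_edges, card_univ, Fintype.card_fin, smul_eq_mul] at e2
    rw [e1]
    exact_mod_cast e2

end Pool.Agent.MP_cb5fda_co.AA
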