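import Pool.Agent.MP_cb5fda_co.AA.Spec

/-! Soft facts about the contour data. -/

noncomputable section
open Finset Complex Metric Filter Topology
open scoped Classical

namespace Pool.Agent.MP_cb5fda_co.AA

namespace SO

theorem aFF (hF : FBStmt) (x : ℂ) : AnalyticAt ℂ FF x :=
  Differentiable.analyticAt (fun y => (hF.1 y).differentiableAt) x

theorem freq {z : ℂ} (hz : z ∈ closedBall (0 : ℂ) 1) :
    ∃ᶠ w in 𝓝[≠] z, w ∈ closedBall (0 : ℂ) 1 := by
  have hn : (closedBall (0 : ℂ) 1).Nontrivial :=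
    ⟨0, by simp, 1, by simp, zero_ne_one⟩
  have hp := (convex_closedBall (0 : ℂ) 1).isPreconnected.preperfect_of_nontrivial hn
  exact accPt_iff_frequently_nhdsNE.1 (hp z hz)

variable (D : CD)

theorem agam : AnalyticOnNhd ℂ D.gam (closedBall 0 1) :=
  fun z hz => analyticAt_id.mul (D.hR z hz)

theorem aL1 : AnalyticOnNhd ℂ D.L1 (closedBall 0 1) := fun z hz =>
  analyticAt_const.add ((analyticAt_id.mul (D.hR z hz).deriv).div (D.hR z hz) (D.R_ne z hz))

theorem aL2 : AnalyticOnNhd ℂ D.L2 (closedBall 0 1) := fun z hz =>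
  analyticAt_id.mul (aL1 D z hz).deriv

theorem F_ne (z : ℂ) (hz : z ∈ closedBall (0 : ℂ) 1) : FF (D.gam z) ≠ 0 := by
  have h := D.expG z hz
  unfold CD.gam
  rw [← h]
  exact exp_ne_zero _

theorem dG_ne (z : ℂ) (hz : z ∈ closedBall (0 : ℂ) 1) : deriv D.G z ≠ 0 := by
  intro h
  have h1 := D.dG_re z hz
  rw [h] at h1
  simp at h1

theorem prod_ne (z : ℂ) (hz : z ∈ closedBall (0 : ℂ) 1) :
    FF (D.gam z / 2) * (D.R z * D.L1 z) ≠ 0 := by
  have h := D.dG z hz
  have h2 : deriv D.G z * FF (D.gam z) ≠ 0 := mul_ne_zero (dG_ne D z hz) (F_ne D z hz)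
  unfold CD.gam at h2 ⊢
  unfold CD.L1
  rw [← h]
  exact h2

theorem F2_ne (z : ℂ) (hz : z ∈ closedBall (0 : ℂ) 1) : FF (D.gam z / 2) ≠ 0 :=
  left_ne_zero_of_mul (prod_ne D z hz)

theorem L1_ne (z : ℂ) (hz : z ∈ closedBall (0 : ℂ) 1) : D.L1 z ≠ 0 :=
  right_ne_zero_of_mul (right_ne_zero_of_mul (prod_ne D z hz))

theorem aphi : AnalyticOnNhd ℂ D.phi (closedBall 0 1) := fun z hz =>
  (aL1 D z hz).div (D.hG z hz).deriv (dG_ne D z hz)

theorem aF1 (hF : FBStmt) (z : ℂ) (hz : z ∈ closedBall (0 : ℂ) 1) :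
    AnalyticAt ℂ (fun w => FF (D.gam w)) z :=
  (aFF hF _).comp (agam D z hz)

theorem aFc (hF : FBStmt) (c z : ℂ) (hz : z ∈ closedBall (0 : ℂ) 1) :
    AnalyticAt ℂ (fun w => FF (D.gam w / c)) z :=
  (aFF hF _).comp (f := fun w => D.gam w / c) ((agam D z hz).div_const (c := c))

theorem aom (hF : FBStmt) : AnalyticOnNhd ℂ D.om (closedBall 0 1) := fun z hz =>
  ((aL2 D z hz).div (aL1 D z hz) (L1_ne D z hz)).add ((aL1 D z hz).mul
    ((analyticAt_const.add (((agam D z hz).mul ((aFc D hF 4 z hz).div_const (c := 2))).div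
      (aFc D hF 2 z hz) (F2_ne D z hz))).sub
      (((agam D z hz).mul (aFc D hF 2 z hz)).div (aF1 D hF z hz) (F_ne D z hz))))

theorem aal (hF : FBStmt) : AnalyticOnNhd ℂ D.al (closedBall 0 1) := fun z hz =>
  (((aL1 D z hz).mul (aom D hF z hz)).sub (aL2 D z hz)).div_const (c := 2)

theorem akap (hF : FBStmt) : AnalyticOnNhd ℂ D.kap (closedBall 0 1) := fun z hz =>
  ((agam D z hz).mul (aFc D hF 4 z hz)).div (analyticAt_const.mul (aFc D hF 2 z hz))
    (mul_ne_zero two_ne_zero (F2_ne D z hz))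

theorem dgam (z : ℂ) (hz : z ∈ closedBall (0 : ℂ) 1) :
    HasDerivAt D.gam (D.R z * D.L1 z) z := by
  have h := (hasDerivAt_id z).mul (D.hR z hz).differentiableAt.hasDerivAt
  have hR := D.R_ne z hz
  have e : D.R z * D.L1 z = 1 * D.R z + id z * deriv D.R z := by
    unfold CD.L1 LL1
    simp only [id]
    field_simp
  rw [e]
  exact h

theorem dG_eq (z : ℂ) (hz : z ∈ closedBall (0 : ℂ) 1) :
    deriv D.G z = FF (D.gam z / 2) * (D.R z * D.L1 z) / FF (D.gam z) := by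
  rw [eq_div_iff (F_ne D z hz)]
  exact D.dG z hz

theorem dG1 (hF : FBStmt) (z : ℂ) (hz : z ∈ closedBall (0 : ℂ) 1) :
    HasDerivAt D.G1 (deriv D.G z * D.om z) z := by
  have a1 : AnalyticAt ℂ D.G1 z := analyticAt_id.mul (D.hG z hz).deriv
  have a2 : AnalyticAt ℂ (fun w => FF (D.gam w / 2) * (D.gam w * D.L1 w) / FF (D.gam w)) z :=
    ((aFc D hF 2 z hz).mul ((agam D z hz).mul (aL1 D z hz))).div (aF1 D hF z hz) (F_ne D z hz)
  have ev : ∀ᶠ w in 𝓝 z, D.G1 w = FF (D.gam w / 2) * (D.gam w * D.L1 w) / FF (D.gam w) := by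
    refine (a1.frequently_eq_iff_eventually_eq a2).1 ((freq hz).mono ?_)
    intro w hw
    unfold CD.G1
    rw [dG_eq D w hw]
    unfold CD.gam
    ring
  have g := dgam D z hz
  have hA : HasDerivAt (fun w => FF (D.gam w / 2))
      (FF (D.gam z / 2 / 2) * (D.R z * D.L1 z / 2)) z :=
    HasDerivAt.comp (h₂ := FF) (h := fun w => D.gam w / 2) z (hF.1 (D.gam z / 2)) (g.div_const 2)
  have hC : HasDerivAt (fun w => FF (D.gam w)) (FF (D.gam z / 2) * (D.R z * D.L1 z)) z :=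
    (hF.1 (D.gam z)).comp z g
  have hL : HasDerivAt D.L1 (deriv (LL1 D.R) z) z := (aL1 D z hz).differentiableAt.hasDerivAt
  have h := (hA.fun_mul (g.fun_mul hL)).fun_div hC (F_ne D z hz)
  have e4 : D.gam z / 2 / 2 = D.gam z / 4 := by ring
  rw [e4] at h
  refine (h.congr_of_eventuallyEq ev).congr_deriv ?_
  have n1 := F_ne D z hz
  have n2 := F2_ne D z hz
  have n3 := L1_ne D z hz
  rw [dG_eq D z hz]
  unfold CD.om CD.L2
  have eg : D.gam z = z * D.R z := rfl
  generalize FF (D.gam z) = C at *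
  generalize FF (D.gam z / 2) = A at *
  generalize FF (D.gam z / 4) = B at *
  generalize D.L1 z = L at *
  generalize deriv (LL1 D.R) z = M at *
  rw [eg]
  field_simp
  ring

theorem kap_eq (z : ℂ) (hz : z ∈ closedBall (0 : ℂ) 1) (h0 : z ≠ 0) :
    D.kap z = D.tau z * (FF (D.gam z / 4) / (2 * FF (D.gam z))) * D.gam z ^ 2 := by
  have n1 := F_ne D z hz
  have n2 := F2_ne D z hz
  have n3 := L1_ne D z hz
  have n4 := D.R_ne z hz
  unfold CD.kap CD.tau CD.phi
  rw [dG_eq D z hz]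
  have eg : D.gam z = z * D.R z := rfl
  generalize FF (D.gam z) = C at *
  generalize FF (D.gam z / 2) = A at *
  generalize FF (D.gam z / 4) = B at *
  generalize D.L1 z = L at *
  rw [eg]
  field_simp

theorem adslope : AnalyticOnNhd ℂ (dslope D.G 0) (closedBall 0 1) := by
  intro z hz
  have ho : IsOpen {w | AnalyticAt ℂ D.G w} := isOpen_analyticAt ℂ D.G
  have h0 : {w | AnalyticAt ℂ D.G w} ∈ 𝓝 (0 : ℂ) := ho.mem_nhds (D.hG 0 (by simp))
  have hd : DifferentiableOn ℂ D.G {w | AnalyticAt ℂ D.G w} :=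
    fun w hw => (AnalyticAt.differentiableAt hw).differentiableWithinAt
  exact ((Complex.differentiableOn_dslope h0).2 hd).analyticAt (ho.mem_nhds (D.hG z hz))

theorem exE : ∃ E : ℂ → ℂ, AnalyticOnNhd ℂ E (closedBall 0 1) ∧
    ∀ z ∈ closedBall (0 : ℂ) 1, z ≠ 0 → E z = D.tau z * D.G z := by
  refine ⟨fun z => D.phi z * dslope D.G 0 z, fun z hz => (aphi D z hz).mul (adslope D z hz), ?_⟩
  intro z _ h0
  show D.phi z * dslope D.G 0 z = _
  rw [dslope_of_ne _ h0, slope_def_field, D.G0]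
  unfold CD.tau
  simp only [sub_zero]
  ring

theorem ahom (n : ℕ) (p : Polynomial ℂ) : AnalyticOnNhd ℂ (D.hom n p) (closedBall 0 1) := by
  intro z hz
  unfold CD.hom
  refine Finset.analyticAt_fun_sum _ fun j _ => ?_
  exact (analyticAt_const.mul
    (((analyticAt_const.mul (D.hR z hz)).mul (aphi D z hz)).pow j)).mul ((agam D z hz).pow _)

theorem hom_eq (n : ℕ) (p : Polynomial ℂ) (hp : p.natDegree ≤ n) (z : ℂ) (h0 : z ≠ 0) :
    D.hom n p z = D.gam z ^ n * p.eval ((n : ℂ) * D.tau z) := by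
  rw [Polynomial.eval_eq_sum_range' (Nat.lt_succ_of_le hp), Finset.mul_sum]
  unfold CD.hom
  refine Finset.sum_congr rfl fun j hj => ?_
  have hj' : j ≤ n := Nat.lt_succ_iff.1 (Finset.mem_range.1 hj)
  have e1 : D.gam z ^ n = D.gam z ^ (n - j) * D.gam z ^ j := by
    rw [← pow_add, Nat.sub_add_cancel hj']
  have e2 : (n : ℂ) * D.R z * D.phi z = D.gam z * ((n : ℂ) * D.tau z) := by
    unfold CD.gam CD.tau
    field_simp
  rw [e1, e2, mul_pow]
  ring

end SO

theorem soS (hF : FBStmt) : SOStmt := fun D =>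
  { aL1 := SO.aL1 D
    aL2 := SO.aL2 D
    aphi := SO.aphi D
    aom := SO.aom D hF
    aal := SO.aal D hF
    akap := SO.akap D hF
    agam := SO.agam D
    F_ne := SO.F_ne D
    F2_ne := SO.F2_ne D
    L1_ne := SO.L1_ne D
    dgam := SO.dgam D
    dG1 := SO.dG1 D hF
    kap_eq := SO.kap_eq D
    exE := SO.exE D
    ahom := SO.ahom D
    hom_eq := fun n p hp z h0 _ => SO.hom_eq D n p hp z h0 }

end Pool.Agent.MP_cb5fda_co.AA
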