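import Pool.Agent.MP_cb5fda_co.AA.Spec

/-! The Walsh expansion of the number of proper colourings. -/

noncomputable section
open Finset Complex Metric Filter
open scoped Classical

namespace Pool.Agent.MP_cb5fda_co.AA

namespace WA

/-- The graph of the monochromatic pairs. -/
def MM {n k : ℕ} (σ : Fin n → Fin k) : SimpleGraph (Fin n) where
  Adj u v := u ≠ v ∧ σ u = σ v
  symm := ⟨fun _ _ h => ⟨h.1.symm, h.2.symm⟩⟩
  loopless := ⟨fun _ h => h.1 rfl⟩

theorem mem_ed {n : ℕ} (H : SimpleGraph (Fin n)) (e : Sym2 (Fin n)) :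
    e ∈ ed H ↔ e ∈ H.edgeSet := by
  simp [ed]

theorem le_MM {n k : ℕ} (σ : Fin n → Fin k) (H : SimpleGraph (Fin n)) :
    H ≤ MM σ ↔ ∀ u v, H.Adj u v → σ u = σ v :=
  ⟨fun h _ _ huv => (h huv).2, fun h u v huv => ⟨huv.ne, h u v huv⟩⟩

theorem card_ed_MM {n k : ℕ} (σ : Fin n → Fin k) :
    (ed (MM σ)).card = ∑ c : Fin k, (univ.filter (fun v => σ v = c)).card.choose 2 := by
  have h1 : ed (MM σ) = univ.biUnion (fun c : Fin k =>
      (univ.filter (fun v => σ v = c)).offDiag.image (fun p => s(p.1, p.2))) := by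
    ext e
    induction e using Sym2.ind with
    | _ u v =>
      rw [mem_ed, SimpleGraph.mem_edgeSet]
      simp only [mem_biUnion, mem_univ, true_and, mem_image, mem_offDiag, mem_filter, Prod.exists]
      constructor
      · rintro ⟨h1, h2⟩
        exact ⟨σ v, u, v, ⟨h2, rfl, h1⟩, rfl⟩
      · rintro ⟨c, a, b, ⟨ha, hb, hab⟩, he⟩
        rcases Sym2.eq_iff.1 he with ⟨rfl, rfl⟩ | ⟨rfl, rfl⟩
        · exact ⟨hab, ha.trans hb.symm⟩
        · exact ⟨hab.symm, hb.trans ha.symm⟩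
  rw [h1, card_biUnion]
  · refine sum_congr rfl fun c _ => ?_
    exact Sym2.card_image_offDiag _
  · intro c _ d _ hcd
    refine disjoint_left.2 fun e he1 he2 => hcd ?_
    simp only [mem_image, mem_offDiag, mem_filter, mem_univ, true_and, Prod.exists] at he1 he2
    obtain ⟨a, b, ⟨ha, hb, _⟩, rfl⟩ := he1
    obtain ⟨a', b', ⟨ha', hb', _⟩, he⟩ := he2
    rcases Sym2.eq_iff.1 he with ⟨rfl, rfl⟩ | ⟨rfl, rfl⟩
    · exact ha.symm.trans ha'
    · exact ha.symm.trans hb'

theorem ind_eq {n k : ℕ} (G : SimpleGraph (Fin n)) (σ : Fin n → Fin k) :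
    (if ∀ u v, G.Adj u v → σ u ≠ σ v then (1 : ℂ) else 0) =
      ∏ e ∈ ed (MM σ), (1 / 2 : ℂ) * (1 + (xi G e : ℂ)) := by
  split_ifs with h
  · refine (prod_eq_one fun e he => ?_).symm
    induction e using Sym2.ind with
    | _ u v =>
      rw [mem_ed, SimpleGraph.mem_edgeSet] at he
      have : ¬ s(u, v) ∈ G.edgeSet := fun hG => h u v hG he.2
      rw [xi, if_neg this]
      norm_num
  · push Not at h
    obtain ⟨u, v, huv, hσ⟩ := h
    refine (prod_eq_zero (i := s(u, v)) ?_ ?_).symm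
    · rw [mem_ed, SimpleGraph.mem_edgeSet]
      exact ⟨huv.ne, hσ⟩
    · have : s(u, v) ∈ G.edgeSet := huv
      rw [xi, if_pos this]
      norm_num

theorem sum_powerset_ed {n : ℕ} (M : SimpleGraph (Fin n)) (f : Finset (Sym2 (Fin n)) → ℂ) :
    ∑ t ∈ (ed M).powerset, f t = ∑ H ∈ univ.filter (fun H => H ≤ M), f (ed H) := by
  symm
  refine sum_bij (fun H _ => ed H) ?_ ?_ ?_ (fun _ _ => rfl)
  · intro H hH
    rw [mem_filter] at hH
    refine mem_powerset.2 fun e he => ?_
    rw [mem_ed] at he ⊢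
    exact SimpleGraph.edgeSet_mono hH.2 he
  · intro H _ H' _ h
    refine SimpleGraph.edgeSet_injective ?_
    ext e
    rw [← mem_ed, ← mem_ed, h]
  · intro t ht
    have hsub := mem_powerset.1 ht
    have hed : (SimpleGraph.fromEdgeSet (t : Set (Sym2 (Fin n)))).edgeSet = t := by
      rw [SimpleGraph.edgeSet_fromEdgeSet]
      ext e
      constructor
      · exact fun h => h.1
      · intro h
        exact ⟨h, M.not_isDiag_of_mem_edgeSet ((mem_ed M e).1 (hsub h))⟩
    refine ⟨SimpleGraph.fromEdgeSet (t : Set (Sym2 (Fin n))), ?_, ?_⟩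
    · rw [mem_filter]
      refine ⟨mem_univ _, SimpleGraph.edgeSet_subset_edgeSet.1 ?_⟩
      rw [hed]
      exact fun e he => (mem_ed M e).1 (hsub he)
    · ext e
      rw [mem_ed, hed, mem_coe]

theorem card_col {n k : ℕ} (G : SimpleGraph (Fin n)) :
    (Nat.card (G.Coloring (Fin k)) : ℂ) =
      ∑ σ : Fin n → Fin k, if ∀ u v, G.Adj u v → σ u ≠ σ v then (1 : ℂ) else 0 := by
  let E : G.Coloring (Fin k) ≃ {σ : Fin n → Fin k // ∀ u v, G.Adj u v → σ u ≠ σ v} :=
    { toFun := fun C => ⟨C, fun _ _ h => C.valid h⟩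
      invFun := fun σ => SimpleGraph.Coloring.mk σ.1 (fun h => σ.2 _ _ h)
      left_inv := fun _ => rfl
      right_inv := fun _ => rfl }
  rw [Nat.card_congr E, Nat.card_eq_fintype_card, Fintype.card_subtype, sum_boole]

end WA

open WA in
theorem waS : WAStmt := by
  intro n G k
  rw [card_col]
  have h1 : ∀ σ : Fin n → Fin k, (if ∀ u v, G.Adj u v → σ u ≠ σ v then (1 : ℂ) else 0) =
      ∑ H : SimpleGraph (Fin n), if ∀ u v, H.Adj u v → σ u = σ v then
        (∏ c : Fin k, (1 / 2 : ℂ) ^ ((univ.filter (fun v => σ v = c)).card.choose 2)) *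
          (chi H G : ℂ) else 0 := by
    intro σ
    rw [ind_eq, prod_mul_distrib, prod_const, card_ed_MM, prod_one_add, sum_powerset_ed,
      ← prod_pow_eq_pow_sum, mul_sum, sum_filter]
    refine sum_congr rfl fun H _ => ?_
    by_cases hH : ∀ u v, H.Adj u v → σ u = σ v
    · rw [if_pos hH, if_pos ((le_MM σ H).2 hH), chi, ofReal_prod]
    · rw [if_neg hH, if_neg fun h => hH ((le_MM σ H).1 h)]
  rw [sum_congr rfl fun σ _ => h1 σ, sum_comm]
  refine sum_congr rfl fun H _ => ?_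
  rw [c0, sum_mul, sum_filter]

end Pool.Agent.MP_cb5fda_co.AA
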