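import Pool.Agent.MP_cb5fda_co.AA.Spec

/-! Sums over all graphs as sums over sets of edges. -/

noncomputable section
open Finset Complex Metric Filter
open scoped Classical

namespace Pool.Agent.MP_cb5fda_co.AA

namespace WY

variable {n : ℕ}

theorem mem_ed {H : SimpleGraph (Fin n)} {e : Sym2 (Fin n)} : e ∈ ed H ↔ e ∈ H.edgeSet := by
  simp [ed]

theorem sum_ed {M : Type} [AddCommMonoid M] (f : Finset (Sym2 (Fin n)) → M) :
    ∑ H : SimpleGraph (Fin n), f (ed H) = ∑ T ∈ (ed (⊤ : SimpleGraph (Fin n))).powerset, f T := by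
  refine sum_nbij' ed (fun T => SimpleGraph.fromEdgeSet (T : Set (Sym2 (Fin n))))
    (fun H _ => ?_) (fun _ _ => mem_univ _) (fun H _ => ?_) (fun T hT => ?_) fun _ _ => rfl
  · exact mem_powerset.2 fun e he => mem_ed.2 (SimpleGraph.edgeSet_mono le_top (mem_ed.1 he))
  · have : ((ed H : Finset _) : Set (Sym2 (Fin n))) = H.edgeSet := Set.ext fun _ => mem_ed
    rw [this, SimpleGraph.fromEdgeSet_edgeSet]
  · ext e
    rw [mem_ed, SimpleGraph.edgeSet_fromEdgeSet]
    refine ⟨fun h => h.1, fun h => ⟨h, ?_⟩⟩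
    exact SimpleGraph.not_isDiag_of_mem_edgeSet _ (mem_ed.1 (mem_powerset.1 hT h))

theorem card_top : (ed (⊤ : SimpleGraph (Fin n))).card = n.choose 2 := by
  have h := SimpleGraph.card_edgeFinset_top_eq_card_choose_two (V := Fin n)
  rw [Fintype.card_fin] at h
  rw [← h]
  congr 1
  ext e
  rw [mem_ed, SimpleGraph.mem_edgeFinset]

theorem sum_pow {α : Type} (E : Finset α) (t : ℝ) :
    ∑ T ∈ E.powerset, t ^ T.card = (1 + t) ^ E.card := by
  rw [← prod_const, prod_one_add]
  exact sum_congr rfl fun T _ => (prod_const _).symm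

theorem sum_sup {α : Type} [DecidableEq α] (E S : Finset α) {t : ℝ} (ht : 0 ≤ t) :
    ∑ T ∈ E.powerset, (if S ⊆ T then t ^ T.card else 0) ≤ t ^ S.card * (1 + t) ^ E.card := by
  rw [← sum_filter, ← sum_pow, sum_congr rfl (g := fun T => t ^ S.card * t ^ (T \ S).card)
    fun T hT => by rw [← pow_add, add_comm, card_sdiff_add_card_eq_card (mem_filter.1 hT).2],
    ← mul_sum]
  refine mul_le_mul_of_nonneg_left ?_ (pow_nonneg ht _)
  rw [← sum_image (g := fun T => T \ S) (f := fun T => t ^ T.card) fun T hT T' hT' e => ?_]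
  · refine sum_le_sum_of_subset_of_nonneg (fun T hT => ?_) fun _ _ _ => pow_nonneg ht _
    obtain ⟨T', hT', rfl⟩ := mem_image.1 hT
    exact mem_powerset.2 (sdiff_subset.trans (mem_powerset.1 (mem_filter.1 hT').1))
  · rw [← sdiff_union_of_subset (mem_filter.1 hT).2, ← sdiff_union_of_subset (mem_filter.1 hT').2]
    exact congrArg (· ∪ S) e

theorem one (x : Fin n × Fin n × Fin n) {t : ℝ} (ht : 0 ≤ t) :
    ∑ H : SimpleGraph (Fin n),
      (if x.2.1 ≠ x.2.2 ∧ H.Adj x.1 x.2.1 ∧ H.Adj x.1 x.2.2 then t ^ (ed H).card else 0) ≤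
      t ^ 2 * (1 + t) ^ n.choose 2 := by
  obtain ⟨u, v, w⟩ := x
  by_cases h : v = w
  · simp only [h, ne_eq, not_true, false_and, if_false, sum_const_zero]
    positivity
  · have h1 := sum_sup (ed (⊤ : SimpleGraph (Fin n))) {s(u, v), s(u, w)} ht
    rw [card_top, card_pair fun e => h (Sym2.congr_right.1 e),
      ← sum_ed fun T => if {s(u, v), s(u, w)} ⊆ T then t ^ T.card else 0] at h1
    refine le_trans (le_of_eq (sum_congr rfl fun H _ => ?_)) h1
    simp [h, insert_subset_iff, mem_ed]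

end WY

open WY in
theorem wyS : WYStmt := by
  refine ⟨fun n G κ => ?_, fun n t => ?_, fun n t ht => ?_⟩
  · rw [YY, prod_one_add, ← sum_ed fun T => ∏ e ∈ T, κ * (xi G e : ℂ)]
    refine sum_congr rfl fun H _ => ?_
    rw [prod_mul_distrib, prod_const, chi, ofReal_prod]
  · rw [sum_ed fun T => t ^ T.card, sum_pow, card_top]
  · have h := sum_le_card_nsmul univ _ _ fun (x : Fin n × Fin n × Fin n) _ => one x ht
    rw [sum_comm, card_univ, Fintype.card_prod, Fintype.card_prod, Fintype.card_fin,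
      nsmul_eq_mul] at h
    rw [sum_filter]
    refine le_trans (sum_le_sum fun H _ => ?_) (h.trans (le_of_eq ?_))
    · have p : ∀ x : Fin n × Fin n × Fin n, 0 ≤
          if x.2.1 ≠ x.2.2 ∧ H.Adj x.1 x.2.1 ∧ H.Adj x.1 x.2.2 then t ^ (ed H).card else 0 :=
        fun x => by split_ifs <;> positivity
      split_ifs with c
      · obtain ⟨u, v, w, c⟩ := c
        exact le_trans (le_of_eq (if_pos c).symm) (single_le_sum (fun x _ => p x) (mem_univ (u, v, w)))
      · exact sum_nonneg fun x _ => p x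
    · push_cast
      ring

end Pool.Agent.MP_cb5fda_co.AA
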