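import Pool.Agent.MP_cb5fda_co.AA.Spec2
import Pool.Agent.MP_cb5fda_co.AA.FB
import Pool.Agent.MP_cb5fda_co.AA.SO
import Pool.Agent.MP_cb5fda_co.AA.CW
import Pool.Agent.MP_cb5fda_co.AA.WA
import Pool.Agent.MP_cb5fda_co.AA.WY
import Pool.Agent.MP_cb5fda_co.AA.C1
import Pool.Agent.MP_cb5fda_co.AA.C2
import Pool.Agent.MP_cb5fda_co.AA.PV

/-! Chromatic roots of almost all graphs: the analytic error term, small in mean square. -/

noncomputable section
open Finset Complex Metric Filter
open scoped Classical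

namespace Pool.Agent.MP_cb5fda_co.AA

namespace F1

theorem len_le (L : List ℕ) (h : ∀ s ∈ L, 2 ≤ s) : L.length ≤ L.sum := by
  induction L with
  | nil => simp
  | cons a L ih =>
    have h1 := h a (by simp)
    have h2 := ih (fun s hs => h s (by simp [hs]))
    simp only [List.length_cons, List.sum_cons]
    omega

theorem pad_len (n : ℕ) (L : List ℕ) (h : ∀ s ∈ L, 2 ≤ s) (hs : L.sum ≤ n) :
    (pad n L).length ≤ n := by
  have := len_le L h
  simp only [pad, List.length_append, List.length_replicate]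
  omega

theorem exP (n : ℕ) (L : List ℕ) (h : ∀ s ∈ L, 2 ≤ s) (hs : L.sum ≤ n) :
    ∃ p : Polynomial ℂ, p.natDegree ≤ n ∧ ∀ q, p.eval q = cw q (pad n L) := by
  obtain ⟨p, hp, he⟩ := cpS (pad n L)
  exact ⟨p, hp.trans (pad_len n L h hs), he⟩

/-- The chromatic polynomial in the Walsh expansion. -/
theorem exPG (n : ℕ) (G : SimpleGraph (Fin n)) :
    ∃ P : Polynomial ℂ, P.natDegree ≤ n ∧
      ∀ q, P.eval q = ∑ H : SimpleGraph (Fin n), cw q (pad n (ms H)) * (chi H G : ℂ) := by
  choose p hp he using fun H : SimpleGraph (Fin n) =>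
    exP n (ms H) (c2S n H).1 (c2S n H).2.1
  refine ⟨∑ H : SimpleGraph (Fin n), p H * Polynomial.C (chi H G : ℂ), ?_, fun q => ?_⟩
  · refine Polynomial.natDegree_sum_le_of_forall_le _ _ fun H _ => ?_
    exact (Polynomial.natDegree_mul_C_le _ _).trans (hp H)
  · rw [Polynomial.eval_finsetSum]
    refine Finset.sum_congr rfl fun H _ => ?_
    rw [Polynomial.eval_mul, Polynomial.eval_C, he]

theorem eqP {n : ℕ} {G : SimpleGraph (Fin n)} {P Q : Polynomial ℂ}
    (hP : ∀ k : ℕ, P.eval (k : ℂ) = (Nat.card (G.Coloring (Fin k)) : ℂ))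
    (hQ : ∀ q, Q.eval q = ∑ H : SimpleGraph (Fin n), cw q (pad n (ms H)) * (chi H G : ℂ)) :
    P = Q := by
  apply Polynomial.eq_of_infinite_eval_eq
  refine Set.Infinite.mono (s := Set.range (fun k : ℕ => (k : ℂ))) ?_
    (Set.infinite_range_of_injective Nat.cast_injective)
  rintro _ ⟨k, rfl⟩
  simp only [Set.mem_ofPred_eq]
  rw [hP, hQ, waS]
  refine Finset.sum_congr rfl fun H _ => ?_
  rw [c1S, cwS]

theorem aYY {n : ℕ} (G : SimpleGraph (Fin n)) {f : ℂ → ℂ} {s : Set ℂ}
    (hf : AnalyticOnNhd ℂ f s) : AnalyticOnNhd ℂ (fun z => YY G (f z)) s := by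
  unfold YY
  refine Finset.analyticOnNhd_fun_prod _ fun e _ => ?_
  exact analyticOnNhd_const.add (hf.mul analyticOnNhd_const)

end F1

theorem f1S : F1Stmt := by
  intro D h0 hz hl ε hε
  have S : D.Soft := soS fbS D
  filter_upwards [h0, hz, hl ε hε] with n h0 hz hl
  obtain ⟨p0, hp0, he0⟩ := F1.exP n [] (by simp) (by simp)
  choose PG hPG heG using fun G : SimpleGraph (Fin n) => F1.exPG n G
  have hne := h0 p0 hp0 he0
  have han : ∀ G : SimpleGraph (Fin n), AnalyticOnNhd ℂ
      (fun z => D.hom n (PG G) z / D.hom n p0 z - YY G (D.kap z / n)) (closedBall 0 1) := by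
    intro G
    refine ((S.ahom n (PG G)).div (S.ahom n p0) hne).sub (F1.aYY G ?_)
    exact fun z hz => (S.akap z hz).div_const
  refine ⟨fun G z => D.hom n (PG G) z / D.hom n p0 z - YY G (D.kap z / n), han, ?_, ?_⟩
  · have hc : ∀ G : SimpleGraph (Fin n), ContinuousOn
        (fun z => ‖D.hom n (PG G) z / D.hom n p0 z - YY G (D.kap z / n)‖ ^ 2) (sphere 0 1) :=
      fun G => (((han G).continuousOn.mono sphere_subset_closedBall).norm).pow 2
    rw [← Real.circleAverage_fun_sum
      (fun G _ => ContinuousOn.circleIntegrable zero_le_one (hc G))]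
    refine Real.circleAverage_mono_on_of_le_circle
      (ContinuousOn.circleIntegrable zero_le_one (continuousOn_finsetSum _ fun G _ => hc G))
      fun z hzs => ?_
    have hz1 : ‖z‖ = 1 := by simpa using hzs
    have hz0 : z ≠ 0 := by rintro rfl; simp at hz1
    have hzb : z ∈ closedBall (0 : ℂ) 1 := by simp [hz1]
    have hR := D.R_ne z hzb
    have hg : D.gam z ^ n ≠ 0 := pow_ne_zero _ (mul_ne_zero hz0 hR)
    have hk : ∀ G : SimpleGraph (Fin n),
        D.hom n (PG G) z / D.hom n p0 z - YY G (D.kap z / n) =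
          ∑ H : SimpleGraph (Fin n),
            (cw (n * D.tau z) (pad n (ms H)) / cw (n * D.tau z) (pad n []) -
              (D.kap z / n) ^ (ed H).card) * (chi H G : ℂ) := by
      intro G
      rw [S.hom_eq n (PG G) (hPG G) z hz0 hR, S.hom_eq n p0 hp0 z hz0 hR,
        mul_div_mul_left _ _ hg, heG, he0, wyS.1, Finset.sum_div, ← Finset.sum_sub_distrib]
      refine Finset.sum_congr rfl fun H _ => ?_
      ring
    simp only [hk]
    rw [(pvS n).2.1]
    exact mul_le_mul_of_nonneg_left (hl z hz1) (by positivity)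
  · intro G P hP z hzb hz0 hroot
    have hPe : P = PG G := F1.eqP hP (heG G)
    simp only
    rw [S.hom_eq n (PG G) (hPG G) z hz0 (D.R_ne z hzb), ← hPe, hroot]
    simp

end Pool.Agent.MP_cb5fda_co.AA
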