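import Pool.Agent.MP_cb5fda_co.AA.Spec2
import Pool.Agent.MP_cb5fda_co.AA.PV
import Pool.Agent.MP_cb5fda_co.AA.CV
import Pool.Agent.MP_cb5fda_co.AA.SO
import Pool.Agent.MP_cb5fda_co.AA.FB

/-! The last step: Chebyshev and Markov over all graphs. -/

noncomputable section
open Finset Complex Metric Filter
open scoped Classical

namespace Pool.Agent.MP_cb5fda_co.AA

namespace F2

lemma markov {Ω : Type} [Fintype Ω] (p : Ω → Prop) (f : Ω → ℝ) (h0 : ∀ x, 0 ≤ f x)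
    (h1 : ∀ x, ¬ p x → 1 ≤ f x) :
    (Fintype.card Ω : ℝ) - ∑ x, f x ≤ Nat.card {x // p x} := by
  rw [Nat.card_eq_fintype_card, Fintype.card_subtype, card_filter, sub_le_iff_le_add,
    ← card_univ, card_eq_sum_ones]
  push_cast
  rw [← sum_add_distrib]
  refine sum_le_sum fun x _ => ?_
  by_cases h : p x
  · rw [if_pos h]; linarith [h0 x]
  · rw [if_neg h]; linarith [h1 x h]

lemma avg_nonneg (f : ℂ → ℝ) (h : ∀ z, 0 ≤ f z) : 0 ≤ Real.circleAverage f 0 1 := by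
  rw [Real.circleAverage_def, smul_eq_mul]
  exact mul_nonneg (by positivity)
    (intervalIntegral.integral_nonneg (by positivity) fun _ _ => h _)

lemma choose_le (n : ℕ) : (n.choose 2 : ℝ) ≤ (n : ℝ) ^ 2 / 2 := by
  rw [Nat.cast_choose_two]
  have : (0 : ℝ) ≤ n := Nat.cast_nonneg n
  nlinarith

lemma yy_low {n : ℕ} (G : SimpleGraph (Fin n)) {K M : ℝ} (hn : (0 : ℝ) < n) (hK : 2 * K ≤ n)
    (hX : |XX G| ≤ M * n) {κ : ℂ} (hκ : ‖κ‖ ≤ K) :
    Real.exp (-(K * M + K ^ 2)) ≤ ‖YY G (κ / n)‖ := by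
  have hK0 : 0 ≤ K := (norm_nonneg _).trans hκ
  have h1 : ‖κ / n‖ ≤ K / n := by
    rw [norm_div, Complex.norm_natCast]
    exact div_le_div_of_nonneg_right hκ hn.le
  have h2 : K / n ≤ 1 / 2 := by rw [div_le_div_iff₀ hn two_pos]; linarith
  refine le_trans (Real.exp_le_exp.2 (neg_le_neg (add_le_add ?_ ?_))) ((prS n G).1 _ (h1.trans h2))
  · calc ‖κ / n‖ * |XX G| ≤ K / n * (M * n) :=
          mul_le_mul h1 hX (abs_nonneg _) (by positivity)
      _ = K * M := by field_simp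
  · calc (n.choose 2 : ℝ) * ‖κ / n‖ ^ 2 ≤ (n : ℝ) ^ 2 / 2 * (K / n) ^ 2 :=
          mul_le_mul (choose_le n) (pow_le_pow_left₀ (norm_nonneg _) h1 2) (by positivity)
            (by positivity)
      _ = K ^ 2 / 2 := by field_simp
      _ ≤ K ^ 2 := by nlinarith [sq_nonneg K]

lemma re_low {n : ℕ} (G : SimpleGraph (Fin n)) {M : ℝ} (hn : (0 : ℝ) < n)
    (hM : 1000 * (M + 1) ≤ n) (hX : |XX G| ≤ M * n) {w : ℂ}
    (hw : (G.maxDegree : ℝ) - (n : ℝ) / 1000 < w.re) : 249 / 500 ≤ (w / n).re := by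
  have h1 := (prS n G).2
  rw [Nat.cast_choose_two] at h1
  have h2 : (n : ℝ) * (((n : ℝ) - 1) / 2 - M) ≤ n * (G.maxDegree : ℝ) := by
    nlinarith [le_abs_self (XX G)]
  have h3 := le_of_mul_le_mul_left h2 hn
  rw [Complex.div_natCast_re, le_div_iff₀ hn]
  linarith

end F2

theorem f2S : F2Stmt := by
  rintro D ⟨r0, hr0, hcov⟩ hG
  have hS := soS fbS
  obtain ⟨K, hK⟩ := (isCompact_closedBall (0 : ℂ) 1).exists_bound_of_continuousOn
    (hS D).akap.continuousOn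
  refine tendsto_order.2 ⟨fun a ha => ?_, fun b hb => Eventually.of_forall fun n => ?_⟩
  swap
  · refine lt_of_le_of_lt ?_ hb
    rw [div_le_one (by positivity)]
    have h1 := Finite.card_subtype_le fun G : SimpleGraph (Fin n) =>
      ∀ [DecidableRel G.Adj] (P : Polynomial ℂ),
        (∀ k : ℕ, P.eval (k : ℂ) = (Nat.card (G.Coloring (Fin k)) : ℂ)) →
        ∀ z : ℂ, P.eval z = 0 → z.re ≤ (G.maxDegree : ℝ) - (n : ℝ) / 1000
    rw [Nat.card_eq_fintype_card (α := SimpleGraph (Fin n)), (pvS n).1] at h1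
    exact_mod_cast h1
  obtain ⟨δ, hδ, hδa⟩ : ∃ δ : ℝ, 0 < δ ∧ a < 1 - δ := ⟨(1 - a) / 2, by linarith, by linarith⟩
  obtain ⟨M, hM1, hM⟩ : ∃ M : ℝ, 1 ≤ M ∧ 1 ≤ δ * M ^ 2 := by
    have h1 : 0 < δ⁻¹ := inv_pos.2 hδ
    have h2 : δ * δ⁻¹ = 1 := mul_inv_cancel₀ hδ.ne'
    exact ⟨δ⁻¹ + 1, by linarith, by nlinarith⟩
  obtain ⟨c, hc⟩ : ∃ c : ℝ, c = Real.exp (-(K * M + K ^ 2)) ^ 2 * (1 - r0) := ⟨_, rfl⟩
  have hr : 0 < 1 - r0 := by linarith
  have hc0 : 0 < c := by rw [hc]; positivity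
  filter_upwards [hG (δ / 2 * c) (by positivity),
    tendsto_natCast_atTop_atTop.eventually_ge_atTop (2 * K),
    tendsto_natCast_atTop_atTop.eventually_ge_atTop (1000 * (M + 1))] with n hg hn1 hn2
  obtain ⟨g, hg1, hg2, hg3⟩ := hg
  have hn : (0 : ℝ) < n := by linarith
  have hMn : 0 < M * n := by positivity
  have h2N : (0 : ℝ) < 2 ^ (n.choose 2) := by positivity
  refine lt_of_lt_of_le hδa ?_
  rw [le_div_iff₀ h2N]
  refine le_trans ?_ (F2.markov _ (fun G => XX G ^ 2 / (M * n) ^ 2 +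
    Real.circleAverage (fun w => ‖g G w‖ ^ 2) 0 1 / c) (fun G => ?_) fun G hbad => ?_)
  · rw [sum_add_distrib, ← sum_div, ← sum_div, (pvS n).1, (pvS n).2.2]
    have e1 : (2 : ℝ) ^ (n.choose 2) * (n.choose 2 : ℝ) / (M * n) ^ 2 ≤
        2 ^ (n.choose 2) * (δ / 2) := by
      rw [mul_div_assoc]
      refine mul_le_mul_of_nonneg_left ?_ h2N.le
      rw [div_le_iff₀ (by positivity)]
      nlinarith [F2.choose_le n, mul_le_mul_of_nonneg_right hM (sq_nonneg (n : ℝ))]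
    have e2 : (∑ G : SimpleGraph (Fin n), Real.circleAverage (fun w => ‖g G w‖ ^ 2) 0 1) / c ≤
        2 ^ (n.choose 2) * (δ / 2) := by
      rw [div_le_iff₀ hc0, mul_assoc]
      exact hg2
    push_cast
    linarith
  · exact add_nonneg (by positivity)
      (div_nonneg (F2.avg_nonneg _ fun _ => by positivity) hc0.le)
  · have p1 : 0 ≤ XX G ^ 2 / (M * n) ^ 2 := by positivity
    have p2 : 0 ≤ Real.circleAverage (fun w => ‖g G w‖ ^ 2) 0 1 / c :=
      div_nonneg (F2.avg_nonneg _ fun _ => by positivity) hc0.le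
    by_cases hX : |XX G| ≤ M * n
    · refine le_add_of_nonneg_of_le p1 ?_
      simp only [not_forall, not_le] at hbad
      obtain ⟨inst, P, hP, w, hw0, hw⟩ := hbad
      obtain rfl : inst = fun a b => Classical.propDecidable (G.Adj a b) := Subsingleton.elim _ _
      obtain ⟨z, hz1, hz0, hz⟩ := hcov _ (F2.re_low G hn hn2 hX hw)
      have hzb : z ∈ closedBall (0 : ℂ) 1 := by
        rw [mem_closedBall_zero_iff]; linarith
      have hnC : (n : ℂ) ≠ 0 := by exact_mod_cast hn.ne'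
      have e1 := hg3 G P hP z hzb hz0 (by rw [hz, mul_div_cancel₀ _ hnC]; exact hw0)
      have e2 := F2.yy_low G hn hn1 hX (hK z hzb)
      have e3 := (cvS hS).2 (g G) r0 z (hg1 G) hr0 hz1
      rw [e1, norm_neg, le_div_iff₀ hr] at e3
      rw [one_le_div hc0, hc]
      exact (mul_le_mul_of_nonneg_right
        (pow_le_pow_left₀ (Real.exp_pos _).le e2 2) hr.le).trans e3
    · refine le_add_of_le_of_nonneg ?_ p2
      rw [one_le_div (by positivity), ← sq_abs (XX G)]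
      exact pow_le_pow_left₀ hMn.le (not_le.1 hX).le 2

end Pool.Agent.MP_cb5fda_co.AA
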