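import Mathlib
import Pool.Agent.MP_cb5fda_co.AA.Spec

/-! The contour formula for the weighted counts. -/

noncomputable section
open Finset Complex Metric Filter
open scoped Classical

namespace Pool.Agent.MP_cb5fda_co.AA

namespace FO

theorem cwG_append (fin : ℕ → (ℕ → ℕ) → ℂ) (q : ℂ) (L M : List ℕ) (g : ℕ) (a : ℕ → ℕ) :
    cwG fin q (L ++ M) g a = cwG (fun g a => cwG fin q M g a) q L g a := by
  induction L generalizing g a with
  | nil => simp [cwG]
  | cons s L ih => simp only [List.cons_append, cwG, ih]

theorem cwG_cont (f : ℕ → (ℕ → ℕ) → ℂ → ℂ) (q : ℂ) (S : Set ℂ) (x : ℂ)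
    (hf : ∀ g a, ContinuousWithinAt (f g a) S x) (L : List ℕ) (g : ℕ) (a : ℕ → ℕ) :
    ContinuousWithinAt (fun z => cwG (fun g a => f g a z) q L g a) S x := by
  induction L generalizing g a with
  | nil => simpa [cwG] using hf g a
  | cons s L ih =>
    simp only [cwG]
    refine continuousWithinAt_const.mul ((continuousWithinAt_const.mul (ih _ _)).add ?_)
    exact tendsto_finsetSum _ fun i _ => (continuousWithinAt_const.mul (ih _ _)).tendsto

theorem cwG_avg (fin : ℕ → (ℕ → ℕ) → ℂ) (f : ℕ → (ℕ → ℕ) → ℂ → ℂ) (w : ℂ → ℂ) (c q : ℂ)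
    (hw : ContinuousOn w (sphere 0 1)) (hf : ∀ g a, ContinuousOn (f g a) (sphere 0 1))
    (h : ∀ g a, fin g a = c * Real.circleAverage (fun z => w z * f g a z) 0 1)
    (L : List ℕ) (g : ℕ) (a : ℕ → ℕ) :
    cwG fin q L g a =
      c * Real.circleAverage (fun z => w z * cwG (fun g a => f g a z) q L g a) 0 1 := by
  induction L generalizing g a with
  | nil => simpa [cwG] using h g a
  | cons s L ih =>
    have hc : ∀ (k : ℂ) g a, ContinuousOn
        (fun z => k • (w z * cwG (fun g a => f g a z) q L g a)) (sphere 0 1) := fun k g a =>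
      (hw.mul fun x hx => cwG_cont f q _ x (fun g a => hf g a x hx) L g a).const_smul k
    have e : (fun z => w z * cwG (fun g a => f g a z) q (s :: L) g a) = fun z =>
        ((1 / 2 : ℂ) ^ (s.choose 2) * (q - g)) •
          (w z * cwG (fun g a => f g a z) q L (g + 1) (Function.update a g s)) +
        ∑ i ∈ range g, ((1 / 2 : ℂ) ^ (s.choose 2) * (1 / 2 : ℂ) ^ (s * a i)) •
          (w z * cwG (fun g a => f g a z) q L g (Function.update a i (a i + s))) := by
      funext z
      simp only [cwG, smul_eq_mul, mul_add, Finset.mul_sum]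
      congr 1
      · ring
      · exact Finset.sum_congr rfl fun i _ => by ring
    rw [e, Real.circleAverage_fun_add ((hc _ _ _).circleIntegrable zero_le_one)
      ((continuousOn_finsetSum _ fun i _ => hc _ _ _).circleIntegrable zero_le_one),
      Real.circleAverage_fun_sum (fun i _ => (hc _ _ _).circleIntegrable zero_le_one)]
    simp only [Real.circleAverage_fun_smul]
    simp only [cwG, ih, smul_eq_mul, mul_add, Finset.mul_sum]
    congr 1
    · ring
    · exact Finset.sum_congr rfl fun i _ => by ring

theorem pf_cont (hF : FBStmt) (g : ℕ) (a : ℕ → ℕ) (x : ℂ) (hx : FF x ≠ 0) :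
    ContinuousAt (pf g a) x := by
  have hc : Continuous FF := continuous_iff_continuousAt.2 fun y => (hF.1 y).continuousAt
  unfold pf
  refine tendsto_finsetProd _ fun i _ => ContinuousAt.tendsto ?_
  exact ((hc.comp (continuous_id.div_const _)).continuousAt).div hc.continuousAt hx

end FO

theorem foS (hF : FBStmt) (hS : SOStmt) (hI : INStmt) : FOStmt := by
  refine ⟨fun q L x hx => ?_, fun D n L hL z0 hz0 => ?_⟩
  · have := FO.cwG_cont (fun g a z => pf g a z) q Set.univ x
      (fun g a => (FO.pf_cont hF g a x hx).continuousWithinAt) L 0 (fun _ => 0)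
    rw [continuousWithinAt_univ] at this
    exact this
  · have S := hS D
    have hsub : sphere (0 : ℂ) 1 ⊆ closedBall 0 1 := sphere_subset_closedBall
    have hgam : ∀ z ∈ sphere (0 : ℂ) 1, D.gam z ≠ 0 := fun z hz => by
      refine mul_ne_zero ?_ (D.R_ne z (hsub hz))
      rintro rfl
      simp at hz
    have cg : ContinuousOn D.gam (sphere 0 1) := S.agam.continuousOn.mono hsub
    have cG : ContinuousOn D.G (sphere 0 1) := D.hG.continuousOn.mono hsub
    have cL : ContinuousOn D.L1 (sphere 0 1) := S.aL1.continuousOn.mono hsub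
    set q : ℂ := n * D.tau z0 with hq
    set m := n - L.sum with hm
    have hw : ContinuousOn (fun z => exp (q * D.G z) * D.L1 z / D.gam z ^ m) (sphere 0 1) :=
      (((continuousOn_const.mul cG).cexp).mul cL).div (cg.pow m)
        fun z hz => pow_ne_zero _ (hgam z hz)
    have hf : ∀ g a, ContinuousOn (fun z => pf g a (D.gam z)) (sphere 0 1) := fun g a z hz =>
      ContinuousAt.comp_continuousWithinAt (f := D.gam)
        (FO.pf_cont hF g a _ (S.F_ne z (hsub hz))) (cg z hz)
    have key := FO.cwG_avg (fun g a => cwG (fun _ _ => 1) q (List.replicate m 1) g a)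
      (fun g a z => pf g a (D.gam z)) _ (m.factorial : ℂ) q hw hf (fun g a => by
        rw [hI D q m g a]
        congr 2
        funext z
        ring) L 0 (fun _ => 0)
    have hz0' : z0 ∈ sphere (0 : ℂ) 1 := by simpa using hz0
    unfold cw pad
    rw [FO.cwG_append, key, mul_assoc]
    congr 1
    rw [← smul_eq_mul, ← Real.circleAverage_fun_smul]
    refine Real.circleAverage_congr_sphere fun z hz => ?_
    have hz' : z ∈ sphere (0 : ℂ) 1 := by simpa using hz
    have h1 := hgam z hz'
    have h0 := hgam z0 hz0'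
    have hn : n = m + L.sum := by omega
    have e1 : exp (q * D.G z) = exp (q * D.G z0) * exp (D.tau z0 * (D.G z - D.G z0)) ^ n := by
      rw [← Complex.exp_nat_mul, ← Complex.exp_add, hq]
      congr 1
      ring
    have e2 : D.gam z ^ n = D.gam z ^ m * D.gam z ^ L.sum := by rw [← pow_add, ← hn]
    simp only [smul_eq_mul, CD.Om, TT, div_pow, mul_pow]
    rw [e1, e2]
    field_simp

end Pool.Agent.MP_cb5fda_co.AA
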