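import Pool.Agent.MP_cb5fda_co.AA.Spec

/-! The contour formula for unit masses. -/

noncomputable section
open Finset Complex Metric Filter
open scoped Classical

namespace Pool.Agent.MP_cb5fda_co.AA

namespace IN

theorem avg0 {f h : ℂ → ℂ} (H : ∀ z, ‖z‖ = 1 → HasDerivAt f (z⁻¹ * h z) z) :
    Real.circleAverage h 0 1 = 0 := by
  rw [Real.circleAverage_eq_circleIntegral one_ne_zero,
    circleIntegral.integral_eq_zero_of_hasDerivWithinAt (f := f) zero_le_one fun z hz => ?_,
    smul_zero]
  simpa using (H z (by simpa using hz)).hasDerivWithinAt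

theorem dq (hF : FBStmt) {x : ℂ} (hx : FF x ≠ 0) (k : ℕ) :
    HasDerivAt (fun x => FF (x / 2 ^ k) / FF x)
      ((1 / 2) ^ k * (FF (x / 2 ^ (k + 1)) / FF x) - FF (x / 2 ^ k) / FF x * (FF (x / 2) / FF x))
      x := by
  have a := ((hF.1 (x / 2 ^ k)).comp x ((hasDerivAt_id x).div_const (2 ^ k))).div (hF.1 x) hx
  refine a.congr_deriv ?_
  simp only [Function.comp, id, div_div, ← pow_succ, one_div, inv_pow]
  field_simp

theorem pf_succ (g : ℕ) (a : ℕ → ℕ) (x : ℂ) :
    pf (g + 1) a x = pf g a x * (FF (x / 2 ^ a g) / FF x) := prod_range_succ _ _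

theorem pf_upd (g s : ℕ) (a : ℕ → ℕ) (x : ℂ) : pf g (Function.update a g s) x = pf g a x :=
  prod_congr rfl fun i hi => by rw [Function.update_of_ne (mem_range.1 hi).ne]

theorem dpf (hF : FBStmt) {x : ℂ} (hx : FF x ≠ 0) (a : ℕ → ℕ) (g : ℕ) :
    HasDerivAt (pf g a) (∑ i ∈ range g, (1 / 2) ^ a i * pf g (Function.update a i (a i + 1)) x -
      g * (pf g a x * (FF (x / 2) / FF x))) x := by
  induction g with
  | zero => exact (hasDerivAt_const x (1 : ℂ)).congr_deriv (by simp)
  | succ g ih =>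
    rw [show pf (g + 1) a = _ from funext (pf_succ g a)]
    refine (ih.mul (dq hF hx (a g))).congr_deriv ?_
    have e : ∑ i ∈ range g, (1 / 2) ^ a i * pf (g + 1) (Function.update a i (a i + 1)) x =
        (∑ i ∈ range g, (1 / 2) ^ a i * pf g (Function.update a i (a i + 1)) x) *
          (FF (x / 2 ^ a g) / FF x) := by
      rw [sum_mul]
      exact sum_congr rfl fun i hi => by
        rw [pf_succ, Function.update_of_ne (mem_range.1 hi).ne', ← mul_assoc]
    rw [sum_range_succ, e, pf_succ, pf_upd, Function.update_self]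
    push_cast
    ring

variable (D : CD) (q : ℂ)

def Th (g : ℕ) (a : ℕ → ℕ) (z : ℂ) : ℂ := exp (q * D.G z) * pf g a (D.gam z)

def J (m g : ℕ) (a : ℕ → ℕ) (z : ℂ) : ℂ := Th D q g a z * D.L1 z / D.gam z ^ m

theorem dTh (hF : FBStmt) (h : D.Soft) (g : ℕ) (a : ℕ → ℕ) {z : ℂ} (hz : z ∈ closedBall (0 : ℂ) 1) :
    HasDerivAt (Th D q g a) (D.R z * D.L1 z * ((q - g) * Th D q (g + 1) (Function.update a g 1) z +
      ∑ i ∈ range g, (1 / 2) ^ a i * Th D q g (Function.update a i (a i + 1)) z)) z := by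
  have n := h.F_ne z hz
  have e : deriv D.G z = FF (D.gam z / 2) / FF (D.gam z) * (D.R z * D.L1 z) := by
    rw [div_mul_eq_mul_div, eq_div_iff n]
    exact D.dG z hz
  have a1 := (((D.hG z hz).differentiableAt.hasDerivAt).const_mul q).cexp
  have a2 := (dpf hF n a g).comp z (h.dgam z hz)
  refine (a1.mul a2).congr_deriv ?_
  simp only [Th, pf_succ, pf_upd, Function.update_self, pow_one, e, Function.comp,
    mul_left_comm _ (exp (q * D.G z)), ← mul_sum]
  ring

theorem gam_ne {z : ℂ} (hz : ‖z‖ = 1) : D.gam z ≠ 0 :=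
  mul_ne_zero (fun e => by simp [e] at hz) (D.R_ne z (by simp [hz]))

theorem intJ (hF : FBStmt) (h : D.Soft) (m g : ℕ) (a : ℕ → ℕ) (c : ℂ) :
    CircleIntegrable (fun z => c • J D q m g a z) 0 1 := by
  refine ContinuousOn.circleIntegrable zero_le_one fun z hz => ?_
  have hz' := sphere_subset_closedBall hz
  exact (((((dTh D q hF h g a hz').continuousAt.mul (h.aL1 z hz').continuousAt).div
    ((h.agam z hz').continuousAt.pow m)
    (pow_ne_zero _ (gam_ne D (by simpa using hz)))).const_smul c)).continuousWithinAt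

theorem step (hF : FBStmt) (h : D.Soft) (m g : ℕ) (a : ℕ → ℕ) :
    (q - g) * Real.circleAverage (J D q m (g + 1) (Function.update a g 1)) 0 1 +
      ∑ i ∈ range g, (1 / 2) ^ a i *
        Real.circleAverage (J D q m g (Function.update a i (a i + 1))) 0 1 =
      (m + 1) * Real.circleAverage (J D q (m + 1) g a) 0 1 := by
  have i2 := CircleIntegrable.fun_sum (range g) fun i _ =>
    intJ D q hF h m g (Function.update a i (a i + 1)) ((1 / 2) ^ a i)
  have i3 : CircleIntegrable (fun z => (q - g) • J D q m (g + 1) (Function.update a g 1) z +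
      ∑ i ∈ range g, (1 / 2 : ℂ) ^ a i • J D q m g (Function.update a i (a i + 1)) z) 0 1 :=
    (intJ D q hF h _ _ _ _).add i2
  simp only [← smul_eq_mul, ← Real.circleAverage_fun_smul]
  rw [← Real.circleAverage_fun_sum fun i _ => intJ D q hF h _ _ _ _,
    ← Real.circleAverage_fun_add (intJ D q hF h _ _ _ _) i2, ← sub_eq_zero,
    ← Real.circleAverage_fun_sub i3 (intJ D q hF h _ _ _ _)]
  refine avg0 (f := fun z => Th D q g a z / D.gam z ^ (m + 1)) fun z hz => ?_
  have hz' : z ∈ closedBall (0 : ℂ) 1 := by simp [hz]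
  have n := gam_ne D hz
  refine ((dTh D q hF h g a hz').div ((h.dgam z hz').pow (m + 1)) (pow_ne_zero _ n)).congr_deriv ?_
  have n1 : z ≠ 0 := left_ne_zero_of_mul n
  have n2 : D.R z ≠ 0 := right_ne_zero_of_mul n
  simp only [J, smul_eq_mul, Pi.add_apply, Pi.pow_apply, ← mul_div_assoc, ← mul_assoc, ← sum_div,
    ← sum_mul, Nat.add_sub_cancel, CD.gam]
  push_cast
  field_simp
  ring

end IN

open IN in
theorem inS (hF : FBStmt) (hS : SOStmt) : INStmt := by
  intro D q m
  have h := hS D
  show ∀ g a, _ = _ * Real.circleAverage (J D q m g a) 0 1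
  induction m with
  | zero =>
    intro g a
    have d : DifferentiableOn ℂ (J D q 0 g a) (closedBall 0 1) := fun z hz =>
      ((((dTh D q hF h g a hz).differentiableAt.mul (h.aL1 z hz).differentiableAt).div_const
        1)).differentiableWithinAt
    rw [DiffContOnCl.circleAverage (d.diffContOnCl_ball (by simp))]
    simp [cwG, J, Th, pf, CD.gam, CD.L1, LL1, D.G0, hF.2.1]
  | succ m ih =>
    intro g a
    rw [List.replicate_succ, cwG, Nat.factorial_succ]
    simp only [ih, one_mul]
    push_cast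
    rw [mul_comm (m + 1 : ℂ), mul_assoc, ← step D q hF h m g a, mul_add, mul_add, mul_sum, mul_sum]
    simp only [Nat.choose_one_right, Nat.choose_eq_zero_of_lt one_lt_two, pow_zero, one_mul,
      mul_left_comm (m.factorial : ℂ)]

end Pool.Agent.MP_cb5fda_co.AA
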