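import Pool.Agent.MP_cb5fda_co.AA.Spec

/-! The square sum of the errors of the normalised coefficients tends to zero. -/

noncomputable section
open Finset Complex Metric Filter
open scoped Classical

namespace Pool.Agent.MP_cb5fda_co.AA
namespace L2

theorem one_le_prod (w : ℕ → ℝ) (hw : ∀ s, 1 ≤ w s) (L : List ℕ) : 1 ≤ (L.map w).prod := by
  induction L with
  | nil => simp
  | cons a L ih =>
    rw [List.map_cons, List.prod_cons]
    exact one_le_mul_of_one_le_of_one_le (hw a) ih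

theorem le_prod (w : ℕ → ℝ) (hw : ∀ s, 1 ≤ w s) (L : List ℕ) (s : ℕ) (hs : s ∈ L) :
    w s ≤ (L.map w).prod := by
  induction L with
  | nil => simp at hs
  | cons a L ih =>
    rw [List.map_cons, List.prod_cons]
    rcases List.mem_cons.1 hs with rfl | h
    · exact le_mul_of_one_le_right (by linarith [hw s]) (one_le_prod w hw L)
    · exact (ih h).trans (le_mul_of_one_le_left (by linarith [one_le_prod w hw L]) (hw a))

theorem prod_sq_mul (b w : ℕ → ℝ) (L : List ℕ) :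
    (L.map fun s => b s ^ 2 * w s).prod = (L.map b).prod ^ 2 * (L.map w).prod := by
  induction L with
  | nil => simp
  | cons a L ih => simp only [List.map_cons, List.prod_cons, ih]; ring

theorem pow_choose_le (n : ℕ) (x : ℝ) (hx : 0 ≤ x) :
    (1 + x) ^ (n.choose 2) ≤ Real.exp ((n : ℝ) ^ 2 * x / 2) := by
  have h1 : (1 + x) ^ (n.choose 2) ≤ Real.exp x ^ (n.choose 2) :=
    pow_le_pow_left₀ (by linarith) (by linarith [Real.add_one_le_exp x]) _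
  rw [← Real.exp_nat_mul] at h1
  refine h1.trans (Real.exp_le_exp.2 ?_)
  have h2 : (n.choose 2 : ℝ) ≤ (n : ℝ) ^ 2 / 2 := by
    have := Nat.choose_le_pow_div (α := ℝ) 2 n
    simpa using this
  nlinarith

def bb (C : ℝ) (n s : ℕ) : ℝ := (1 / 2 : ℝ) ^ (s.choose 2) * C ^ s / (n : ℝ) ^ (s - 1)

def ww (n s : ℕ) : ℝ := 2 * (n : ℝ) ^ (s - 2)

theorem one_le_ww (n : ℕ) (hn : 1 ≤ n) (s : ℕ) : 1 ≤ ww n s := by
  have hn' : (1 : ℝ) ≤ n := by exact_mod_cast hn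
  have := one_le_pow₀ (n := s - 2) hn'
  unfold ww
  linarith

theorem term_le (C : ℝ) (n s : ℕ) (hn : 1 ≤ n) (hs : 2 ≤ s) :
    (n.choose s : ℝ) * 2 ^ (s.choose 2) * (bb C n s ^ 2 * ww n s) ≤
      2 * ((C ^ 2) ^ s / s.factorial) := by
  obtain ⟨k, rfl⟩ : ∃ k, s = k + 2 := ⟨s - 2, by omega⟩
  have hn' : (0 : ℝ) < n := by exact_mod_cast hn
  have h1 : (n.choose (k + 2) : ℝ) ≤ (n : ℝ) ^ (k + 2) / (k + 2).factorial :=
    Nat.choose_le_pow_div _ _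
  have h2 : (2 : ℝ) ^ ((k + 2).choose 2) * ((1 / 2 : ℝ) ^ ((k + 2).choose 2)) ^ 2 ≤ 1 := by
    have h3 : (2 : ℝ) ^ ((k + 2).choose 2) * (1 / 2 : ℝ) ^ ((k + 2).choose 2) = 1 := by
      rw [← mul_pow]; norm_num
    have h4 : (1 / 2 : ℝ) ^ ((k + 2).choose 2) ≤ 1 := pow_le_one₀ (by norm_num) (by norm_num)
    rw [sq, ← mul_assoc, h3, one_mul]
    exact h4
  have hf : (0 : ℝ) < (k + 2).factorial := by exact_mod_cast Nat.factorial_pos _
  have e1 : k + 2 - 1 = k + 1 := rfl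
  have e2 : k + 2 - 2 = k := rfl
  unfold bb ww
  rw [e1, e2]
  generalize (1 / 2 : ℝ) ^ ((k + 2).choose 2) = e at h2 ⊢
  generalize (2 : ℝ) ^ ((k + 2).choose 2) = f at h2 ⊢
  have h5 : (0 : ℝ) ≤ 2 * (C ^ 2) ^ (k + 2) / (n : ℝ) ^ (k + 2) := by positivity
  have h6 : (0 : ℝ) ≤ (n : ℝ) ^ (k + 2) / (k + 2).factorial := by positivity
  calc (n.choose (k + 2) : ℝ) * f * ((e * C ^ (k + 2) / (n : ℝ) ^ (k + 1)) ^ 2 * (2 * (n : ℝ) ^ k))
      = (n.choose (k + 2) : ℝ) * (2 * (C ^ 2) ^ (k + 2) / (n : ℝ) ^ (k + 2)) * (f * e ^ 2) := by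
        field_simp
        ring
    _ ≤ (n.choose (k + 2) : ℝ) * (2 * (C ^ 2) ^ (k + 2) / (n : ℝ) ^ (k + 2)) * 1 :=
        mul_le_mul_of_nonneg_left h2 (by positivity)
    _ ≤ (n : ℝ) ^ (k + 2) / (k + 2).factorial * (2 * (C ^ 2) ^ (k + 2) / (n : ℝ) ^ (k + 2)) := by
        rw [mul_one]; exact mul_le_mul_of_nonneg_right h1 h5
    _ = 2 * ((C ^ 2) ^ (k + 2) / (k + 2).factorial) := by
        field_simp

theorem sum_beta (hP : POStmt) (C : ℝ) (n : ℕ) (hn : 1 ≤ n) :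
    ∑ H : SimpleGraph (Fin n), ((ms H).map fun s => bb C n s ^ 2 * ww n s).prod ≤
      Real.exp (2 * Real.exp (C ^ 2)) := by
  refine (hP n (fun s => bb C n s ^ 2 * ww n s) (fun s => ?_)).trans (Real.exp_le_exp.2 ?_)
  · exact mul_nonneg (sq_nonneg _) (by linarith [one_le_ww n hn s])
  · calc ∑ s ∈ Icc 2 n, (n.choose s : ℝ) * 2 ^ (s.choose 2) * (bb C n s ^ 2 * ww n s)
        ≤ ∑ s ∈ Icc 2 n, 2 * ((C ^ 2) ^ s / s.factorial) :=
          sum_le_sum fun s hs => term_le C n s hn (mem_Icc.1 hs).1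
      _ ≤ ∑ s ∈ range (n + 1), 2 * ((C ^ 2) ^ s / s.factorial) := by
          refine sum_le_sum_of_subset_of_nonneg (fun s hs => ?_) (fun s _ _ => by positivity)
          have := (mem_Icc.1 hs).2
          exact mem_range.2 (by omega)
      _ ≤ 2 * Real.exp (C ^ 2) := by
          rw [← mul_sum]
          have := Real.sum_le_exp_of_nonneg (sq_nonneg C) (n + 1)
          linarith

theorem point {n : ℕ} (hn : 1 ≤ n) (h2 : C2Stmt) (H : SimpleGraph (Fin n)) (a κ : ℂ)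
    (C t δ : ℝ) (r0 : ℕ) (ht : ‖κ‖ ^ 2 ≤ t) (ha : ‖a‖ ≤ C * ((ms H).map (bb C n)).prod)
    (hg : ¬ Cherry H → (ed H).card ≤ r0 →
      ‖a - κ ^ (ed H).card‖ ≤ δ / (n : ℝ) ^ (ed H).card) :
    ‖a - κ ^ (ed H).card‖ ^ 2 ≤ δ ^ 2 * (1 / (n : ℝ) ^ 2) ^ (ed H).card +
      2 * C ^ 2 * (1 / n + 1 / 2 ^ r0) * ((ms H).map fun s => bb C n s ^ 2 * ww n s).prod +
      2 * (if Cherry H then t ^ (ed H).card else 0) + 2 / 2 ^ r0 * (2 * t) ^ (ed H).card := by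
  obtain ⟨-, -, hA, hB⟩ := h2 n H
  have hn' : (1 : ℝ) ≤ n := by exact_mod_cast hn
  have ht0 : 0 ≤ t := (sq_nonneg _).trans ht
  have hw1 := one_le_prod (ww n) (one_le_ww n hn) (ms H)
  rw [prod_sq_mul]
  generalize (ed H).card = e at hg hA ⊢
  generalize ((ms H).map (bb C n)).prod = P at ha ⊢
  have p1 : 0 ≤ δ ^ 2 * (1 / (n : ℝ) ^ 2) ^ e := by positivity
  have p4 : 0 ≤ 2 / 2 ^ r0 * (2 * t) ^ e := by positivity
  have hcr : ‖a - κ ^ e‖ ^ 2 ≤ 2 * C ^ 2 * P ^ 2 + 2 * t ^ e := by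
    have q1 : ‖a - κ ^ e‖ ≤ ‖a‖ + ‖κ‖ ^ e := by
      have := norm_sub_le a (κ ^ e)
      rwa [norm_pow] at this
    have q2 : (‖κ‖ ^ e) ^ 2 ≤ t ^ e := by
      rw [← pow_mul, mul_comm, pow_mul]
      exact pow_le_pow_left₀ (sq_nonneg _) ht e
    have q3 : ‖a‖ ^ 2 ≤ (C * P) ^ 2 := pow_le_pow_left₀ (norm_nonneg _) ha 2
    have q4 : ‖a - κ ^ e‖ ^ 2 ≤ (‖a‖ + ‖κ‖ ^ e) ^ 2 := pow_le_pow_left₀ (norm_nonneg _) q1 2
    nlinarith [sq_nonneg (‖a‖ - ‖κ‖ ^ e)]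
  have key : ∀ W : ℝ, 1 ≤ (1 / n + 1 / 2 ^ r0) * W →
      2 * C ^ 2 * P ^ 2 ≤ 2 * C ^ 2 * (1 / n + 1 / 2 ^ r0) * (P ^ 2 * W) := by
    intro W hW
    have : 2 * C ^ 2 * P ^ 2 * 1 ≤ 2 * C ^ 2 * P ^ 2 * ((1 / n + 1 / 2 ^ r0) * W) :=
      mul_le_mul_of_nonneg_left hW (by positivity)
    linarith
  have i1 : (0 : ℝ) < 1 / n := by positivity
  have i2 : (0 : ℝ) < 1 / 2 ^ r0 := by positivity
  by_cases hc : Cherry H
  · obtain ⟨s, hs, h3⟩ := hB hc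
    have q1 := le_prod (ww n) (one_le_ww n hn) (ms H) s hs
    have q2 : (n : ℝ) ≤ ww n s := by
      have : (n : ℝ) ^ 1 ≤ (n : ℝ) ^ (s - 2) := pow_le_pow_right₀ hn' (by omega)
      rw [pow_one] at this
      unfold ww
      linarith
    have q3 : 1 / (n : ℝ) * n = 1 := by field_simp
    have q4 := key ((ms H).map (ww n)).prod (by nlinarith)
    rw [if_pos hc]
    linarith
  · rw [if_neg hc]
    by_cases he : e ≤ r0
    · have q1 := pow_le_pow_left₀ (norm_nonneg _) (hg hc he) 2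
      have q2 : (δ / (n : ℝ) ^ e) ^ 2 = δ ^ 2 * (1 / (n : ℝ) ^ 2) ^ e := by
        rw [div_pow, div_pow, one_pow, ← pow_mul, ← pow_mul, mul_comm e 2, mul_one_div]
      have q3 : 0 ≤ 2 * C ^ 2 * (1 / n + 1 / 2 ^ r0) * (P ^ 2 * ((ms H).map (ww n)).prod) := by
        have : 0 ≤ ((ms H).map (ww n)).prod := by linarith
        positivity
      linarith
    · have q0 : (2 : ℝ) ^ r0 ≤ 2 ^ e := pow_le_pow_right₀ (by norm_num) (by omega)
      have q1 : ((ms H).map (ww n)).prod = 2 ^ e := by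
        rw [hA hc, List.map_replicate, List.prod_replicate]
        simp [ww]
      have q3 : 1 / (2 : ℝ) ^ r0 * 2 ^ r0 = 1 := by field_simp
      have q4 := key ((ms H).map (ww n)).prod (by rw [q1] at hw1 ⊢; nlinarith)
      have q5 : 2 * t ^ e ≤ 2 / 2 ^ r0 * (2 * t) ^ e := by
        have r1 : 1 ≤ 1 / (2 : ℝ) ^ r0 * 2 ^ e := by nlinarith
        have r2 : 2 * t ^ e * 1 ≤ 2 * t ^ e * (1 / (2 : ℝ) ^ r0 * 2 ^ e) :=
          mul_le_mul_of_nonneg_left r1 (by positivity)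
        rw [mul_pow]
        calc 2 * t ^ e = 2 * t ^ e * 1 := by ring
          _ ≤ 2 * t ^ e * (1 / (2 : ℝ) ^ r0 * 2 ^ e) := r2
          _ = 2 / 2 ^ r0 * (2 ^ e * t ^ e) := by ring
      linarith

theorem total {n : ℕ} (hn : 1 ≤ n) (hW : WYStmt) (h2 : C2Stmt) (hP : POStmt)
    (a : SimpleGraph (Fin n) → ℂ) (κ : ℂ) (C K δ : ℝ) (r0 : ℕ) (hκ : ‖κ‖ ≤ K / n)
    (ha : ∀ H, ‖a H‖ ≤ C * ((ms H).map (bb C n)).prod)
    (hg : ∀ H, ¬ Cherry H → (ed H).card ≤ r0 →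
      ‖a H - κ ^ (ed H).card‖ ≤ δ / (n : ℝ) ^ (ed H).card) :
    ∑ H : SimpleGraph (Fin n), ‖a H - κ ^ (ed H).card‖ ^ 2 ≤ δ ^ 2 * Real.exp 1 +
      (2 * C ^ 2 * Real.exp (2 * Real.exp (C ^ 2)) + 2 * K ^ 4 * Real.exp (K ^ 2)) * (1 / n) +
      (2 * C ^ 2 * Real.exp (2 * Real.exp (C ^ 2)) + 2 * Real.exp (K ^ 2)) * (1 / 2 ^ r0) := by
  have hn' : (0 : ℝ) < n := by exact_mod_cast hn
  have ht : ‖κ‖ ^ 2 ≤ (K / n) ^ 2 := pow_le_pow_left₀ (norm_nonneg _) hκ 2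
  refine (sum_le_sum fun H _ =>
    point hn h2 H (a H) κ C ((K / n) ^ 2) δ r0 ht (ha H) (hg H)).trans ?_
  rw [sum_add_distrib, sum_add_distrib, sum_add_distrib, ← mul_sum, ← mul_sum, ← mul_sum,
    ← mul_sum, ← sum_filter, hW.2.1, hW.2.1]
  have s1 : (1 + 1 / (n : ℝ) ^ 2) ^ (n.choose 2) ≤ Real.exp 1 := by
    refine (pow_choose_le n _ (by positivity)).trans (Real.exp_le_exp.2 ?_)
    have : (n : ℝ) ^ 2 * (1 / (n : ℝ) ^ 2) = 1 := by field_simp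
    rw [this]; norm_num
  have s2 := sum_beta hP C n hn
  have e1 : (n : ℝ) ^ 2 * (K / n) ^ 2 = K ^ 2 := by field_simp
  have s3 : (1 + (K / n) ^ 2) ^ (n.choose 2) ≤ Real.exp (K ^ 2) := by
    refine (pow_choose_le n _ (by positivity)).trans (Real.exp_le_exp.2 ?_)
    rw [e1]; nlinarith [sq_nonneg K]
  have s4 : (1 + 2 * (K / n) ^ 2) ^ (n.choose 2) ≤ Real.exp (K ^ 2) := by
    refine (pow_choose_le n _ (by positivity)).trans (Real.exp_le_exp.2 ?_)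
    nlinarith
  have s5 := hW.2.2 n ((K / n) ^ 2) (by positivity)
  have e2 : (n : ℝ) ^ 3 * ((K / n) ^ 2) ^ 2 = K ^ 4 * (1 / n) := by field_simp
  rw [e2] at s5
  have s6 := s5.trans (mul_le_mul_of_nonneg_left s3 (by positivity))
  have t1 := mul_le_mul_of_nonneg_left s1 (sq_nonneg δ)
  have t2 := mul_le_mul_of_nonneg_left s2
    (show (0 : ℝ) ≤ 2 * C ^ 2 * (1 / n + 1 / 2 ^ r0) by positivity)
  have t4 := mul_le_mul_of_nonneg_left s4 (show (0 : ℝ) ≤ 2 / 2 ^ r0 by positivity)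
  have e3 : (2 : ℝ) / 2 ^ r0 = 2 * (1 / 2 ^ r0) := by ring
  rw [e3] at t4 ⊢
  linarith

end L2

theorem l2S (hS : SOStmt) (hW : WYStmt) (h2 : C2Stmt) (hP : POStmt) : L2Stmt := by
  intro D hN hR1 hR2 ε hε
  obtain ⟨C, -, hR1⟩ := hR1
  obtain ⟨K, hK⟩ := (isCompact_closedBall (0 : ℂ) 1).exists_bound_of_continuousOn
    (hS D).akap.continuousOn
  set A : ℝ := 2 * C ^ 2 * Real.exp (2 * Real.exp (C ^ 2)) + 2 * K ^ 4 * Real.exp (K ^ 2) with hA
  set B : ℝ := 2 * C ^ 2 * Real.exp (2 * Real.exp (C ^ 2)) + 2 * Real.exp (K ^ 2) with hB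
  have hε3 : 0 < ε / 3 := by linarith
  have l1 : Tendsto (fun n : ℕ => A * (1 / (n : ℝ))) atTop (nhds 0) := by
    simpa using tendsto_one_div_atTop_nhds_zero_nat.const_mul A
  have l2 : Tendsto (fun r : ℕ => B * (1 / (2 : ℝ) ^ r)) atTop (nhds 0) := by
    have := (tendsto_pow_atTop_nhds_zero_of_lt_one (r := (1 / 2 : ℝ)) (by norm_num)
      (by norm_num)).const_mul B
    simpa using this
  obtain ⟨r0, hr0⟩ := (l2.eventually (ge_mem_nhds hε3)).exists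
  set δ : ℝ := min 1 (ε / 9) with hδ
  have hδ0 : 0 < δ := lt_min one_pos (by linarith)
  have hδ1 : δ ^ 2 * Real.exp 1 ≤ ε / 3 := by
    have a1 : δ ≤ 1 := min_le_left _ _
    have a2 : δ ≤ ε / 9 := min_le_right _ _
    have a3 : Real.exp 1 ≤ 3 := by linarith [Real.exp_one_lt_d9]
    have a4 : δ ^ 2 ≤ ε / 9 := by nlinarith
    nlinarith [Real.exp_pos 1, sq_nonneg δ]
  have hR2' := (eventually_all_finset (range (r0 + 1))).2 fun r _ => hR2 r δ hδ0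
  filter_upwards [hN, hR1, hR2', l1.eventually (ge_mem_nhds hε3), eventually_ge_atTop 1] with
    n hN hR1 hR2' hl1 hn z hz
  have hn' : (0 : ℝ) < n := by exact_mod_cast hn
  have hc := norm_pos_iff.2 (hN z hz)
  have hκ : ‖D.kap z / n‖ ≤ K / n := by
    rw [norm_div, Complex.norm_natCast]
    exact div_le_div_of_nonneg_right (hK z (by simp [hz])) hn'.le
  have := L2.total hn hW h2 hP
    (fun H => cw (n * D.tau z) (pad n (ms H)) / cw (n * D.tau z) (pad n [])) (D.kap z / n)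
    C K δ r0 hκ (fun H => ?_) (fun H hH he => ?_)
  · linarith
  · rw [norm_div, div_le_iff₀ hc]
    exact hR1 z hz (ms H) (h2 n H).1 (h2 n H).2.1
  · have q := hR2' (ed H).card (mem_range.2 (by omega)) z hz
    rw [(h2 n H).2.2.1 hH, div_sub' (hN z hz), norm_div, div_le_iff₀ hc, mul_comm (cw _ _)]
    exact q

end Pool.Agent.MP_cb5fda_co.AA
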