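import Pool.Agent.MP_cb5fda_co.AA.Spec

/-! Laplace upper bounds on the circle. -/

noncomputable section
open Finset Complex Metric Filter
open scoped Classical

namespace Pool.Agent.MP_cb5fda_co.AA

namespace LA

lemma avg_shift {E : Type} [NormedAddCommGroup E] [NormedSpace ℝ E] (f : ℂ → E) (z0 : ℂ)
    (hz : ‖z0‖ = 1) : Real.circleAverage f 0 1 =
      (2 * Real.pi)⁻¹ • ∫ t in (-Real.pi)..Real.pi, f (z0 * exp (t * I)) := by
  rw [Real.circleAverage_eq_integral_add (arg z0 - Real.pi)]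
  congr 1
  have h := intervalIntegral.integral_comp_sub_right (a := 0) (b := 2 * Real.pi)
    (fun t : ℝ => f (z0 * exp (t * I))) Real.pi
  rw [zero_sub, show 2 * Real.pi - Real.pi = Real.pi by ring] at h
  rw [← h]
  refine intervalIntegral.integral_congr fun θ _ => ?_
  have h0 : z0 = exp (arg z0 * I) := by
    have := norm_mul_exp_arg_mul_I z0
    rw [hz] at this
    simpa using this.symm
  show f _ = f _
  congr 1
  rw [circleMap_zero]
  conv_rhs => rw [h0]
  rw [← exp_add]
  push_cast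
  rw [one_mul]
  congr 1
  ring

lemma gauss_le {a : ℝ} (ha : 0 < a) :
    ∫ t in (-Real.pi)..Real.pi, Real.exp (-a * t ^ 2) ≤ √(Real.pi / a) := by
  rw [← integral_gaussian, intervalIntegral.integral_of_le (by linarith [Real.pi_pos])]
  exact MeasureTheory.setIntegral_le_integral (integrable_exp_neg_mul_sq ha)
    (Eventually.of_forall fun t => (Real.exp_pos _).le)

/-- A function on the circle dominated by a Gaussian in the angle. -/
lemma avg_le (f : ℂ → ℝ) (z0 : ℂ) (hz : ‖z0‖ = 1) {a K : ℝ} (ha : 0 < a) (hK : 0 ≤ K)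
    (h : ∀ t : ℝ, |t| ≤ Real.pi → ‖f (z0 * exp (t * I))‖ ≤ K * Real.exp (-a * t ^ 2)) :
    Real.circleAverage f 0 1 ≤ K * √(Real.pi / a) := by
  have hpi := Real.pi_pos
  rw [avg_shift f z0 hz, smul_eq_mul]
  have h1 : ‖∫ t in (-Real.pi)..Real.pi, f (z0 * exp (t * I))‖ ≤
      ∫ t in (-Real.pi)..Real.pi, K * Real.exp (-a * t ^ 2) := by
    refine intervalIntegral.norm_integral_le_of_norm_le (by linarith)
      (Eventually.of_forall fun t ht => h t (abs_le.2 ⟨ht.1.le, ht.2⟩)) ?_
    exact ((integrable_exp_neg_mul_sq ha).const_mul K).intervalIntegrable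
  rw [intervalIntegral.integral_const_mul] at h1
  have h2 := mul_le_mul_of_nonneg_left (gauss_le ha) hK
  have h3 : (2 * Real.pi)⁻¹ ≤ 1 := inv_le_one_of_one_le₀ (by linarith [Real.pi_gt_three])
  have h4 : (0 : ℝ) ≤ (2 * Real.pi)⁻¹ := by positivity
  calc (2 * Real.pi)⁻¹ * ∫ t in (-Real.pi)..Real.pi, f (z0 * exp (t * I))
      ≤ (2 * Real.pi)⁻¹ * (K * √(Real.pi / a)) :=
        mul_le_mul_of_nonneg_left (((le_abs_self _).trans h1).trans h2) h4
    _ ≤ 1 * (K * √(Real.pi / a)) := mul_le_mul_of_nonneg_right h3 (by positivity)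
    _ = _ := one_mul _

lemma abs_le_exp {a : ℝ} (ha : 0 < a) (t : ℝ) : |t| ≤ (√a)⁻¹ * Real.exp (a / 2 * t ^ 2) := by
  have hs : 0 < √a := Real.sqrt_pos.2 ha
  rw [← div_eq_inv_mul, le_div_iff₀ hs]
  have h1 := Real.add_one_le_exp (a / 2 * t ^ 2)
  have h2 : (|t| * √a) ^ 2 = a * t ^ 2 := by rw [mul_pow, sq_abs, Real.sq_sqrt ha.le]; ring
  nlinarith [sq_nonneg (|t| * √a - 1)]

end LA

theorem laS (_hS : SOStmt) : LAStmt := by
  rintro D ⟨c, M, hc, h⟩
  have hpi := Real.pi_pos
  refine ⟨√(Real.pi / c) + √(2 * Real.pi) / c, fun n hn z0 hz => ?_⟩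
  have hn' : (0 : ℝ) < n := by exact_mod_cast hn
  have ha : 0 < c * n := mul_pos hc hn'
  have hw : ∀ t : ℝ, |t| ≤ Real.pi →
      ‖D.Om z0 (z0 * exp (t * I))‖ ^ n ≤ Real.exp (-(c * n) * t ^ 2) := by
    intro t ht
    refine (pow_le_pow_left₀ (norm_nonneg _) ((h z0 hz).2 t ht).1 n).trans (le_of_eq ?_)
    rw [← Real.exp_nat_mul]
    congr 1
    ring
  constructor
  · refine (LA.avg_le _ z0 hz ha zero_le_one fun t ht => ?_).trans ?_
    · rw [Real.norm_of_nonneg (by positivity), one_mul]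
      exact hw t ht
    · rw [one_mul, ← div_div, Real.sqrt_div (by positivity)]
      refine div_le_div_of_nonneg_right ?_ (Real.sqrt_nonneg _)
      exact le_add_of_nonneg_right (by positivity)
  · refine (LA.avg_le _ z0 hz (a := c * n / 2) (K := (√(c * n))⁻¹) (by positivity)
      (by positivity) fun t ht => ?_).trans ?_
    · rw [Real.norm_of_nonneg (by positivity)]
      have h1 : ‖z0 * exp (t * I) - z0‖ ≤ |t| := by
        rw [← mul_sub_one, norm_mul, hz, one_mul, mul_comm]
        exact Real.norm_exp_I_mul_ofReal_sub_one_le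
      calc ‖D.Om z0 (z0 * exp (t * I))‖ ^ n * ‖z0 * exp (t * I) - z0‖
          ≤ Real.exp (-(c * n) * t ^ 2) * ((√(c * n))⁻¹ * Real.exp (c * n / 2 * t ^ 2)) :=
            mul_le_mul (hw t ht) (h1.trans (LA.abs_le_exp ha t)) (norm_nonneg _)
              (Real.exp_pos _).le
        _ = (√(c * n))⁻¹ * Real.exp (-(c * n / 2) * t ^ 2) := by
            rw [mul_left_comm, ← Real.exp_add]
            congr 2
            ring
    · have h2 : (√(c * n))⁻¹ * √(Real.pi / (c * n / 2)) = √(2 * Real.pi) / c / n := by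
        rw [show Real.pi / (c * n / 2) = 2 * Real.pi / (c * n) by field_simp,
          Real.sqrt_div (by positivity), div_div, ← div_eq_inv_mul, div_div,
          Real.mul_self_sqrt ha.le]
      rw [h2]
      refine div_le_div_of_nonneg_right ?_ hn'.le
      exact le_add_of_nonneg_left (by positivity)

end Pool.Agent.MP_cb5fda_co.AA
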