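import Mathlib
import Pool.Agent.MP_cb5fda_co.AA.Spec

/-! Laplace method on the circle: the square of the average. -/

noncomputable section
open Finset Complex Metric Filter
open scoped Classical

namespace Pool.Agent.MP_cb5fda_co.AA

namespace LB

lemma pow_diff (a b : ℂ) (r : ℝ) (ha : ‖a‖ ≤ r) (hb : ‖b‖ ≤ r) (n : ℕ) :
    ‖a ^ (n + 1) - b ^ (n + 1)‖ ≤ (n + 1) * ‖a - b‖ * r ^ n := by
  have hr : 0 ≤ r := le_trans (norm_nonneg _) ha
  induction n with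
  | zero => simp
  | succ n ih =>
    have e : a ^ (n + 1 + 1) - b ^ (n + 1 + 1) =
        a * (a ^ (n + 1) - b ^ (n + 1)) + (a - b) * b ^ (n + 1) := by ring
    have h1 : ‖a * (a ^ (n + 1) - b ^ (n + 1))‖ ≤ r * ((n + 1) * ‖a - b‖ * r ^ n) := by
      rw [norm_mul]
      exact mul_le_mul ha ih (norm_nonneg _) hr
    have h2 : ‖(a - b) * b ^ (n + 1)‖ ≤ ‖a - b‖ * r ^ (n + 1) := by
      rw [norm_mul, norm_pow]
      exact mul_le_mul_of_nonneg_left (pow_le_pow_left₀ (norm_nonneg _) hb _) (norm_nonneg _)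
    rw [e]
    refine le_trans (norm_add_le _ _) (le_trans (add_le_add h1 h2) (le_of_eq ?_))
    push_cast
    ring

lemma cube (σ t : ℝ) (hσ : 0 < σ) : |t| ^ 3 * Real.exp (-(σ ^ 2 / 2) * t ^ 2) ≤ 5 / σ ^ 3 := by
  set x : ℝ := σ ^ 2 / 2 * t ^ 2 with hx
  have hx0 : 0 ≤ x := by positivity
  have h1 : 1 + x + x ^ 2 / 2 ≤ Real.exp x := Real.quadratic_le_exp_of_nonneg hx0
  have hE : 0 < Real.exp x := Real.exp_pos x
  have e : Real.exp (-(σ ^ 2 / 2) * t ^ 2) = (Real.exp x)⁻¹ := by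
    rw [← Real.exp_neg, hx]; congr 1; ring
  rw [e, ← div_eq_mul_inv, div_le_div_iff₀ hE (by positivity)]
  set u : ℝ := |t| * σ with hu
  have hu0 : 0 ≤ u := by positivity
  have hux : u ^ 2 = 2 * x := by
    rw [hu, hx, mul_pow, sq_abs]; ring
  have e2 : |t| ^ 3 * σ ^ 3 = u ^ 3 := by rw [hu]; ring
  rw [e2]
  have h3 : u ^ 3 ≤ (u ^ 2 + u ^ 4) / 2 := by nlinarith [sq_nonneg (u * (u - 1))]
  have h4 : u ^ 4 = 4 * x ^ 2 := by
    have : u ^ 4 = (u ^ 2) ^ 2 := by ring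
    rw [this, hux]; ring
  nlinarith

lemma tail (σ t : ℝ) (hσ : 0 < σ) (ht : Real.pi ≤ |t|) :
    Real.exp (-(σ ^ 2 / 2) * t ^ 2) ≤ 1 / σ ^ 2 := by
  set x : ℝ := σ ^ 2 / 2 * t ^ 2 with hx
  have h1 : x + 1 ≤ Real.exp x := Real.add_one_le_exp x
  have hE : 0 < Real.exp x := Real.exp_pos x
  have e : Real.exp (-(σ ^ 2 / 2) * t ^ 2) = (Real.exp x)⁻¹ := by
    rw [← Real.exp_neg, hx]; congr 1; ring
  rw [e, ← one_div]
  apply one_div_le_one_div_of_le (by positivity)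
  have h2 : 2 ≤ t ^ 2 := by
    rw [← sq_abs]
    nlinarith [Real.pi_gt_three]
  have h3 : σ ^ 2 ≤ x := by
    rw [hx]; nlinarith [sq_nonneg σ]
  linarith

lemma gauss_le (b σ K : ℝ) (hσ : 0 < σ) (hK : 0 ≤ K) (hb : 0 < b) (h : 4 * σ ^ 2 ≤ K ^ 2 * b) :
    ∫ t : ℝ, Real.exp (-b * t ^ 2) ≤ K / σ := by
  rw [integral_gaussian]
  apply Real.sqrt_le_iff.2
  refine ⟨by positivity, ?_⟩
  rw [div_pow, div_le_div_iff₀ hb (by positivity)]
  nlinarith [Real.pi_le_four, sq_nonneg σ]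

lemma norm_E (a : ℂ) (c t : ℝ) (h : c ≤ a.re) : ‖exp (-a * t ^ 2)‖ ≤ Real.exp (-c * t ^ 2) := by
  rw [norm_cexp_neg_mul_sq]
  apply Real.exp_le_exp.2
  nlinarith [sq_nonneg t]

lemma main (w : ℝ → ℂ) (hw : Continuous w) (a : ℂ) (c M σ : ℝ) (hc : 0 < c) (hM : 0 ≤ M)
    (ha : c ≤ a.re) (m : ℕ) (hσ : 0 < σ) (hs : σ ^ 2 = c * m)
    (h : ∀ t : ℝ, |t| ≤ Real.pi → ‖w t‖ ≤ Real.exp (-c * t ^ 2) ∧
      ‖w t - exp (-a * t ^ 2)‖ ≤ M * |t| ^ 3) :
    ‖(∫ t in (-Real.pi)..Real.pi, w t ^ (m + 1)) -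
        ∫ t : ℝ, exp (-(((m + 1 : ℕ) : ℂ) * a) * t ^ 2)‖ ≤
      (5 * (m + 1) * M / σ ^ 3 + 1 / σ ^ 2) * (3 / σ) := by
  have hpi := Real.pi_pos
  have hre : c * (m + 1) ≤ (((m + 1 : ℕ) : ℂ) * a).re := by
    rw [← Complex.ofReal_natCast, Complex.re_ofReal_mul]
    push_cast
    nlinarith [(Nat.cast_nonneg m : (0 : ℝ) ≤ m)]
  have hre0 : 0 < (((m + 1 : ℕ) : ℂ) * a).re := lt_of_lt_of_le (by positivity) hre
  have hI1 : MeasureTheory.Integrable
      ((Set.Ioc (-Real.pi) Real.pi).indicator fun t => w t ^ (m + 1)) := by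
    rw [MeasureTheory.integrable_indicator_iff measurableSet_Ioc]
    exact (hw.pow _).integrableOn_Ioc
  have hI2 := integrable_cexp_neg_mul_sq hre0
  rw [intervalIntegral.integral_of_le (by linarith),
    ← MeasureTheory.integral_indicator measurableSet_Ioc,
    ← MeasureTheory.integral_sub hI1 hI2]
  have hb : 0 < σ ^ 2 / 2 := by positivity
  have hg : MeasureTheory.Integrable fun t : ℝ =>
      (5 * (m + 1) * M / σ ^ 3 + 1 / σ ^ 2) * Real.exp (-(σ ^ 2 / 2) * t ^ 2) :=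
    (integrable_exp_neg_mul_sq hb).const_mul _
  refine le_trans (MeasureTheory.norm_integral_le_of_norm_le hg
    (Filter.Eventually.of_forall fun t => ?_)) ?_
  · have hE : 0 < Real.exp (-(σ ^ 2 / 2) * t ^ 2) := Real.exp_pos _
    have hsq : Real.exp (-c * t ^ 2) ^ m =
        Real.exp (-(σ ^ 2 / 2) * t ^ 2) * Real.exp (-(σ ^ 2 / 2) * t ^ 2) := by
      rw [← Real.exp_nat_mul, ← Real.exp_add, hs]; congr 1; ring
    have e : exp (-(((m + 1 : ℕ) : ℂ) * a) * t ^ 2) = exp (-a * t ^ 2) ^ (m + 1) := by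
      rw [← Complex.exp_nat_mul]; congr 1; ring
    by_cases ht : t ∈ Set.Ioc (-Real.pi) Real.pi
    · rw [Set.indicator_of_mem ht, e]
      have hab : |t| ≤ Real.pi := abs_le.2 ⟨ht.1.le, ht.2⟩
      obtain ⟨h1, h2⟩ := h t hab
      refine le_trans (pow_diff _ _ _ h1 (norm_E a c t ha) m) ?_
      have h3 := cube σ t hσ
      rw [hsq]
      calc ((m : ℝ) + 1) * ‖w t - exp (-a * t ^ 2)‖ *
            (Real.exp (-(σ ^ 2 / 2) * t ^ 2) * Real.exp (-(σ ^ 2 / 2) * t ^ 2))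
          ≤ ((m : ℝ) + 1) * (M * |t| ^ 3) *
            (Real.exp (-(σ ^ 2 / 2) * t ^ 2) * Real.exp (-(σ ^ 2 / 2) * t ^ 2)) := by gcongr
        _ = ((m : ℝ) + 1) * M * (|t| ^ 3 * Real.exp (-(σ ^ 2 / 2) * t ^ 2)) *
            Real.exp (-(σ ^ 2 / 2) * t ^ 2) := by ring
        _ ≤ ((m : ℝ) + 1) * M * (5 / σ ^ 3) * Real.exp (-(σ ^ 2 / 2) * t ^ 2) := by gcongr
        _ = (5 * (m + 1) * M / σ ^ 3 + 0) * Real.exp (-(σ ^ 2 / 2) * t ^ 2) := by ring
        _ ≤ _ := by gcongr; positivity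
    · rw [Set.indicator_of_notMem ht, zero_sub, norm_neg, e, norm_pow]
      have hab : Real.pi ≤ |t| := by
        rw [Set.mem_Ioc, not_and_or, not_lt, not_le] at ht
        rcases ht with ht | ht
        · exact le_abs.2 (Or.inr (by linarith))
        · exact le_abs.2 (Or.inl ht.le)
      have h1 := norm_E a c t ha
      have h2 : Real.exp (-c * t ^ 2) ≤ 1 := by
        apply Real.exp_le_one_iff.2
        nlinarith [sq_nonneg t]
      have h3 := tail σ t hσ hab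
      calc ‖exp (-a * t ^ 2)‖ ^ (m + 1) ≤ Real.exp (-c * t ^ 2) ^ (m + 1) := by gcongr
        _ = Real.exp (-c * t ^ 2) ^ m * Real.exp (-c * t ^ 2) := pow_succ _ _
        _ ≤ Real.exp (-c * t ^ 2) ^ m * 1 := by gcongr
        _ = Real.exp (-(σ ^ 2 / 2) * t ^ 2) * Real.exp (-(σ ^ 2 / 2) * t ^ 2) := by
            rw [mul_one, hsq]
        _ ≤ 1 / σ ^ 2 * Real.exp (-(σ ^ 2 / 2) * t ^ 2) := by gcongr
        _ = (0 + 1 / σ ^ 2) * Real.exp (-(σ ^ 2 / 2) * t ^ 2) := by ring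
        _ ≤ _ := by gcongr; positivity
  · rw [MeasureTheory.integral_const_mul]
    have := gauss_le (σ ^ 2 / 2) σ 3 hσ (by norm_num) hb (by nlinarith [sq_nonneg σ])
    gcongr

lemma avg_eq (f : ℂ → ℂ) (z0 : ℂ) (hz : ‖z0‖ = 1) :
    Real.circleAverage f 0 1 =
      (2 * (Real.pi : ℂ))⁻¹ * ∫ t in (-Real.pi)..Real.pi, f (z0 * exp (t * I)) := by
  rw [Real.circleAverage_eq_integral_add (arg z0 - Real.pi)]
  have e : ∀ θ : ℝ, f (circleMap 0 1 (θ + (arg z0 - Real.pi))) =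
      (fun t : ℝ => f (z0 * exp (t * I))) (θ - Real.pi) := by
    intro θ
    have h0 : z0 = exp (arg z0 * I) := by
      have := Complex.norm_mul_exp_arg_mul_I z0
      rw [hz] at this
      simpa using this.symm
    have h1 : circleMap 0 1 (θ + (arg z0 - Real.pi)) =
        exp (arg z0 * I) * exp (((θ - Real.pi : ℝ) : ℂ) * I) := by
      rw [← Complex.exp_add]
      simp only [circleMap, Complex.ofReal_one, one_mul, zero_add]
      congr 1
      push_cast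
      ring
    rw [h1, ← h0]
  simp_rw [e]
  rw [intervalIntegral.integral_comp_sub_right (fun t : ℝ => f (z0 * exp (t * I))) Real.pi]
  have e1 : (0 : ℝ) - Real.pi = -Real.pi := by ring
  have e2 : 2 * Real.pi - Real.pi = Real.pi := by ring
  rw [e1, e2, Complex.real_smul]
  push_cast
  rfl

lemma cont (D : CD) (S : D.Soft) (z0 : ℂ) (hz : ‖z0‖ = 1) :
    Continuous fun t : ℝ => D.Om z0 (z0 * exp (t * I)) := by
  have hp : Continuous fun t : ℝ => z0 * exp (t * I) := by fun_prop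
  have hn : ∀ t : ℝ, ‖z0 * exp (t * I)‖ = 1 := fun t => by
    rw [norm_mul, hz, Complex.norm_exp_ofReal_mul_I, one_mul]
  have hm : ∀ t : ℝ, z0 * exp (t * I) ∈ closedBall (0 : ℂ) 1 := fun t => by
    rw [mem_closedBall_zero_iff, hn]
  have hG : Continuous fun t : ℝ => D.G (z0 * exp (t * I)) :=
    D.hG.continuousOn.comp_continuous hp hm
  have hg : Continuous fun t : ℝ => D.gam (z0 * exp (t * I)) :=
    S.agam.continuousOn.comp_continuous hp hm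
  unfold CD.Om
  refine Continuous.div (by fun_prop) hg fun t => ?_
  refine mul_ne_zero ?_ (D.R_ne _ (hm t))
  intro h0
  have := hn t
  rw [h0, norm_zero] at this
  exact zero_ne_one this

lemma fin_est (c M σ B ε x δ j : ℝ) (hc : 0 < c) (hM : 0 ≤ M) (hσ : 1 ≤ σ) (hB : 0 ≤ B)
    (hx : 0 < x) (h1 : c * x ≤ 2 * σ ^ 2) (h2 : σ ^ 2 ≤ c * x) (hδ0 : 0 ≤ δ)
    (hδ : δ ≤ (5 * x * M / σ ^ 3 + 1 / σ ^ 2) * (3 / σ)) (hj0 : 0 ≤ j) (hj : j ≤ 2 / σ)
    (hε : B * (60 * M / c ^ 2 + 6 / c) * (4 + c * (60 * M / c ^ 2 + 6 / c)) ≤ ε * σ) :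
    x * B * (δ * (δ + 2 * j)) ≤ ε := by
  have hσ0 : 0 < σ := by linarith
  set K : ℝ := 60 * M / c ^ 2 + 6 / c with hK
  have hK0 : 0 ≤ K := by positivity
  have hx1 : x / σ ^ 2 ≤ 2 / c := by
    rw [div_le_div_iff₀ (by positivity) hc]; linarith
  have hx0 : 0 ≤ x / σ ^ 2 := by positivity
  have hi : 1 / σ ≤ 1 := by rw [div_le_one hσ0]; exact hσ
  have h3 : x * δ ≤ K := by
    calc x * δ ≤ x * ((5 * x * M / σ ^ 3 + 1 / σ ^ 2) * (3 / σ)) := by gcongr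
      _ = 15 * M * (x / σ ^ 2) ^ 2 + 3 * (x / σ ^ 2) * (1 / σ) := by field_simp; ring
      _ ≤ 15 * M * (2 / c) ^ 2 + 3 * (2 / c) * 1 := by gcongr
      _ = K := by rw [hK]; field_simp; ring
  have h4 : δ ≤ c * K / σ := by
    rw [le_div_iff₀ hσ0]
    have h5 : σ ≤ c * x := by nlinarith
    calc δ * σ ≤ δ * (c * x) := by gcongr
      _ = c * (x * δ) := by ring
      _ ≤ c * K := by gcongr
  calc x * B * (δ * (δ + 2 * j)) = B * (x * δ) * (δ + 2 * j) := by ring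
    _ ≤ B * K * (c * K / σ + 2 * (2 / σ)) := by gcongr
    _ = B * K * (4 + c * K) / σ := by field_simp; ring
    _ ≤ ε := by rw [div_le_iff₀ hσ0]; exact hε

end LB

theorem lbS (hS : SOStmt) : LBStmt := by
  intro D hQ ε hε
  obtain ⟨c, M, hc, hQ⟩ := hQ
  have S := hS D
  obtain ⟨B, hB⟩ := (isCompact_closedBall (0 : ℂ) 1).exists_bound_of_continuousOn
    S.aal.continuousOn
  have hB0 : 0 ≤ B := le_trans (norm_nonneg _) (hB 0 (by simp))
  set T : ℝ := B * (60 * |M| / c ^ 2 + 6 / c) * (4 + c * (60 * |M| / c ^ 2 + 6 / c)) / ε + 1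
    with hT
  have hT1 : 1 ≤ T := by
    rw [hT]
    have : 0 ≤ B * (60 * |M| / c ^ 2 + 6 / c) * (4 + c * (60 * |M| / c ^ 2 + 6 / c)) / ε := by
      positivity
    linarith
  obtain ⟨N, hN⟩ := exists_nat_ge (T ^ 2 / c)
  filter_upwards [eventually_ge_atTop (N + 2)] with n hn z0 hz
  obtain ⟨m, rfl⟩ : ∃ m, n = m + 1 := ⟨n - 1, by omega⟩
  have hm1 : (1 : ℝ) ≤ m := by exact_mod_cast (by omega : 1 ≤ m)
  have hmN : (N : ℝ) ≤ m := by exact_mod_cast (by omega : N ≤ m)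
  set σ : ℝ := √(c * m) with hσ
  have hs : σ ^ 2 = c * m := Real.sq_sqrt (by positivity)
  have hTσ : T ≤ σ := by
    apply Real.le_sqrt_of_sq_le
    rw [div_le_iff₀ hc] at hN
    nlinarith
  have hσ1 : 1 ≤ σ := le_trans hT1 hTσ
  have hσ0 : 0 < σ := by linarith
  obtain ⟨ha, hq⟩ := hQ z0 hz
  have key := LB.main _ (LB.cont D S z0 hz) (D.al z0) c |M| σ hc (abs_nonneg M) ha m hσ0 hs
    (fun t ht => ⟨(hq t ht).1, le_trans (hq t ht).2 (by gcongr; exact le_abs_self M)⟩)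
  have hre : c * (m + 1) ≤ (((m + 1 : ℕ) : ℂ) * D.al z0).re := by
    rw [← Complex.ofReal_natCast, Complex.re_ofReal_mul]
    push_cast
    nlinarith
  have hre0 : 0 < (((m + 1 : ℕ) : ℂ) * D.al z0).re := lt_of_lt_of_le (by positivity) hre
  have hJ2 := integral_gaussian_sq_complex hre0
  have hJ : ‖∫ t : ℝ, exp (-(((m + 1 : ℕ) : ℂ) * D.al z0) * t ^ 2)‖ ≤ 2 / σ := by
    refine le_trans (MeasureTheory.norm_integral_le_integral_norm _) ?_
    simp_rw [norm_cexp_neg_mul_sq]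
    exact LB.gauss_le _ σ 2 hσ0 (by norm_num) hre0 (by nlinarith)
  rw [LB.avg_eq (fun z => D.Om z0 z ^ (m + 1)) z0 hz]
  set A : ℂ := ∫ t in (-Real.pi)..Real.pi, D.Om z0 (z0 * exp (t * I)) ^ (m + 1) with hA
  set J : ℂ := ∫ t : ℝ, exp (-(((m + 1 : ℕ) : ℂ) * D.al z0) * t ^ 2) with hJd
  have hne : ((m + 1 : ℕ) : ℂ) * D.al z0 ≠ 0 := by
    intro h0
    rw [h0] at hre0
    simp at hre0
  have hpi : (Real.pi : ℂ) ≠ 0 := by exact_mod_cast Real.pi_ne_zero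
  have e1 : ((m + 1 : ℕ) : ℂ) * D.al z0 * J ^ 2 = Real.pi := by
    rw [hJ2]; exact mul_div_cancel₀ _ hne
  have e : ((m + 1 : ℕ) : ℂ) * ((2 * (Real.pi : ℂ))⁻¹ * A) ^ 2 * (4 * Real.pi * D.al z0) - 1 =
      ((m + 1 : ℕ) : ℂ) * (D.al z0 / Real.pi) * ((A - J) * ((A - J) + 2 * J)) := by
    field_simp
    linear_combination 4 * e1
  rw [e, norm_mul, norm_mul, norm_mul, Complex.norm_natCast]
  have h1 : ‖D.al z0 / Real.pi‖ ≤ B := by
    rw [norm_div, Complex.norm_real, Real.norm_of_nonneg Real.pi_pos.le]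
    refine le_trans (div_le_self (norm_nonneg _) (by linarith [Real.pi_gt_three])) ?_
    exact hB z0 (by rw [mem_closedBall_zero_iff, hz])
  have h2 : ‖(A - J) + 2 * J‖ ≤ ‖A - J‖ + 2 * ‖J‖ := by
    refine le_trans (norm_add_le _ _) (le_of_eq ?_)
    rw [norm_mul]; simp
  have h3 := LB.fin_est c |M| σ B ε ((m : ℝ) + 1) ‖A - J‖ ‖J‖ hc (abs_nonneg M) hσ1 hB0
    (by positivity) (by nlinarith) (by nlinarith) (norm_nonneg _) key (norm_nonneg _) hJ (by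
      have h4 : B * (60 * |M| / c ^ 2 + 6 / c) * (4 + c * (60 * |M| / c ^ 2 + 6 / c)) / ε ≤ σ := by
        linarith
      rw [div_le_iff₀ hε] at h4
      linarith)
  refine le_trans ?_ h3
  push_cast
  gcongr

end Pool.Agent.MP_cb5fda_co.AA
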