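import Pool.Agent.MP_cb5fda_co.AA.Spec

/-! Lower bound for the saddle integral and absence of zeros for the empty list. -/

noncomputable section
open Finset Complex Metric Filter
open scoped Classical

namespace Pool.Agent.MP_cb5fda_co.AA

namespace LO

theorem lip {g : ℂ → ℂ} (hg : AnalyticOnNhd ℂ g (closedBall 0 1)) :
    ∃ K : ℝ, 0 < K ∧ ∀ z ∈ closedBall (0 : ℂ) 1, ∀ w ∈ closedBall (0 : ℂ) 1,
      ‖g z - g w‖ ≤ K * ‖z - w‖ := by
  obtain ⟨K, hK⟩ := (isCompact_closedBall (0 : ℂ) 1).exists_bound_of_continuousOn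
    hg.deriv.continuousOn
  refine ⟨|K| + 1, by positivity, fun z hz w hw => ?_⟩
  refine Convex.norm_image_sub_le_of_norm_deriv_le (𝕜 := ℂ)
    (fun x hx => (hg x hx).differentiableAt) (fun x hx => ?_) (convex_closedBall 0 1) hw hz
  linarith [hK x hx, le_abs_self K]

theorem bdd {g : ℂ → ℂ} (hg : AnalyticOnNhd ℂ g (closedBall 0 1)) :
    ∃ A : ℝ, 0 < A ∧ ∀ z ∈ closedBall (0 : ℂ) 1, ‖g z‖ ≤ A := by
  obtain ⟨K, hK⟩ := (isCompact_closedBall (0 : ℂ) 1).exists_bound_of_continuousOn hg.continuousOn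
  exact ⟨|K| + 1, by positivity, fun z hz => by linarith [hK z hz, le_abs_self K]⟩

theorem norm_avg_le {f : ℂ → ℂ} {g : ℂ → ℝ} (hg : CircleIntegrable g 0 1)
    (h : ∀ z : ℂ, ‖z‖ = 1 → ‖f z‖ ≤ g z) :
    ‖Real.circleAverage f 0 1‖ ≤ Real.circleAverage g 0 1 := by
  rw [Real.circleAverage_def, Real.circleAverage_def, norm_smul, smul_eq_mul,
    Real.norm_of_nonneg (by positivity)]
  refine mul_le_mul_of_nonneg_left ?_ (by positivity)
  refine intervalIntegral.norm_integral_le_of_norm_le (by positivity)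
    (Eventually.of_forall fun t _ => h _ (by simp)) hg

theorem mem_ball {z : ℂ} (hz : ‖z‖ = 1) : z ∈ closedBall (0 : ℂ) 1 := by simp [hz]

theorem ne_zero {z : ℂ} (hz : ‖z‖ = 1) : z ≠ 0 := by
  rintro rfl
  simp at hz

theorem gam_ne (D : CD) {z : ℂ} (hz : ‖z‖ = 1) : D.gam z ≠ 0 :=
  mul_ne_zero (ne_zero hz) (D.R_ne z (mem_ball hz))

theorem om_cont (D : CD) (hS : D.Soft) (z0 : ℂ) : ContinuousOn (D.Om z0) (sphere 0 1) := by
  have h1 : ContinuousOn D.G (sphere 0 1) := D.hG.continuousOn.mono sphere_subset_closedBall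
  have h2 : ContinuousOn D.gam (sphere 0 1) := hS.agam.continuousOn.mono sphere_subset_closedBall
  refine ContinuousOn.div (ContinuousOn.mul ?_ continuousOn_const) h2
    fun z hz => gam_ne D (by simpa using hz)
  exact (continuousOn_const.mul (h1.sub continuousOn_const)).cexp

theorem aW (D : CD) (hS : D.Soft) :
    AnalyticOnNhd ℂ (fun z => 4 * Real.pi * D.al z / D.L1 z ^ 2) (closedBall 0 1) :=
  fun z hz => (analyticAt_const.mul (hS.aal z hz)).div ((hS.aL1 z hz).pow 2)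
    (pow_ne_zero 2 (hS.L1_ne z hz))

theorem small (a : ℝ) : ∀ᶠ n : ℕ in atTop, 1 ≤ n ∧ a / √n ≤ 1 / 4 := by
  have h1 : Tendsto (fun n : ℕ => √(n : ℝ)) atTop atTop :=
    Real.tendsto_sqrt_atTop.comp tendsto_natCast_atTop_atTop
  have h2 : Tendsto (fun n : ℕ => a / √(n : ℝ)) atTop (nhds 0) := h1.const_div_atTop a
  exact (eventually_ge_atTop 1).and (h2.eventually (ge_mem_nhds (by norm_num)))

theorem low2 (D : CD) (hS : D.Soft) (hA : D.LapA) (hB : D.LapB) :
    ∀ᶠ n : ℕ in atTop, ∀ z0 : ℂ, ‖z0‖ = 1 →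
      ‖(n : ℂ) * Real.circleAverage (fun z => D.Om z0 z ^ n * D.L1 z) 0 1 ^ 2 *
        (4 * Real.pi * D.al z0 / D.L1 z0 ^ 2) - 1‖ ≤ 1 / 2 := by
  obtain ⟨B, hA⟩ := hA
  obtain ⟨K, K0, hK⟩ := lip hS.aL1
  obtain ⟨W, W0, hW⟩ := bdd (aW D hS)
  obtain ⟨M, M0, hM⟩ := bdd hS.aL1
  filter_upwards [hB (1 / 4) (by norm_num), small ((2 * M * |B| + K * |B|) * (K * |B|) * W)]
    with n h1 h2 z0 hz
  obtain ⟨hn, h2⟩ := h2
  obtain ⟨a1, a2⟩ := hA n hn z0 hz
  have c1 : ContinuousOn (fun z => D.Om z0 z ^ n) (sphere 0 1) := (om_cont D hS z0).pow n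
  have c2 : ContinuousOn D.L1 (sphere 0 1) := hS.aL1.continuousOn.mono sphere_subset_closedBall
  have c3 : ContinuousOn (fun z => ‖D.Om z0 z‖ ^ n) (sphere 0 1) := (om_cont D hS z0).norm.pow n
  have c4 : ContinuousOn (fun z => ‖D.Om z0 z‖ ^ n * ‖z - z0‖) (sphere 0 1) :=
    c3.mul (continuousOn_id.sub continuousOn_const).norm
  set I0 := Real.circleAverage (fun z => D.Om z0 z ^ n) 0 1 with hI
  set δ := Real.circleAverage (fun z => D.Om z0 z ^ n * (D.L1 z - D.L1 z0)) 0 1 with hδ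
  have eJ : Real.circleAverage (fun z => D.Om z0 z ^ n * D.L1 z) 0 1 = D.L1 z0 * I0 + δ := by
    have c5 : ContinuousOn (fun z => D.L1 z0 • D.Om z0 z ^ n) (sphere 0 1) :=
      c1.const_smul (D.L1 z0)
    have c6 : ContinuousOn (fun z => D.Om z0 z ^ n * (D.L1 z - D.L1 z0)) (sphere 0 1) :=
      c1.mul (c2.sub continuousOn_const)
    rw [hI, hδ, ← smul_eq_mul (D.L1 z0), ← Real.circleAverage_fun_smul,
      ← Real.circleAverage_fun_add (c5.circleIntegrable zero_le_one)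
        (c6.circleIntegrable zero_le_one)]
    congr 1
    funext z
    rw [smul_eq_mul]
    ring
  have n0 : (0 : ℝ) < n := by exact_mod_cast hn
  have s0 : 0 < √(n : ℝ) := Real.sqrt_pos.2 n0
  have s1 : 1 ≤ √(n : ℝ) := Real.one_le_sqrt.2 (by exact_mod_cast hn)
  have s2 : √(n : ℝ) * √(n : ℝ) = n := Real.mul_self_sqrt n0.le
  have bI : ‖I0‖ ≤ |B| / √n := by
    refine (norm_avg_le (c3.circleIntegrable zero_le_one) fun z _ => (norm_pow _ _).le).trans
      (a1.trans ?_)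
    exact div_le_div_of_nonneg_right (le_abs_self B) s0.le
  have bδ : ‖δ‖ ≤ K * |B| / n := by
    refine (norm_avg_le (g := fun z => K • (‖D.Om z0 z‖ ^ n * ‖z - z0‖))
      ((c4.const_smul K).circleIntegrable zero_le_one) fun z hz' => ?_).trans ?_
    · rw [norm_mul, norm_pow, smul_eq_mul, mul_left_comm]
      exact mul_le_mul_of_nonneg_left (hK z (mem_ball hz') z0 (mem_ball hz)) (by positivity)
    · rw [Real.circleAverage_fun_smul, smul_eq_mul, mul_div_assoc]
      exact mul_le_mul_of_nonneg_left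
        (a2.trans (div_le_div_of_nonneg_right (le_abs_self B) n0.le)) K0.le
  have l0 := hS.L1_ne z0 (mem_ball hz)
  have e : (n : ℂ) * (D.L1 z0 * I0 + δ) ^ 2 * (4 * Real.pi * D.al z0 / D.L1 z0 ^ 2) - 1 =
      ((n : ℂ) * I0 ^ 2 * (4 * Real.pi * D.al z0) - 1) +
        (2 * D.L1 z0 * I0 + δ) * ((n : ℂ) * δ) * (4 * Real.pi * D.al z0 / D.L1 z0 ^ 2) := by
    field_simp
    ring
  rw [eJ, e]
  have b1 : ‖2 * D.L1 z0 * I0 + δ‖ ≤ (2 * M * |B| + K * |B|) / √n := by
    refine (norm_add_le _ _).trans ?_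
    rw [add_div, norm_mul, norm_mul, Complex.norm_two, mul_div_assoc (2 * M)]
    refine add_le_add (mul_le_mul (by linarith [hM z0 (mem_ball hz)]) bI (norm_nonneg _)
      (by positivity)) (bδ.trans ?_)
    exact div_le_div_of_nonneg_left (by positivity) s0 (by nlinarith)
  have b2 : ‖(n : ℂ) * δ‖ ≤ K * |B| := by
    rw [norm_mul, Complex.norm_natCast, mul_comm]
    exact (le_div_iff₀ n0).1 bδ
  have b3 : ‖(2 * D.L1 z0 * I0 + δ) * ((n : ℂ) * δ) * (4 * Real.pi * D.al z0 / D.L1 z0 ^ 2)‖ ≤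
      1 / 4 := by
    refine le_trans ?_ h2
    rw [norm_mul, norm_mul, mul_div_right_comm _ W, mul_div_right_comm _ (K * |B|)]
    exact mul_le_mul (mul_le_mul b1 b2 (norm_nonneg _) (by positivity)) (hW z0 (mem_ball hz))
      (norm_nonneg _) (by positivity)
  linarith [norm_add_le ((n : ℂ) * I0 ^ 2 * (4 * Real.pi * D.al z0) - 1)
    ((2 * D.L1 z0 * I0 + δ) * ((n : ℂ) * δ) * (4 * Real.pi * D.al z0 / D.L1 z0 ^ 2)), h1 z0 hz]

theorem form0 (D : CD) (hF : D.Form) (n : ℕ) {z0 : ℂ} (hz : ‖z0‖ = 1) :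
    cw (n * D.tau z0) (pad n []) = (n.factorial : ℂ) *
      (exp (n * D.tau z0 * D.G z0) / D.gam z0 ^ n) *
        Real.circleAverage (fun z => D.Om z0 z ^ n * D.L1 z) 0 1 := by
  rw [hF n [] (by simp) z0 hz]
  simp [TT, cwG, pf]

end LO

open LO in
theorem loS (hS : SOStmt) : LOStmt := by
  intro D hA hB
  have h2 := low2 D (hS D) hA hB
  refine ⟨?_, h2⟩
  obtain ⟨W, W0, hW⟩ := bdd (aW D (hS D))
  refine ⟨1 / √(2 * W), by positivity, ?_⟩
  filter_upwards [h2, eventually_ge_atTop 1] with n h hn z0 hz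
  have h := h z0 hz
  set J := Real.circleAverage (fun z => D.Om z0 z ^ n * D.L1 z) 0 1
  have n0 : (0 : ℝ) < n := by exact_mod_cast hn
  have a1 : 1 / 2 ≤ ‖(n : ℂ) * J ^ 2 * (4 * Real.pi * D.al z0 / D.L1 z0 ^ 2)‖ := by
    have := norm_sub_norm_le (1 : ℂ) ((n : ℂ) * J ^ 2 * (4 * Real.pi * D.al z0 / D.L1 z0 ^ 2))
    rw [norm_sub_rev, norm_one] at this
    linarith
  rw [norm_mul, norm_mul, norm_pow, Complex.norm_natCast] at a1
  have a2 : 1 / 2 ≤ n * ‖J‖ ^ 2 * W :=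
    a1.trans (mul_le_mul_of_nonneg_left (hW z0 (mem_ball hz)) (by positivity))
  rw [div_div, ← Real.sqrt_mul (by positivity), div_le_iff₀ (by positivity),
    ← Real.sqrt_sq (norm_nonneg J), ← Real.sqrt_mul (by positivity), Real.one_le_sqrt]
  linarith

open LO in
theorem r0S (hS : SOStmt) (hO : FOStmt) : R0Stmt := by
  intro D hL
  have S := hS D
  have hF := hO.2 D
  obtain ⟨E, aE, hE⟩ := S.exE
  constructor
  · filter_upwards [hL.2] with n h p hp hq z hz h0
    have f0 : (n.factorial : ℂ) ≠ 0 := by exact_mod_cast n.factorial_ne_zero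
    have aU : AnalyticOnNhd ℂ (fun z => (n : ℂ) *
        (D.hom n p z / ((n.factorial : ℂ) * exp (n * E z))) ^ 2 *
        (4 * Real.pi * D.al z / D.L1 z ^ 2) - 1) (closedBall 0 1) := fun z hz =>
      ((analyticAt_const.mul (((S.ahom n p z hz).div
        (analyticAt_const.mul (analyticAt_const.mul (aE z hz)).cexp)
        (mul_ne_zero f0 (exp_ne_zero _))).pow 2)).mul (aW D S z hz)).sub analyticAt_const
    have dU := aU.differentiableOn
    rw [← closure_ball (0 : ℂ) one_ne_zero] at dU hz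
    have key := Complex.norm_le_of_forall_mem_frontier_norm_le isBounded_ball dU.diffContOnCl
      (C := 1 / 2) (fun w hw => ?_) hz
    · rw [h0] at key
      norm_num at key
    · rw [frontier_ball (0 : ℂ) one_ne_zero] at hw
      have hw : ‖w‖ = 1 := by simpa using hw
      have e : D.hom n p w / ((n.factorial : ℂ) * exp (n * E w)) =
          Real.circleAverage (fun z => D.Om w z ^ n * D.L1 z) 0 1 := by
        have g0 := gam_ne D hw
        rw [S.hom_eq n p hp w (ne_zero hw) (D.R_ne w (mem_ball hw)), hq, form0 D hF n hw,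
          hE w (mem_ball hw) (ne_zero hw), mul_assoc (n : ℂ)]
        field_simp
      rw [e]
      exact h w hw
  · filter_upwards [hL.2] with n h z hz
    have f0 : (n.factorial : ℂ) ≠ 0 := by exact_mod_cast n.factorial_ne_zero
    rw [form0 D hF n hz]
    refine mul_ne_zero (mul_ne_zero f0 (div_ne_zero (exp_ne_zero _)
      (pow_ne_zero _ (gam_ne D hz)))) fun h0 => ?_
    have := h z hz
    rw [h0] at this
    norm_num at this

end Pool.Agent.MP_cb5fda_co.AA
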