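import Pool.Agent.MP_cb5fda_co.AA.Spec

/-! Quadratic decay along the circle. -/

noncomputable section
open Finset Complex Metric Filter
open scoped Classical

namespace Pool.Agent.MP_cb5fda_co.AA

namespace QU

lemma lip {f : ℂ → ℂ} (hf : AnalyticOnNhd ℂ f (closedBall 0 1)) : ∃ K : ℝ, 0 ≤ K ∧
    ∀ x ∈ closedBall (0 : ℂ) 1, ∀ y ∈ closedBall (0 : ℂ) 1, ‖f y - f x‖ ≤ K * ‖y - x‖ := by
  obtain ⟨K, hK⟩ := (isCompact_closedBall (0 : ℂ) 1).exists_bound_of_continuousOn hf.deriv.continuousOn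
  exact ⟨K, (norm_nonneg _).trans (hK 0 (by simp)), fun x hx y hy =>
    (convex_closedBall 0 1).norm_image_sub_le_of_norm_deriv_le
      (fun z hz => (hf z hz).differentiableAt) hK hx hy⟩

lemma mv {f f' : ℝ → ℂ} (hf : ∀ s, HasDerivAt f (f' s) s) {t C : ℝ}
    (hb : ∀ s, |s| ≤ |t| → ‖f' s‖ ≤ C) : ‖f t - f 0‖ ≤ C * |t| := by
  have := (convex_closedBall (0 : ℝ) |t|).norm_image_sub_le_of_norm_hasDerivWithin_le
    (fun s _ => (hf s).hasDerivWithinAt) (fun s hs => hb s (by simpa using hs))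
    (show 0 ∈ closedBall (0 : ℝ) |t| by simp) (show t ∈ closedBall (0 : ℝ) |t| by simp)
  simpa using this

lemma norm_z {z0 : ℂ} (h : ‖z0‖ = 1) (t : ℝ) : ‖z0 * exp (t * I)‖ = 1 := by
  rw [norm_mul, h, norm_exp_ofReal_mul_I, one_mul]

lemma mem_ball {z : ℂ} (h : ‖z‖ = 1) : z ∈ closedBall (0 : ℂ) 1 := by simp [h]

lemma ne0 {z : ℂ} (h : ‖z‖ = 1) : z ≠ 0 := norm_ne_zero_iff.1 (h ▸ one_ne_zero)

lemma dist_z {z0 : ℂ} (h : ‖z0‖ = 1) (t : ℝ) : ‖z0 * exp (t * I) - z0‖ ≤ |t| := by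
  rw [← mul_sub_one, norm_mul, h, one_mul, mul_comm]
  exact Real.norm_exp_I_mul_ofReal_sub_one_le

lemma z_ne {z0 : ℂ} (h : ‖z0‖ = 1) {t : ℝ} (h0 : 0 < |t|) (h1 : |t| ≤ Real.pi) :
    z0 * exp (t * I) ≠ z0 := fun e => by
  have e1 : exp (t * I) = 1 := mul_left_cancel₀ (ne0 h) (e.trans (mul_one _).symm)
  have e2 : Real.cos t = 1 := by simpa using congrArg re e1
  have := abs_le.1 h1
  have := Real.pi_pos
  exact abs_pos.1 h0 ((Real.cos_eq_one_iff_of_lt_of_lt (by linarith) (by linarith)).1 e2)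

lemma dz {f : ℂ → ℂ} {f' z0 : ℂ} {t : ℝ} (h : HasDerivAt f f' (z0 * exp (t * I))) :
    HasDerivAt (fun s : ℝ => f (z0 * exp (s * I))) (f' * (z0 * exp (t * I) * I)) t := by
  have a : HasDerivAt (fun s : ℂ => z0 * exp (s * I)) (z0 * exp (t * I) * I) t := by
    simpa [mul_assoc] using (((hasDerivAt_id (t : ℂ)).mul_const I).cexp).const_mul z0
  exact (h.comp (t : ℂ) a).comp_ofReal

variable {D : CD}

lemma gam_ne {z : ℂ} (h : ‖z‖ = 1) : D.gam z ≠ 0 := mul_ne_zero (ne0 h) (D.R_ne z (mem_ball h))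

lemma tau_G1 {z : ℂ} (h : ‖z‖ = 1) : D.tau z * D.G1 z = D.L1 z := by
  have a := ne0 h
  have b : deriv D.G z ≠ 0 := fun e => by simpa [e] using D.dG_re z (mem_ball h)
  rw [CD.tau, CD.phi, CD.G1]
  field_simp

lemma om_self {z : ℂ} (h : ‖z‖ = 1) : D.Om z z = 1 := by
  rw [CD.Om, sub_self, mul_zero, exp_zero, one_mul, div_self (gam_ne h)]

lemma dOm (S : D.Soft) (z0 : ℂ) {z : ℂ} (h : ‖z‖ = 1) :
    HasDerivAt (D.Om z0) (D.Om z0 z * (D.tau z0 * D.G1 z - D.L1 z) / z) z := by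
  have a := (D.hG z (mem_ball h)).differentiableAt.hasDerivAt
  have b := ((((a.sub_const (D.G z0)).const_mul (D.tau z0)).cexp).mul_const (D.gam z0)).div
    (S.dgam z (mem_ball h)) (gam_ne h)
  refine b.congr_deriv ?_
  have c := ne0 h
  have d := D.R_ne z (mem_ball h)
  simp only [CD.Om, CD.G1, CD.gam]
  field_simp

lemma contOm (S : D.Soft) {p : ℂ × ℝ} (h : ‖p.1‖ = 1) :
    ContinuousAt (fun p : ℂ × ℝ => D.Om p.1 (p.1 * exp (p.2 * I))) p := by
  have hz : ContinuousAt (fun p : ℂ × ℝ => p.1 * exp (p.2 * I)) p := by fun_prop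
  have m0 := mem_ball h
  have m1 := mem_ball (norm_z h p.2)
  have a1 : ContinuousAt (fun p : ℂ × ℝ => D.tau p.1) p :=
    ((S.aphi _ m0).continuousAt.comp continuousAt_fst).div continuousAt_fst (ne0 h)
  have a2 := ContinuousAt.comp (f := fun p : ℂ × ℝ => p.1 * exp (p.2 * I)) (D.hG _ m1).continuousAt hz
  have a3 := (D.hG _ m0).continuousAt.comp continuousAt_fst
  have a4 := (S.agam _ m0).continuousAt.comp continuousAt_fst
  have a5 := ContinuousAt.comp (f := fun p : ℂ × ℝ => p.1 * exp (p.2 * I)) (S.agam _ m1).continuousAt hz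
  exact ((a1.mul (a2.sub a3)).cexp.mul a4).div a5 (gam_ne (norm_z h p.2))

/-- The logarithmic derivative up to second order. -/
lemma logd (S : D.Soft) : ∃ C : ℝ, 0 ≤ C ∧ ∀ z0 : ℂ, ‖z0‖ = 1 → ∀ t : ℝ,
    ‖(D.tau z0 * D.G1 (z0 * exp (t * I)) - D.L1 (z0 * exp (t * I))) * I + 2 * D.al z0 * t‖ ≤
      C * t ^ 2 := by
  obtain ⟨K, K0, hK⟩ := lip (f := fun z => D.G1 z * D.om z)
    ((analyticOnNhd_id.mul D.hG.deriv).mul S.aom)
  obtain ⟨K', K0', hK'⟩ := lip S.aL2
  obtain ⟨T, hT⟩ := (isCompact_closedBall (0 : ℂ) 1).exists_bound_of_continuousOn S.aphi.continuousOn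
  have T0 : 0 ≤ T := (norm_nonneg _).trans (hT 0 (by simp))
  refine ⟨T * K + K', by positivity, fun z0 h t => ?_⟩
  have t0 : ‖D.tau z0‖ ≤ T := by rw [CD.tau, norm_div, h, div_one]; exact hT _ (mem_ball h)
  have := mv (f := fun s : ℝ => (D.tau z0 * D.G1 (z0 * exp (s * I)) - D.L1 (z0 * exp (s * I))) * I +
      2 * D.al z0 * s)
    (f' := fun s => (D.L2 (z0 * exp (s * I)) - D.L2 z0) -
      D.tau z0 * (D.G1 (z0 * exp (s * I)) * D.om (z0 * exp (s * I)) - D.G1 z0 * D.om z0))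
    (t := t) (C := (T * K + K') * |t|) (fun s => by
      have m := mem_ball (norm_z h s)
      have a := ((((dz (S.dG1 _ m)).const_mul (D.tau z0)).sub
        (dz (S.aL1 _ m).differentiableAt.hasDerivAt)).mul_const I).add
        ((hasDerivAt_id (s : ℂ)).comp_ofReal.const_mul (2 * D.al z0))
      refine a.congr_deriv ?_
      have e := tau_G1 (D := D) h
      have e2 : D.L2 (z0 * exp (s * I)) = z0 * exp (s * I) * deriv D.L1 (z0 * exp (s * I)) := rfl
      rw [e2, CD.al, ← e]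
      simp only [CD.G1]
      linear_combination (D.tau z0 * (deriv D.G (z0 * exp (s * I)) * D.om (z0 * exp (s * I)) *
        (z0 * exp (s * I))) - deriv D.L1 (z0 * exp (s * I)) * (z0 * exp (s * I))) * I_mul_I)
    (fun s hs => by
      have m := mem_ball (norm_z h s)
      have d := (dist_z h s).trans hs
      have a := (hK _ (mem_ball h) _ m).trans (mul_le_mul_of_nonneg_left d K0)
      have b := (hK' _ (mem_ball h) _ m).trans (mul_le_mul_of_nonneg_left d K0')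
      refine (norm_sub_le _ _).trans ?_
      rw [norm_mul]
      have := mul_le_mul t0 a (norm_nonneg _) T0
      linarith)
  simp only [ofReal_zero, zero_mul, exp_zero, mul_one, mul_zero, add_zero, tau_G1 h, sub_self,
    sub_zero] at this
  rwa [mul_assoc (T * K + K'), abs_mul_abs_self, ← sq] at this

lemma norm_gauss (a : ℂ) (t : ℝ) : ‖exp (a * t ^ 2)‖ = Real.exp (a.re * t ^ 2) := by
  rw [norm_exp, ← ofReal_pow, re_mul_ofReal]

/-- The normalised function is close to one. -/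
lemma near (S : D.Soft) (hD : D.Desc) : ∃ M : ℝ, 0 ≤ M ∧ ∀ z0 : ℂ, ‖z0‖ = 1 → ∀ t : ℝ,
    |t| ≤ Real.pi → ‖D.Om z0 (z0 * exp (t * I)) * exp (D.al z0 * t ^ 2) - 1‖ ≤ M * |t| ^ 3 := by
  obtain ⟨C, C0, hC⟩ := logd S
  obtain ⟨A, hA⟩ := (isCompact_closedBall (0 : ℂ) 1).exists_bound_of_continuousOn S.aal.continuousOn
  have A0 : 0 ≤ A := (norm_nonneg _).trans (hA 0 (by simp))
  refine ⟨Real.exp (A * Real.pi ^ 2) * C, by positivity, fun z0 h t ht => ?_⟩
  have := mv (f := fun s : ℝ => D.Om z0 (z0 * exp (s * I)) * exp (D.al z0 * s ^ 2))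
    (f' := fun s => D.Om z0 (z0 * exp (s * I)) * exp (D.al z0 * s ^ 2) *
      ((D.tau z0 * D.G1 (z0 * exp (s * I)) - D.L1 (z0 * exp (s * I))) * I + 2 * D.al z0 * s))
    (t := t) (C := Real.exp (A * Real.pi ^ 2) * C * |t| ^ 2) (fun s => by
      have a := (dz (dOm S z0 (norm_z h s))).mul
        (((hasDerivAt_pow 2 (s : ℂ)).const_mul (D.al z0)).cexp.comp_ofReal)
      refine a.congr_deriv ?_
      have := ne0 (norm_z h s)
      generalize z0 * exp (s * I) = z at this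
      field_simp
      ring)
    (fun s hs => by
      have a : ‖D.Om z0 (z0 * exp (s * I))‖ ≤ 1 := by
        by_cases e : z0 * exp (s * I) = z0
        · rw [e, om_self h, norm_one]
        · exact ((hD z0 h).2 _ (norm_z h s) e).le
      have s2 : s ^ 2 ≤ |t| ^ 2 := by rw [← sq_abs s]; gcongr
      have s3 : s ^ 2 ≤ Real.pi ^ 2 := s2.trans (by gcongr)
      have b : ‖exp (D.al z0 * s ^ 2)‖ ≤ Real.exp (A * Real.pi ^ 2) := by
        rw [norm_gauss]
        exact Real.exp_le_exp.2 (mul_le_mul ((re_le_norm _).trans (hA _ (mem_ball h))) s3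
          (sq_nonneg _) A0)
      have c := (hC z0 h s).trans (mul_le_mul_of_nonneg_left s2 C0)
      rw [norm_mul, norm_mul, mul_assoc (Real.exp _)]
      exact mul_le_mul (mul_le_of_le_one_left (norm_nonneg _) a |>.trans b) c (norm_nonneg _)
        (Real.exp_pos _).le)
  simp only [ofReal_zero, zero_mul, exp_zero, mul_one, om_self h, ne_eq, OfNat.ofNat_ne_zero,
    not_false_eq_true, zero_pow, mul_zero] at this
  rwa [mul_assoc _ (|t| ^ 2), ← pow_succ] at this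

/-- Away from the saddle. -/
lemma far (S : D.Soft) (hD : D.Desc) {r : ℝ} (r0 : 0 < r) : ∃ δ : ℝ, 0 < δ ∧ ∀ z0 : ℂ, ‖z0‖ = 1 →
    ∀ t : ℝ, r ≤ |t| → |t| ≤ Real.pi → δ ≤ 1 - ‖D.Om z0 (z0 * exp (t * I))‖ := by
  have cp : IsCompact {t : ℝ | r ≤ |t| ∧ |t| ≤ Real.pi} :=
    (isCompact_closedBall (0 : ℝ) Real.pi).of_isClosed_subset
      ((isClosed_le continuous_const continuous_abs).inter (isClosed_le continuous_abs continuous_const))
      fun t ht => by simpa using ht.2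
  have ct : ContinuousOn (fun p : ℂ × ℝ => 1 - ‖D.Om p.1 (p.1 * exp (p.2 * I))‖)
      (sphere (0 : ℂ) 1 ×ˢ {t : ℝ | r ≤ |t| ∧ |t| ≤ Real.pi}) := fun p hp =>
    (continuousAt_const.sub (contOm S (mem_sphere_zero_iff_norm.1 hp.1)).norm).continuousWithinAt
  obtain ⟨δ, δ0, hδ⟩ := ((isCompact_sphere (0 : ℂ) 1).prod cp).exists_forall_le' ct (a := 0)
    fun p hp => by
      have h : ‖p.1‖ = 1 := mem_sphere_zero_iff_norm.1 hp.1
      exact sub_pos.2 ((hD _ h).2 _ (norm_z h _) (z_ne h (r0.trans_le hp.2.1) hp.2.2))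
  exact ⟨δ, δ0, fun z0 h t a b => hδ (z0, t) ⟨mem_sphere_zero_iff_norm.2 h, a, b⟩⟩

end QU

open QU in
theorem quS (hS : SOStmt) : QUStmt := by
  intro D hD
  have S := hS D
  obtain ⟨M, M0, hM⟩ := near S hD
  obtain ⟨c, c0, hc⟩ := (isCompact_sphere (0 : ℂ) 1).exists_forall_le' (f := fun z => (D.al z).re)
    (continuous_re.comp_continuousOn (S.aal.continuousOn.mono sphere_subset_closedBall)) (a := 0)
    fun z hz => (hD z (by simpa using hz)).1
  have t0 : 0 < c / (2 * M + 1) := by positivity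
  obtain ⟨δ, δ0, hδ⟩ := far S hD t0
  have pi0 := Real.pi_pos
  refine ⟨min (c / 2) (δ / Real.pi ^ 2), M, lt_min (by positivity) (by positivity), fun z0 h => ?_⟩
  have a := hc z0 (by simpa using h)
  refine ⟨(min_le_left _ _).trans (by linarith), fun t ht => ?_⟩
  have b := hM z0 h t ht
  have e : D.Om z0 (z0 * exp (t * I)) =
      D.Om z0 (z0 * exp (t * I)) * exp (D.al z0 * t ^ 2) * exp (-D.al z0 * t ^ 2) := by
    rw [mul_assoc, ← exp_add, neg_mul, add_neg_cancel, exp_zero, mul_one]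
  have g : ‖exp (-D.al z0 * t ^ 2)‖ ≤ Real.exp (-c * t ^ 2) := by
    rw [norm_gauss, neg_re]
    exact Real.exp_le_exp.2 (mul_le_mul_of_nonneg_right (neg_le_neg a) (sq_nonneg _))
  have t2 := sq_nonneg t
  constructor
  · by_cases k : c / (2 * M + 1) ≤ |t|
    · have d := hδ z0 h t k ht
      have s3 : t ^ 2 ≤ Real.pi ^ 2 := by rw [← sq_abs t]; gcongr
      have f : min (c / 2) (δ / Real.pi ^ 2) * t ^ 2 ≤ δ := by
        calc _ ≤ δ / Real.pi ^ 2 * Real.pi ^ 2 :=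
              mul_le_mul (min_le_right _ _) s3 t2 (by positivity)
          _ = δ := by field_simp
      refine le_trans ?_ (Real.add_one_le_exp _)
      linarith
    · have k' : |t| * (2 * M + 1) ≤ c := (le_div_iff₀ (by positivity)).1 (le_of_not_ge k)
      have u : ‖D.Om z0 (z0 * exp (t * I)) * exp (D.al z0 * t ^ 2)‖ ≤ Real.exp (M * |t| ^ 3) := by
        have := norm_le_norm_add_norm_sub' (D.Om z0 (z0 * exp (t * I)) * exp (D.al z0 * t ^ 2)) 1
        rw [norm_one] at this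
        linarith [Real.add_one_le_exp (M * |t| ^ 3)]
      rw [e, norm_mul]
      refine (mul_le_mul u g (norm_nonneg _) (Real.exp_pos _).le).trans ?_
      rw [← Real.exp_add]
      refine Real.exp_le_exp.2 ?_
      have f := mul_le_mul_of_nonneg_right (min_le_left (c / 2) (δ / Real.pi ^ 2)) t2
      have f2 : M * |t| ^ 3 = M * |t| * t ^ 2 := by rw [← sq_abs t]; ring
      have f3 : M * |t| * t ^ 2 ≤ c / 2 * t ^ 2 :=
        mul_le_mul_of_nonneg_right (by linarith [abs_nonneg t]) t2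
      linarith
  · rw [e, ← sub_one_mul, norm_mul]
    refine (mul_le_of_le_one_right (norm_nonneg _) (g.trans ?_)).trans b
    exact Real.exp_le_one_iff.2 (by nlinarith)

end Pool.Agent.MP_cb5fda_co.AA
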