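import Pool.Agent.MP_cb5fda_co.AA.Spec

/-! The bound for the ratio of two weighted counts. -/

noncomputable section
open Finset Complex Metric Filter
open scoped Classical

namespace Pool.Agent.MP_cb5fda_co.AA

namespace R1

lemma succ_pow_le (m S : ℕ) (h : S ≤ m) : ((m : ℝ) + 1) ^ S ≤ Real.exp 1 * (m : ℝ) ^ S := by
  rcases Nat.eq_zero_or_pos m with rfl | hm
  · obtain rfl : S = 0 := by omega
    simp
  have hm' : (0 : ℝ) < m := by exact_mod_cast hm
  have h1 : (m : ℝ) + 1 ≤ Real.exp (1 / m) * m := by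
    have := mul_le_mul_of_nonneg_right (Real.add_one_le_exp (1 / (m : ℝ))) hm'.le
    rwa [add_mul, one_div_mul_cancel hm'.ne', one_mul, add_comm] at this
  refine (pow_le_pow_left₀ (by positivity) h1 S).trans ?_
  rw [mul_pow, ← Real.exp_nat_mul]
  refine mul_le_mul_of_nonneg_right (Real.exp_le_exp.mpr ?_) (by positivity)
  rw [mul_one_div, div_le_one hm']
  exact_mod_cast h

/-- The factorial inequality. -/
lemma fact_le (S : ℕ) : ∀ n : ℕ, S ≤ n →
    (n : ℝ) ^ S * ((n - S).factorial : ℝ) ≤ Real.exp 1 ^ S * (n.factorial : ℝ) := by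
  induction S with
  | zero => intro n _; simp
  | succ S ih =>
    intro n hn
    obtain ⟨m, rfl⟩ : ∃ m, n = m + 1 := ⟨n - 1, by omega⟩
    have h1 := ih m (by omega)
    have h2 := succ_pow_le m S (by omega)
    rw [Nat.add_sub_add_right, Nat.factorial_succ]
    push_cast
    have h3 : (0 : ℝ) ≤ (m - S).factorial := by positivity
    calc ((m : ℝ) + 1) ^ (S + 1) * ((m - S).factorial : ℝ)
        = (m + 1) * ((m + 1) ^ S * ((m - S).factorial : ℝ)) := by ring
      _ ≤ (m + 1) * (Real.exp 1 * (m : ℝ) ^ S * ((m - S).factorial : ℝ)) := by gcongr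
      _ = (m + 1) * Real.exp 1 * ((m : ℝ) ^ S * ((m - S).factorial : ℝ)) := by ring
      _ ≤ (m + 1) * Real.exp 1 * (Real.exp 1 ^ S * (m.factorial : ℝ)) := by gcongr
      _ = _ := by ring

lemma avg_bound (Φ : ℂ → ℂ) (g : ℂ → ℝ) (M : ℝ) (hg : ContinuousOn g (sphere 0 1))
    (h : ∀ z : ℂ, ‖z‖ = 1 → ‖Φ z‖ ≤ M * g z) :
    ‖Real.circleAverage Φ 0 1‖ ≤ M * Real.circleAverage g 0 1 := by
  have hc : Continuous fun θ : ℝ => g (circleMap 0 1 θ) :=
    hg.comp_continuous (continuous_circleMap 0 1) fun θ => by simp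
  have h1 := intervalIntegral.norm_integral_le_of_norm_le (μ := MeasureTheory.volume)
    (f := fun θ : ℝ => Φ (circleMap 0 1 θ)) (g := fun θ : ℝ => M * g (circleMap 0 1 θ))
    Real.two_pi_pos.le (Eventually.of_forall fun θ _ => h _ (by simp))
    ((continuous_const.mul hc).intervalIntegrable _ _)
  rw [intervalIntegral.integral_const_mul] at h1
  rw [Real.circleAverage_def, Real.circleAverage_def, norm_smul, smul_eq_mul,
    Real.norm_of_nonneg (by positivity), mul_left_comm]
  exact mul_le_mul_of_nonneg_left h1 (by positivity) |>.trans_eq (by ring)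

lemma len_le (L : List ℕ) (hL : ∀ s ∈ L, 2 ≤ s) : L.length ≤ L.sum := by
  induction L with
  | nil => simp
  | cons s L ih =>
    have := ih fun t ht => hL t (List.mem_cons_of_mem _ ht)
    have := hL s List.mem_cons_self
    simp only [List.length_cons, List.sum_cons]
    omega

lemma dist {K E C n : ℝ} (hK : 1 ≤ K) (hE : 0 ≤ E) (hC : K * max 1 E ≤ C) (hn : 0 < n)
    (L : List ℕ) (hL : ∀ s ∈ L, 2 ≤ s) :
    (K * n) ^ L.length * (L.map fun s => (1 / 2 : ℝ) ^ (s.choose 2)).prod * (E / n) ^ L.sum ≤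
      (L.map fun s => (1 / 2 : ℝ) ^ (s.choose 2) * C ^ s / n ^ (s - 1)).prod := by
  have hK0 : 0 ≤ K := by linarith
  have hm : (1 : ℝ) ≤ max 1 E := le_max_left _ _
  have hC0 : 0 ≤ C := le_trans (by positivity) hC
  induction L with
  | nil => simp
  | cons s L ih =>
    have h1 := ih fun t ht => hL t (List.mem_cons_of_mem _ ht)
    obtain ⟨r, rfl⟩ : ∃ r, s = r + 1 := ⟨s - 1, by have := hL s List.mem_cons_self; omega⟩
    have h2 : K * E ^ (r + 1) ≤ C ^ (r + 1) := by
      refine le_trans ?_ (pow_le_pow_left₀ (by positivity) hC _)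
      rw [mul_pow]
      exact mul_le_mul (le_self_pow₀ hK (by omega)) (pow_le_pow_left₀ hE (le_max_right _ _) _)
        (by positivity) (by positivity)
    have h3 : K * n * (1 / 2 : ℝ) ^ ((r + 1).choose 2) * (E / n) ^ (r + 1) ≤
        (1 / 2 : ℝ) ^ ((r + 1).choose 2) * C ^ (r + 1) / n ^ (r + 1 - 1) := by
      rw [Nat.add_sub_cancel]
      have e : K * n * (1 / 2 : ℝ) ^ ((r + 1).choose 2) * (E / n) ^ (r + 1) =
          (1 / 2 : ℝ) ^ ((r + 1).choose 2) * (K * E ^ (r + 1)) / n ^ r := by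
        rw [div_pow E n, pow_succ n r]
        field_simp
      rw [e]
      gcongr
    have h4 : 0 ≤ (L.map fun s => (1 / 2 : ℝ) ^ (s.choose 2)).prod :=
      List.prod_nonneg fun a ha => by
        obtain ⟨t, -, rfl⟩ := List.mem_map.mp ha
        positivity
    simp only [List.length_cons, List.map_cons, List.prod_cons, List.sum_cons]
    refine le_trans (le_of_eq ?_) (mul_le_mul h3 h1 (by positivity) (by positivity))
    ring

lemma bdd {f : ℂ → ℂ} (hf : ContinuousOn f (closedBall 0 1)) :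
    ∃ M : ℝ, 0 ≤ M ∧ ∀ z : ℂ, ‖z‖ = 1 → ‖f z‖ ≤ M := by
  obtain ⟨M, hM⟩ := (isCompact_closedBall (0 : ℂ) 1).exists_bound_of_continuousOn hf
  exact ⟨max M 0, le_max_right _ _, fun z hz =>
    (hM z (by simp [hz])).trans (le_max_left _ _)⟩

end R1

open R1 in
theorem r1S (hF : FBStmt) (hS : SOStmt) (hO : FOStmt) (hT : TBStmt) : R1Stmt := by
  intro D ⟨B, hB⟩ ⟨⟨c, hc, hlow⟩, _⟩
  have S := hS D
  have cF : Continuous FF := continuous_iff_continuousAt.mpr fun x => (hF.1 x).continuousAt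
  obtain ⟨T, T0, hT'⟩ := bdd S.aphi.continuousOn
  obtain ⟨Ga, G0, hGa⟩ := bdd S.agam.continuousOn
  obtain ⟨A, A0, hA⟩ := bdd S.aL1.continuousOn
  obtain ⟨f, f0, hf⟩ := bdd ((cF.comp_continuousOn S.agam.continuousOn).inv₀ S.F_ne)
  set B0 : ℝ := max 1 (Real.exp Ga * f) with hB0
  have B1 : 1 ≤ B0 := le_max_left _ _
  set K : ℝ := (T + 2) * B0 with hK
  have K1 : 1 ≤ K := by nlinarith
  set E : ℝ := Real.exp 1 * Ga with hE
  have E0 : 0 ≤ E := by positivity
  have m1 : (1 : ℝ) ≤ max 1 E := le_max_left _ _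
  have q0 : 0 ≤ A * |B| / c := by positivity
  refine ⟨K * max 1 E + A * |B| / c, by nlinarith, ?_⟩
  filter_upwards [hlow, eventually_ge_atTop 1] with n hn n1 z0 hz0 L hL hsum
  have n0 : (0 : ℝ) < n := by exact_mod_cast n1
  have sq0 : 0 < √(n : ℝ) := Real.sqrt_pos.mpr n0
  have hP : 0 ≤ (L.map fun s => (1 / 2 : ℝ) ^ (s.choose 2)).prod :=
    List.prod_nonneg fun a ha => by
      obtain ⟨t, -, rfl⟩ := List.mem_map.mp ha
      positivity
  set P := (L.map fun s => (1 / 2 : ℝ) ^ (s.choose 2)).prod with hPd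
  have hq : ‖(n : ℂ) * D.tau z0‖ + 2 * L.length ≤ (T + 2) * n := by
    have h1 : ‖D.tau z0‖ ≤ T := by
      rw [CD.tau, norm_div, hz0, div_one]
      exact hT' z0 hz0
    have h2 : (L.length : ℝ) ≤ n := by exact_mod_cast (len_le L hL).trans hsum
    rw [norm_mul, Complex.norm_natCast]
    nlinarith
  set M : ℝ := (K * n) ^ L.length * P * Ga ^ L.sum * A with hM
  have M0 : 0 ≤ M := by positivity
  have sub : sphere (0 : ℂ) 1 ⊆ closedBall 0 1 := sphere_subset_closedBall
  have cO : ContinuousOn (fun z => ‖D.Om z0 z‖ ^ n) (sphere 0 1) := by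
    refine ContinuousOn.pow (ContinuousOn.norm ?_) n
    refine ContinuousOn.div (ContinuousOn.mul (ContinuousOn.cexp (continuousOn_const.mul
      ((D.hG.continuousOn.mono sub).sub continuousOn_const))) continuousOn_const)
      (S.agam.continuousOn.mono sub) fun z hz => ?_
    exact mul_ne_zero (by rintro rfl; simp at hz) (D.R_ne z (sub hz))
  have up := avg_bound (fun z => D.Om z0 z ^ n *
      (TT (n * D.tau z0) L (D.gam z) * D.gam z ^ L.sum * D.L1 z)) _ M cO fun z hz => by
    have h1 := (hT B0 (D.gam z) (n * D.tau z0) B1 fun j => by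
      refine le_trans ?_ (le_max_right _ _)
      rw [div_eq_mul_inv, norm_mul]
      refine mul_le_mul ((hF.2.2.1 _).trans (Real.exp_le_exp.mpr ?_)) (hf z hz) (norm_nonneg _)
        (Real.exp_pos _).le
      rw [norm_div, norm_pow, Complex.norm_ofNat]
      exact (div_le_self (norm_nonneg _) (one_le_pow₀ one_le_two)).trans (hGa z hz)).1 L
    have h2 : ‖TT (n * D.tau z0) L (D.gam z)‖ ≤ (K * n) ^ L.length * P := by
      refine h1.trans (mul_le_mul_of_nonneg_right (pow_le_pow_left₀ (by positivity) ?_ _) hP)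
      calc (‖(n : ℂ) * D.tau z0‖ + 2 * L.length) * B0 ≤ (T + 2) * n * B0 := by gcongr
        _ = K * n := by rw [hK]; ring
    have h3 := hGa z hz
    have h4 := hA z hz
    rw [norm_mul, norm_mul, norm_mul, norm_pow, norm_pow, mul_comm, hM]
    gcongr
  have up2 : M * Real.circleAverage (fun z => ‖D.Om z0 z‖ ^ n) 0 1 ≤ M * (|B| / √n) :=
    mul_le_mul_of_nonneg_left ((hB n n1 z0 hz0).1.trans
      (div_le_div_of_nonneg_right (le_abs_self B) sq0.le)) M0
  have e1 := hO.2 D n L hsum z0 hz0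
  have e0 := hO.2 D n [] (by simp) z0 hz0
  have e2 : (fun z => D.Om z0 z ^ n * (TT (n * D.tau z0) [] (D.gam z) *
      D.gam z ^ ([] : List ℕ).sum * D.L1 z)) = fun z => D.Om z0 z ^ n * D.L1 z := by
    funext z
    simp [TT, cwG, pf]
  rw [e2, List.sum_nil, Nat.sub_zero] at e0
  have lo := hn z0 hz0
  have hd := dist (C := K * max 1 E + A * |B| / c) K1 E0 (by linarith) n0 L hL
  rw [← hPd] at hd
  have fl := fact_le L.sum n hsum
  rw [e1, e0, norm_mul, norm_mul, norm_mul, norm_mul, Complex.norm_natCast, Complex.norm_natCast]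
  set W := ‖exp (n * D.tau z0 * D.G z0) / D.gam z0 ^ n‖
  have W0 : 0 ≤ W := norm_nonneg _
  have fl2 : ((n - L.sum).factorial : ℝ) ≤ (Real.exp 1 / n) ^ L.sum * n.factorial := by
    rw [div_pow, div_mul_eq_mul_div, le_div_iff₀ (by positivity), mul_comm]
    exact fl
  have hC : A * |B| / c ≤ K * max 1 E + A * |B| / c := by nlinarith
  calc ((n - L.sum).factorial : ℝ) * W * _ ≤
        (Real.exp 1 / n) ^ L.sum * n.factorial * W * (M * (|B| / √n)) := by
        have := up.trans up2
        gcongr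
    _ = A * |B| / c * ((K * n) ^ L.length * P * (E / n) ^ L.sum) *
        (n.factorial * W * (c / √n)) := by
        rw [hM, hE, div_pow, div_pow, mul_pow (Real.exp 1)]
        field_simp
    _ ≤ _ := by
        have h5 : 0 ≤ (K * n) ^ L.length * P * (E / n) ^ L.sum := by positivity
        have h6 : 0 ≤ K * max 1 E + A * |B| / c := q0.trans hC
        have h7 := h5.trans hd
        gcongr

end Pool.Agent.MP_cb5fda_co.AA
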