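import Mathlib
import Pool.Agent.MP_cb5fda_co.AA.Spec

/-! The ratio for a matching: asymptotics of the weights of `r` masses equal to two. -/

noncomputable section
open Finset Complex Metric Filter
open scoped Classical

namespace Pool.Agent.MP_cb5fda_co.AA

namespace R2

lemma norm_avg_le {f : ℂ → ℂ} {g : ℂ → ℝ} (hf : ContinuousOn f (sphere 0 1))
    (hg : ContinuousOn g (sphere 0 1)) (h : ∀ z ∈ sphere (0 : ℂ) 1, ‖f z‖ ≤ g z) :
    ‖Real.circleAverage f 0 1‖ ≤ Real.circleAverage g 0 1 := by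
  have h1 : ‖Real.circleAverage f 0 1‖ ≤ Real.circleAverage (fun z => ‖f z‖) 0 1 := by
    rw [Real.circleAverage_def, Real.circleAverage_def, norm_smul, smul_eq_mul,
      Real.norm_of_nonneg (by positivity)]
    exact mul_le_mul_of_nonneg_left
      (intervalIntegral.norm_integral_le_integral_norm (by positivity)) (by positivity)
  refine h1.trans (Real.circleAverage_mono (hf.norm.circleIntegrable zero_le_one)
    (hg.circleIntegrable zero_le_one) fun z hz => h z ?_)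
  simpa using hz

lemma bd {f : ℂ → ℂ} (hf : AnalyticOnNhd ℂ f (closedBall 0 1)) :
    ∃ M : ℝ, 0 ≤ M ∧ ∀ z ∈ closedBall (0 : ℂ) 1, ‖f z‖ ≤ M := by
  obtain ⟨M, hM⟩ := (isCompact_closedBall (0 : ℂ) 1).exists_bound_of_continuousOn hf.continuousOn
  exact ⟨M, (norm_nonneg _).trans (hM 0 (by simp)), hM⟩

lemma lip {f : ℂ → ℂ} (hf : AnalyticOnNhd ℂ f (closedBall 0 1)) :
    ∃ K : ℝ, 0 ≤ K ∧ ∀ z ∈ closedBall (0 : ℂ) 1, ∀ w ∈ closedBall (0 : ℂ) 1,
      ‖f z - f w‖ ≤ K * ‖z - w‖ := by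
  obtain ⟨K, hK0, hK⟩ := bd hf.deriv
  exact ⟨K, hK0, fun z hz w hw => (convex_closedBall (0 : ℂ) 1).norm_image_sub_le_of_norm_deriv_le
    (fun x hx => (hf x hx).differentiableAt) hK hw hz⟩

lemma fac (k : ℕ) : Tendsto (fun n : ℕ => ((n - k).factorial : ℝ) * (n : ℝ) ^ k / n.factorial)
    atTop (nhds 1) := by
  have h0 : ∀ᶠ n : ℕ in atTop, (n.descFactorial k : ℝ) ≠ 0 := by
    filter_upwards [eventually_ge_atTop k] with n hn
    exact_mod_cast (Nat.descFactorial_pos.2 hn).ne'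
  have h1 := (Asymptotics.isEquivalent_iff_tendsto_one h0).1 (isEquivalent_descFactorial k).symm
  refine h1.congr' ?_
  filter_upwards [eventually_ge_atTop k, h0] with n hn h2
  have h3 : ((n - k).factorial : ℝ) * n.descFactorial k = n.factorial := by
    exact_mod_cast Nat.factorial_mul_descFactorial hn
  have h4 : ((n - k).factorial : ℝ) ≠ 0 := by positivity
  rw [← h3, Pi.div_apply]
  field_simp

lemma mem_ball_of {z : ℂ} (hz : ‖z‖ = 1) : z ∈ closedBall (0 : ℂ) 1 := by simp [hz]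

lemma ne_zero_of {z : ℂ} (hz : ‖z‖ = 1) : z ≠ 0 := by rintro rfl; simp at hz

lemma pow_bound (r n : ℕ) (hn : 1 ≤ n) {T t : ℝ} (ht0 : 0 ≤ t) (ht : t ≤ n * T) :
    2 * (r : ℝ) ^ 2 * (t + 2 * r) ^ (r - 1) / (n : ℝ) ^ r ≤
      2 * (r : ℝ) ^ 2 * (T + 2 * r) ^ (r - 1) / n := by
  have hn' : (1 : ℝ) ≤ n := by exact_mod_cast hn
  rcases r with _ | r
  · simp
  · rw [Nat.add_sub_cancel, div_le_div_iff₀ (by positivity) (by positivity)]
    have h1 : t + 2 * ((r + 1 : ℕ) : ℝ) ≤ (T + 2 * ((r + 1 : ℕ) : ℝ)) * n := by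
      have : (0 : ℝ) ≤ ((r + 1 : ℕ) : ℝ) := by positivity
      nlinarith
    have h2 := pow_le_pow_left₀ (by positivity) h1 r
    rw [mul_pow] at h2
    calc _ = 2 * ((r + 1 : ℕ) : ℝ) ^ 2 * n * (t + 2 * ((r + 1 : ℕ) : ℝ)) ^ r := by ring
      _ ≤ 2 * ((r + 1 : ℕ) : ℝ) ^ 2 * n * ((T + 2 * ((r + 1 : ℕ) : ℝ)) ^ r * (n : ℝ) ^ r) :=
        mul_le_mul_of_nonneg_left h2 (by positivity)
      _ = _ := by ring

lemma point (hF : FBStmt) (hT : TBStmt) (D : CD) (hS : D.Soft) (r : ℕ) :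
    ∃ K : ℝ, 0 ≤ K ∧ ∀ n : ℕ, 1 ≤ n → ∀ z0 : ℂ, ‖z0‖ = 1 → ∀ z : ℂ, ‖z‖ = 1 →
      ‖((n : ℂ) ^ r)⁻¹ * (TT (n * D.tau z0) (List.replicate r 2) (D.gam z) * D.gam z ^ (r * 2) *
        D.L1 z) - D.kap z0 ^ r * D.L1 z‖ ≤ K / n + K * ‖z - z0‖ := by
  have aF : ∀ x, AnalyticAt ℂ FF x :=
    Differentiable.analyticAt (fun x => (hF.1 x).differentiableAt)
  have aFg : AnalyticOnNhd ℂ (fun z => FF (D.gam z)) (closedBall 0 1) := fun z hz =>
    (aF _).comp (hS.agam z hz)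
  have aF4 : AnalyticOnNhd ℂ (fun z => FF (D.gam z / 4)) (closedBall 0 1) := fun z hz =>
    AnalyticAt.comp (g := FF) (f := fun z => D.gam z / 4) (aF _)
      ((hS.agam z hz).div analyticAt_const (by norm_num))
  have ah : AnalyticOnNhd ℂ (fun z => (FF (D.gam z / 4) / (2 * FF (D.gam z)) * D.gam z ^ 2) ^ r)
      (closedBall 0 1) := fun z hz =>
    (((aF4 z hz).div (analyticAt_const.mul (aFg z hz))
      (mul_ne_zero two_ne_zero (hS.F_ne z hz))).mul ((hS.agam z hz).pow 2)).pow r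
  obtain ⟨T, hT0, hTb⟩ := bd hS.aphi
  obtain ⟨Ga, hG0, hGb⟩ := bd hS.agam
  obtain ⟨A, hA0, hAb⟩ := bd hS.aL1
  obtain ⟨M, hM0, hMb⟩ := bd (f := fun z => (FF (D.gam z))⁻¹)
    (fun z hz => (aFg z hz).inv (hS.F_ne z hz))
  obtain ⟨Lp, hL0, hLb⟩ := lip ah
  set B : ℝ := 1 + Real.exp Ga * M with hB
  have hB1 : 1 ≤ B := by have := Real.exp_pos Ga; nlinarith
  set K1 : ℝ := 2 * (r : ℝ) ^ 2 * (T + 2 * r) ^ (r - 1) * (B ^ r * Ga ^ (r * 2) * A) with hK1
  set K2 : ℝ := T ^ r * Lp * A with hK2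
  have hK10 : 0 ≤ K1 := by positivity
  have hK20 : 0 ≤ K2 := by positivity
  refine ⟨K1 + K2, by positivity, fun n hn z0 hz0 z hz => ?_⟩
  have hn' : (0 : ℝ) < n := by exact_mod_cast hn
  have hnc : (n : ℂ) ≠ 0 := by exact_mod_cast hn'.ne'
  have hzb := mem_ball_of hz
  have hzb0 := mem_ball_of hz0
  have htau : ‖D.tau z0‖ ≤ T := by
    unfold CD.tau; rw [norm_div, hz0, div_one]; exact hTb z0 hzb0
  have hj : ∀ j : ℕ, ‖FF (D.gam z / 2 ^ j) / FF (D.gam z)‖ ≤ B := fun j => by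
    rw [div_eq_mul_inv (FF _), norm_mul]
    have h1 : ‖D.gam z / 2 ^ j‖ ≤ Ga := by
      rw [norm_div, norm_pow, Complex.norm_two]
      exact (div_le_self (norm_nonneg _) (one_le_pow₀ one_le_two)).trans (hGb z hzb)
    have h2 := (hF.2.2.1 (D.gam z / 2 ^ j)).trans (Real.exp_le_exp.2 h1)
    have h3 := mul_le_mul h2 (hMb z hzb) (norm_nonneg _) (Real.exp_pos _).le
    linarith
  have h1 := (hT B (D.gam z) (n * D.tau z0) hB1 hj).2 r
  have h2 := hLb z hzb z0 hzb0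
  have hq : ‖(n : ℂ) * D.tau z0‖ ≤ n * T := by
    rw [norm_mul, Complex.norm_natCast]; exact mul_le_mul_of_nonneg_left htau hn'.le
  have h3 := pow_bound r n hn (norm_nonneg _) hq
  have e : ((n : ℂ) ^ r)⁻¹ * (TT (n * D.tau z0) (List.replicate r 2) (D.gam z) *
      D.gam z ^ (r * 2) * D.L1 z) - D.kap z0 ^ r * D.L1 z =
      ((n : ℂ) ^ r)⁻¹ * (TT (n * D.tau z0) (List.replicate r 2) (D.gam z) -
        (n * D.tau z0 * (FF (D.gam z / 4) / (2 * FF (D.gam z)))) ^ r) *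
        (D.gam z ^ (r * 2) * D.L1 z) +
      D.tau z0 ^ r * ((FF (D.gam z / 4) / (2 * FF (D.gam z)) * D.gam z ^ 2) ^ r -
        (FF (D.gam z0 / 4) / (2 * FF (D.gam z0)) * D.gam z0 ^ 2) ^ r) * D.L1 z := by
    rw [hS.kap_eq z0 hzb0 (ne_zero_of hz0)]
    generalize FF (D.gam z / 4) / (2 * FF (D.gam z)) = ψ
    generalize FF (D.gam z0 / 4) / (2 * FF (D.gam z0)) = ψ0
    simp only [mul_pow, ← pow_mul, mul_comm 2 r]
    field_simp
    ring
  rw [e]
  refine (norm_add_le _ _).trans ?_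
  have b1 : ‖((n : ℂ) ^ r)⁻¹ * (TT (n * D.tau z0) (List.replicate r 2) (D.gam z) -
      (n * D.tau z0 * (FF (D.gam z / 4) / (2 * FF (D.gam z)))) ^ r) *
      (D.gam z ^ (r * 2) * D.L1 z)‖ ≤ K1 / n := by
    rw [norm_mul, norm_mul, norm_mul, norm_inv, norm_pow, norm_pow, Complex.norm_natCast]
    calc _ ≤ ((n : ℝ) ^ r)⁻¹ * (2 * r ^ 2 * (‖(n : ℂ) * D.tau z0‖ + 2 * r) ^ (r - 1) * B ^ r) *
          (Ga ^ (r * 2) * A) := by
          gcongr
          · exact hGb z hzb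
          · exact hAb z hzb
      _ = 2 * (r : ℝ) ^ 2 * (‖(n : ℂ) * D.tau z0‖ + 2 * r) ^ (r - 1) / (n : ℝ) ^ r *
          (B ^ r * Ga ^ (r * 2) * A) := by ring
      _ ≤ 2 * (r : ℝ) ^ 2 * (T + 2 * r) ^ (r - 1) / n * (B ^ r * Ga ^ (r * 2) * A) :=
          mul_le_mul_of_nonneg_right h3 (by positivity)
      _ = K1 / n := by rw [hK1]; ring
  have b2 : ‖D.tau z0 ^ r * ((FF (D.gam z / 4) / (2 * FF (D.gam z)) * D.gam z ^ 2) ^ r -
      (FF (D.gam z0 / 4) / (2 * FF (D.gam z0)) * D.gam z0 ^ 2) ^ r) * D.L1 z‖ ≤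
      K2 * ‖z - z0‖ := by
    rw [norm_mul, norm_mul, norm_pow]
    calc _ ≤ T ^ r * (Lp * ‖z - z0‖) * A := by
          gcongr
          exact hAb z hzb
      _ = K2 * ‖z - z0‖ := by rw [hK2]; ring
  have b3 : K1 / n ≤ (K1 + K2) / n := by gcongr; linarith
  have b4 : K2 * ‖z - z0‖ ≤ (K1 + K2) * ‖z - z0‖ := by gcongr; linarith
  linarith

lemma cont_Om (D : CD) (hS : D.Soft) (z0 : ℂ) : ContinuousOn (D.Om z0) (sphere 0 1) := by
  intro z hz
  have hz1 : ‖z‖ = 1 := by simpa using hz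
  have hb := mem_ball_of hz1
  have h1 := (D.hG z hb).continuousAt
  have h2 := (hS.agam z hb).continuousAt
  refine ContinuousAt.continuousWithinAt ?_
  unfold CD.Om
  exact ((Complex.continuous_exp.continuousAt.comp
    (continuousAt_const.mul (h1.sub continuousAt_const))).mul continuousAt_const).div h2
    (mul_ne_zero (ne_zero_of hz1) (D.R_ne z hb))

lemma avg (hF : FBStmt) (hO : FOStmt) (hT : TBStmt) (D : CD) (hS : D.Soft) (hA : D.LapA)
    (r : ℕ) : ∃ K : ℝ, 0 ≤ K ∧ ∀ n : ℕ, 1 ≤ n → ∀ z0 : ℂ, ‖z0‖ = 1 →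
      ‖((n : ℂ) ^ r)⁻¹ * Real.circleAverage (fun z => D.Om z0 z ^ n *
        (TT (n * D.tau z0) (List.replicate r 2) (D.gam z) * D.gam z ^ (r * 2) * D.L1 z)) 0 1 -
        D.kap z0 ^ r * Real.circleAverage (fun z => D.Om z0 z ^ n * D.L1 z) 0 1‖ ≤ K / n := by
  obtain ⟨K, hK0, hK⟩ := point hF hT D hS r
  obtain ⟨B, hB⟩ := hA
  refine ⟨2 * K * |B|, by positivity, fun n hn z0 hz0 => ?_⟩
  have hn' : (1 : ℝ) ≤ n := by exact_mod_cast hn
  have hsub : sphere (0 : ℂ) 1 ⊆ closedBall 0 1 := sphere_subset_closedBall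
  have cO := cont_Om D hS z0
  have cg := hS.agam.continuousOn.mono hsub
  have cL := hS.aL1.continuousOn.mono hsub
  have cT : ContinuousOn (fun z => TT (n * D.tau z0) (List.replicate r 2) (D.gam z))
      (sphere 0 1) := fun z hz =>
    ((hO.1 _ _ _ (hS.F_ne z (hsub hz))).comp (hS.agam z (hsub hz)).continuousAt).continuousWithinAt
  have c1 : ContinuousOn (fun z => ((n : ℂ) ^ r)⁻¹ • (D.Om z0 z ^ n *
      (TT (n * D.tau z0) (List.replicate r 2) (D.gam z) * D.gam z ^ (r * 2) * D.L1 z)))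
      (sphere 0 1) :=
    ((cO.pow n).mul ((cT.mul (cg.pow (r * 2))).mul cL)).const_smul ((n : ℂ) ^ r)⁻¹
  have c2 : ContinuousOn (fun z => D.kap z0 ^ r • (D.Om z0 z ^ n * D.L1 z)) (sphere 0 1) :=
    ((cO.pow n).mul cL).const_smul (D.kap z0 ^ r)
  have c3 : ContinuousOn (fun z => (K / n) • ‖D.Om z0 z‖ ^ n) (sphere 0 1) :=
    (cO.norm.pow n).const_smul (K / n)
  have c4 : ContinuousOn (fun z => K • (‖D.Om z0 z‖ ^ n * ‖z - z0‖)) (sphere 0 1) :=
    ((cO.norm.pow n).mul (continuousOn_id.sub continuousOn_const).norm).const_smul K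
  rw [← smul_eq_mul, ← smul_eq_mul (D.kap z0 ^ r), ← Real.circleAverage_fun_smul,
    ← Real.circleAverage_fun_smul, ← Real.circleAverage_fun_sub (c1.circleIntegrable zero_le_one)
      (c2.circleIntegrable zero_le_one)]
  refine (norm_avg_le (c1.sub c2) (c3.add c4) fun z hz => ?_).trans ?_
  · have h := hK n hn z0 hz0 z (by simpa using hz)
    have h' := mul_le_mul_of_nonneg_left h (norm_nonneg (D.Om z0 z ^ n))
    rw [← norm_mul, norm_pow] at h'
    simp only [smul_eq_mul, Pi.add_apply, Pi.sub_apply]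
    refine le_trans (le_of_eq (congrArg norm (by ring))) (h'.trans (le_of_eq (by ring)))
  · rw [Real.circleAverage_add (c3.circleIntegrable zero_le_one)
      (c4.circleIntegrable zero_le_one), Real.circleAverage_fun_smul,
      Real.circleAverage_fun_smul, smul_eq_mul, smul_eq_mul]
    obtain ⟨h1, h2⟩ := hB n hn z0 hz0
    have h3 : B / √n ≤ |B| :=
      (div_le_div_of_nonneg_right (le_abs_self B) (Real.sqrt_nonneg _)).trans
        (div_le_self (abs_nonneg B) (Real.one_le_sqrt.2 hn'))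
    have h4 : B / n ≤ |B| / n := div_le_div_of_nonneg_right (le_abs_self B) (by positivity)
    have h5 := mul_le_mul_of_nonneg_left (h1.trans h3) (show 0 ≤ K / n by positivity)
    have h6 := mul_le_mul_of_nonneg_left (h2.trans h4) hK0
    have h7 : 2 * K * |B| / n = K / n * |B| + K * (|B| / n) := by ring
    linarith

end R2

open R2 in
theorem r2S (hF : FBStmt) (hS : SOStmt) (hO : FOStmt) (hT : TBStmt) : R2Stmt := by
  intro D hA hL r ε hε
  obtain ⟨K, hK0, hK⟩ := avg hF hO hT D (hS D) hA r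
  obtain ⟨c, hc0, hc⟩ := hL.1
  obtain ⟨Q, hQ0, hQ⟩ := bd (hS D).akap
  set a : ℕ → ℝ := fun n => ((n - r * 2).factorial : ℝ) * (n : ℝ) ^ (r * 2) / n.factorial with ha
  have t1 : Tendsto a atTop (nhds 1) := fac (r * 2)
  have t2 : Tendsto (fun n : ℕ => K / c / √(n : ℝ)) atTop (nhds 0) :=
    tendsto_const_nhds.div_atTop (Real.tendsto_sqrt_atTop.comp tendsto_natCast_atTop_atTop)
  have t3 : Tendsto (fun n : ℕ => a n * (K / c / √(n : ℝ)) + |a n - 1| * Q ^ r) atTop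
      (nhds 0) := by
    have := (t1.mul t2).add (((t1.sub_const 1).abs).mul_const (Q ^ r))
    simpa using this
  filter_upwards [hc, t3.eventually_le_const hε, eventually_ge_atTop (r * 2),
    eventually_ge_atTop 1] with n hJ he hr hn z hz
  have hn' : (0 : ℝ) < n := by exact_mod_cast hn
  have hnc : (n : ℂ) ≠ 0 := by exact_mod_cast hn'.ne'
  have hsum : (List.replicate r 2).sum = r * 2 := by simp
  have f1 := hO.2 D n (List.replicate r 2) (by rw [hsum]; exact hr) z hz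
  have f0 := hO.2 D n [] (by simp) z hz
  have hT0 : ∀ x, TT (n * D.tau z) [] x = 1 := fun x => by simp [TT, cwG, pf]
  simp only [hT0, List.sum_nil, pow_zero, one_mul, Nat.sub_zero] at f0
  rw [hsum] at f1
  have h1 := hK n hn z hz
  have h2 := hJ z hz
  rw [f1, f0]
  generalize Real.circleAverage (fun w => D.Om z w ^ n *
    (TT (n * D.tau z) (List.replicate r 2) (D.gam w) * D.gam w ^ (r * 2) * D.L1 w)) 0 1 = I1
    at h1 ⊢
  generalize Real.circleAverage (fun w => D.Om z w ^ n * D.L1 w) 0 1 = J at h1 h2 ⊢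
  generalize exp (n * D.tau z * D.G z) / D.gam z ^ n = E
  have ha0 : 0 ≤ a n := by rw [ha]; positivity
  have hf : (n.factorial : ℂ) ≠ 0 := by exact_mod_cast n.factorial_ne_zero
  have e : ((n - r * 2).factorial : ℂ) * E * I1 - (D.kap z / n) ^ r * (n.factorial * E * J) =
      ((n : ℂ) ^ r)⁻¹ * (n.factorial * E) * ((a n : ℂ) * (((n : ℂ) ^ r)⁻¹ * I1 - D.kap z ^ r * J) +
        ((a n - 1 : ℝ) : ℂ) * (D.kap z ^ r * J)) := by
    rw [ha]
    push_cast
    rw [div_pow, pow_mul]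
    field_simp
    ring
  have hs : 0 < √(n : ℝ) := Real.sqrt_pos.2 hn'
  have h3 : K / n ≤ K / c / √(n : ℝ) * ‖J‖ := by
    have e2 : K / n = K / c / √(n : ℝ) * (c / √(n : ℝ)) := by
      field_simp
      rw [Real.sq_sqrt hn'.le]
    rw [e2]
    exact mul_le_mul_of_nonneg_left h2 (by positivity)
  have h4 : ‖(a n : ℂ) * (((n : ℂ) ^ r)⁻¹ * I1 - D.kap z ^ r * J) +
      ((a n - 1 : ℝ) : ℂ) * (D.kap z ^ r * J)‖ ≤ ε * ‖J‖ := by
    refine (norm_add_le _ _).trans ?_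
    rw [norm_mul, norm_mul, norm_mul, norm_pow, Complex.norm_real, Complex.norm_real,
      Real.norm_of_nonneg ha0, Real.norm_eq_abs]
    have h5 := mul_le_mul_of_nonneg_left (h1.trans h3) ha0
    have h6 : |a n - 1| * (‖D.kap z‖ ^ r * ‖J‖) ≤ |a n - 1| * (Q ^ r * ‖J‖) := by
      gcongr
      exact hQ z (mem_ball_of hz)
    have h7 := mul_le_mul_of_nonneg_right he (norm_nonneg J)
    nlinarith
  rw [e, norm_mul, norm_mul, norm_inv, norm_pow, Complex.norm_natCast, norm_mul _ J]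
  calc _ ≤ ((n : ℝ) ^ r)⁻¹ * ‖(n.factorial : ℂ) * E‖ * (ε * ‖J‖) := by gcongr
    _ = _ := by ring

end Pool.Agent.MP_cb5fda_co.AA
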