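import Pool.Agent.MP_cb5fda_co.AA.Spec

/-! Bounds for the terminal weight `TT`. -/

noncomputable section
open Finset Complex Metric Filter
open scoped Classical

namespace Pool.Agent.MP_cb5fda_co.AA

namespace TB

lemma pf_le {B : ℝ} {x : ℂ} (hB : ∀ j : ℕ, ‖FF (x / 2 ^ j) / FF x‖ ≤ B) (g : ℕ) (a : ℕ → ℕ) :
    ‖pf g a x‖ ≤ B ^ g := by
  unfold pf
  rw [norm_prod]
  calc ∏ i ∈ range g, ‖FF (x / 2 ^ (a i)) / FF x‖ ≤ ∏ _i ∈ range g, B :=
        Finset.prod_le_prod (fun _ _ => norm_nonneg _) (fun i _ => hB (a i))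
    _ = B ^ g := by simp

lemma half_norm (k : ℕ) : ‖(1 / 2 : ℂ) ^ k‖ = (1 / 2 : ℝ) ^ k := by
  rw [norm_pow]; norm_num

lemma half_le (k : ℕ) : (1 / 2 : ℝ) ^ k ≤ 1 := pow_le_one₀ (by norm_num) (by norm_num)

lemma sub_le (q : ℂ) (g : ℕ) : ‖q - (g : ℂ)‖ ≤ ‖q‖ + g := by
  have := norm_sub_le q (g : ℂ)
  simpa using this

lemma P_nonneg (L : List ℕ) : 0 ≤ (L.map fun s => (1 / 2 : ℝ) ^ (s.choose 2)).prod := by
  induction L with
  | nil => simp
  | cons s L ih => rw [List.map_cons, List.prod_cons]; positivity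

lemma P_le (L : List ℕ) : (L.map fun s => (1 / 2 : ℝ) ^ (s.choose 2)).prod ≤ 1 := by
  induction L with
  | nil => simp
  | cons s L ih =>
    rw [List.map_cons, List.prod_cons]
    exact mul_le_one₀ (half_le _) (P_nonneg L) ih

lemma sum_le {f : ℕ → ℂ} {e : ℕ → ℕ} {g : ℕ} {M : ℝ} (hM : ∀ i, ‖f i‖ ≤ M) :
    ‖∑ i ∈ range g, (1 / 2 : ℂ) ^ (e i) * f i‖ ≤ g * M := by
  calc ‖∑ i ∈ range g, (1 / 2 : ℂ) ^ (e i) * f i‖ ≤ ∑ i ∈ range g, ‖(1 / 2 : ℂ) ^ (e i) * f i‖ :=
        norm_sum_le _ _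
    _ ≤ ∑ _i ∈ range g, M := by
        refine Finset.sum_le_sum (fun i _ => ?_)
        rw [norm_mul, half_norm]
        calc (1 / 2 : ℝ) ^ (e i) * ‖f i‖ ≤ 1 * ‖f i‖ :=
              mul_le_mul_of_nonneg_right (half_le _) (norm_nonneg _)
          _ ≤ M := by rw [one_mul]; exact hM i
    _ = g * M := by simp

lemma first {B : ℝ} {x q : ℂ} (h1 : 1 ≤ B) (hB : ∀ j : ℕ, ‖FF (x / 2 ^ j) / FF x‖ ≤ B)
    (L : List ℕ) : ∀ (g : ℕ) (a : ℕ → ℕ), ‖cwG (fun g a => pf g a x) q L g a‖ ≤
      (‖q‖ + 2 * ((g : ℝ) + L.length)) ^ L.length * B ^ (g + L.length) *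
        (L.map fun s => (1 / 2 : ℝ) ^ (s.choose 2)).prod := by
  induction L with
  | nil => intro g a; simpa [cwG] using pf_le hB g a
  | cons s L ih =>
    intro g a
    have hB0 : 0 ≤ B := by linarith
    have hq := norm_nonneg q
    have hP := P_nonneg L
    set P := (L.map fun s => (1 / 2 : ℝ) ^ (s.choose 2)).prod with hPd
    set l := L.length with hl
    set W : ℝ := ‖q‖ + 2 * ((g : ℝ) + (l + 1)) with hW
    have hg0 : (0 : ℝ) ≤ g := Nat.cast_nonneg _
    have hl0 : (0 : ℝ) ≤ l := Nat.cast_nonneg _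
    have hW0 : 0 ≤ W := by rw [hW]; positivity
    set M : ℝ := W ^ l * B ^ (g + (l + 1)) * P with hM
    have hM0 : 0 ≤ M := by rw [hM]; positivity
    have e1 : ∀ a, ‖cwG (fun g a => pf g a x) q L (g + 1) a‖ ≤ M := by
      intro a
      refine (ih (g + 1) a).trans (le_of_eq ?_)
      rw [hM, hW, show g + 1 + l = g + (l + 1) by ring]
      push_cast
      ring
    have e2 : ∀ a, ‖cwG (fun g a => pf g a x) q L g a‖ ≤ M := by
      intro a
      refine (ih g a).trans ?_
      rw [hM]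
      refine mul_le_mul_of_nonneg_right ?_ hP
      refine mul_le_mul (pow_le_pow_left₀ (by positivity) (by rw [hW]; linarith) _)
        (pow_le_pow_right₀ h1 (by omega)) (by positivity) (by positivity)
    have e3 := sum_le (g := g) (e := fun i => s * a i)
      (f := fun i => cwG (fun g a => pf g a x) q L g (Function.update a i (a i + s)))
      (fun i => e2 _)
    have e4 : ‖(q - g) * cwG (fun g a => pf g a x) q L (g + 1) (Function.update a g s)‖ ≤
        (‖q‖ + g) * M := by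
      rw [norm_mul]
      exact mul_le_mul (sub_le q g) (e1 _) (norm_nonneg _) (by positivity)
    have e5 : (‖q‖ + g) * M + g * M ≤ W * M := by
      rw [← add_mul]
      exact mul_le_mul_of_nonneg_right (by rw [hW]; linarith) hM0
    rw [cwG, norm_mul, half_norm, List.map_cons, List.prod_cons, List.length_cons]
    have e6 := (norm_add_le _ _).trans ((add_le_add e4 e3).trans e5)
    refine (mul_le_mul_of_nonneg_left e6 (by positivity)).trans (le_of_eq ?_)
    rw [hM, hW]
    push_cast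
    ring

lemma pf_succ (g : ℕ) (a : ℕ → ℕ) (x : ℂ) :
    pf (g + 1) (Function.update a g 2) x = pf g a x * (2 * (FF (x / 4) / (2 * FF x))) := by
  unfold pf
  rw [Finset.prod_range_succ, Function.update_self]
  congr 1
  · refine Finset.prod_congr rfl (fun i hi => ?_)
    rw [Function.update_of_ne (by have := Finset.mem_range.mp hi; omega)]
  · rw [show (2 : ℂ) ^ 2 = 4 by norm_num, ← mul_div_assoc, mul_div_mul_left _ _ (two_ne_zero)]

lemma second {B : ℝ} {x q : ℂ} (h1 : 1 ≤ B) (hB : ∀ j : ℕ, ‖FF (x / 2 ^ j) / FF x‖ ≤ B)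
    (r : ℕ) : ∀ (g : ℕ) (a : ℕ → ℕ),
      ‖cwG (fun g a => pf g a x) q (List.replicate r 2) g a -
        (q * (FF (x / 4) / (2 * FF x))) ^ r * pf g a x‖ ≤
      2 * r * ((g : ℝ) + r) * (‖q‖ + 2 * ((g : ℝ) + r)) ^ (r - 1) * B ^ (g + r) := by
  induction r with
  | zero => intro g a; simp [cwG]
  | succ r ih =>
    intro g a
    have hB0 : 0 ≤ B := by linarith
    have hq := norm_nonneg q
    set ψ : ℂ := FF (x / 4) / (2 * FF x) with hψ
    have hψB : ‖ψ‖ ≤ B := by
      have h2 := hB 2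
      rw [show (2 : ℂ) ^ 2 = 4 by norm_num] at h2
      have h3 : ψ = (1 / 2 : ℂ) * (FF (x / 4) / FF x) := by
        rw [hψ, div_mul_div_comm, one_mul]
      rw [h3, norm_mul]
      have h4 : ‖(1 / 2 : ℂ)‖ = 1 / 2 := by norm_num
      rw [h4]
      linarith [norm_nonneg (FF (x / 4) / FF x)]
    set W : ℝ := ‖q‖ + 2 * ((g : ℝ) + (r + 1)) with hW
    have hg0 : (0 : ℝ) ≤ g := Nat.cast_nonneg _
    have hr0 : (0 : ℝ) ≤ r := Nat.cast_nonneg _
    have hW0 : 0 ≤ W := by rw [hW]; positivity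
    set M : ℝ := W ^ r * B ^ (g + (r + 1)) with hM
    have hM0 : 0 ≤ M := by rw [hM]; positivity
    have hWr : (r : ℝ) * (W * W ^ (r - 1)) = r * W ^ r := by
      rcases r with _ | r
      · simp
      · rw [Nat.add_sub_cancel]; ring
    have e1 : ‖(q - g) * (cwG (fun g a => pf g a x) q (List.replicate r 2) (g + 1)
        (Function.update a g 2) - (q * ψ) ^ r * pf (g + 1) (Function.update a g 2) x)‖ ≤
        2 * (r * ((g : ℝ) + (r + 1))) * M := by
      rw [norm_mul]
      have h2 : ‖q - (g : ℂ)‖ ≤ W := (sub_le q g).trans (by rw [hW]; linarith)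
      refine (mul_le_mul h2 (ih (g + 1) _) (norm_nonneg _) hW0).trans (le_of_eq ?_)
      have h3 : ‖q‖ + 2 * (((g + 1 : ℕ) : ℝ) + r) = W := by rw [hW]; push_cast; ring
      rw [h3, show g + 1 + r = g + (r + 1) by ring, hM]
      push_cast
      linear_combination (2 * ((g : ℝ) + (r + 1)) * B ^ (g + (r + 1))) * hWr
    have e2 : ‖(g : ℂ) * ((q * ψ) ^ r * pf (g + 1) (Function.update a g 2) x)‖ ≤ g * M := by
      rw [norm_mul, norm_mul, norm_pow, norm_mul, Complex.norm_natCast]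
      refine mul_le_mul_of_nonneg_left ?_ hg0
      have h2 : (‖q‖ * ‖ψ‖) ^ r ≤ (W * B) ^ r :=
        pow_le_pow_left₀ (by positivity)
          (mul_le_mul (by rw [hW]; linarith) hψB (norm_nonneg _) hW0) _
      refine (mul_le_mul h2 (pf_le hB _ _) (norm_nonneg _) (by positivity)).trans (le_of_eq ?_)
      rw [hM]
      ring_nf
    have e3 : ∀ a, ‖cwG (fun g a => pf g a x) q (List.replicate r 2) g a‖ ≤ M := by
      intro a
      refine (first h1 hB _ g a).trans ?_
      rw [List.length_replicate]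
      have h2 : (‖q‖ + 2 * ((g : ℝ) + r)) ^ r * B ^ (g + r) ≤ M := by
        rw [hM]
        exact mul_le_mul (pow_le_pow_left₀ (by positivity) (by rw [hW]; linarith) _)
          (pow_le_pow_right₀ h1 (by omega)) (by positivity) (by positivity)
      calc _ ≤ (‖q‖ + 2 * ((g : ℝ) + r)) ^ r * B ^ (g + r) * 1 :=
            mul_le_mul_of_nonneg_left (P_le _) (by positivity)
        _ ≤ M := by rw [mul_one]; exact h2
    have e4 := sum_le (g := g) (e := fun i => 2 * a i)
      (f := fun i => cwG (fun g a => pf g a x) q (List.replicate r 2) g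
        (Function.update a i (a i + 2))) (fun i => e3 _)
    have key : cwG (fun g a => pf g a x) q (List.replicate (r + 1) 2) g a -
        (q * ψ) ^ (r + 1) * pf g a x = (1 / 2 : ℂ) *
        ((q - g) * (cwG (fun g a => pf g a x) q (List.replicate r 2) (g + 1)
          (Function.update a g 2) - (q * ψ) ^ r * pf (g + 1) (Function.update a g 2) x) -
          (g : ℂ) * ((q * ψ) ^ r * pf (g + 1) (Function.update a g 2) x) +
          ∑ i ∈ range g, (1 / 2 : ℂ) ^ (2 * a i) * cwG (fun g a => pf g a x) q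
            (List.replicate r 2) g (Function.update a i (a i + 2))) := by
      rw [List.replicate_succ, cwG, pf_succ, ← hψ, show Nat.choose 2 2 = 1 from rfl]
      ring
    rw [key, norm_mul]
    have h4 : ‖(1 / 2 : ℂ)‖ = 1 / 2 := by norm_num
    have e5 := (norm_add_le _ _).trans (add_le_add ((norm_sub_le _ _).trans (add_le_add e1 e2)) e4)
    rw [h4, Nat.add_sub_cancel]
    refine (mul_le_mul_of_nonneg_left e5 (by norm_num)).trans ?_
    have h5 : ‖q‖ + 2 * ((g : ℝ) + ((r + 1 : ℕ) : ℝ)) = W := by rw [hW]; push_cast; ring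
    rw [h5, mul_assoc _ (W ^ r), ← hM]
    push_cast
    nlinarith [mul_nonneg hg0 hM0, mul_nonneg hr0 hM0, mul_nonneg (mul_nonneg hr0 hg0) hM0,
      mul_nonneg (mul_nonneg hr0 hr0) hM0]

end TB

theorem tbS : TBStmt := by
  intro B x q h1 hB
  refine ⟨fun L => ?_, fun r => ?_⟩
  · have h := TB.first (q := q) h1 hB L 0 (fun _ => 0)
    simp only [Nat.cast_zero, zero_add] at h
    rw [mul_pow]
    exact h
  · have h := TB.second (q := q) h1 hB r 0 (fun _ => 0)
    simp only [Nat.cast_zero, zero_add, pf, Finset.range_zero, Finset.prod_empty, mul_one] at h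
    refine le_trans (le_of_eq ?_) (h.trans (le_of_eq (by ring)))
    rfl

end Pool.Agent.MP_cb5fda_co.AA
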