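import Pool.Agent.MP_cb5fda_co.AA.C2
import Pool.Agent.MP_cb5fda_co.AA.CX
import Pool.Agent.MP_cb5fda_co.AA.EN
import Pool.Agent.MP_cb5fda_co.AA.F1
import Pool.Agent.MP_cb5fda_co.AA.F2
import Pool.Agent.MP_cb5fda_co.AA.FO
import Pool.Agent.MP_cb5fda_co.AA.IN
import Pool.Agent.MP_cb5fda_co.AA.L2
import Pool.Agent.MP_cb5fda_co.AA.LA
import Pool.Agent.MP_cb5fda_co.AA.LB
import Pool.Agent.MP_cb5fda_co.AA.LO
import Pool.Agent.MP_cb5fda_co.AA.NU
import Pool.Agent.MP_cb5fda_co.AA.PO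
import Pool.Agent.MP_cb5fda_co.AA.QU
import Pool.Agent.MP_cb5fda_co.AA.R1
import Pool.Agent.MP_cb5fda_co.AA.R2
import Pool.Agent.MP_cb5fda_co.AA.TB
import Pool.Agent.MP_cb5fda_co.AA.WY

/-! Chromatic roots of almost all graphs: assembly. -/

namespace Pool.Agent.MP_cb5fda_co.AA

theorem mainS : MainStmt := by
  have hS := soS fbS
  have hO := foS fbS hS (inS fbS hS)
  obtain ⟨D, hD⟩ := cxS fbS (nuS fbS)
  have hQ := quS hS D (enS hS D hD)
  have hA := laS hS D hQ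
  have hL := loS hS D hA (lbS hS D hQ)
  have h0 := r0S hS hO D hL
  exact f2S D ((cvS hS).1 D hD) (f1S D h0.1 h0.2 (l2S hS wyS c2S poS D h0.2
    (r1S fbS hS hO tbS D hA hL) (r2S fbS hS hO tbS D hA hL)))

end Pool.Agent.MP_cb5fda_co.AA
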