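import Pool.Agent.MP_cb5fda_co.AA.Chk

namespace Pool.Agent.MP_cb5fda_co.AA.NU

theorem a0 : Sg true 0 := ⟨134217728, 16, by decide +kernel⟩
theorem a1 : Sg true 1 := ⟨134217728, 16, by decide +kernel⟩
theorem a2 : Sg true 2 := ⟨126322568, 17, by decide +kernel⟩
theorem a3 : Sg true 3 := ⟨119304648, 18, by decide +kernel⟩
theorem a4 : Sg true 4 := ⟨113025456, 19, by decide +kernel⟩
theorem a5 : Sg true 5 := ⟨102261127, 21, by decide +kernel⟩
theorem a6 : Sg true 6 := ⟨93368855, 23, by decide +kernel⟩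
theorem a7 : Sg true 7 := ⟨79536432, 27, by decide +kernel⟩
theorem a8 : Sg true 8 := ⟨69273667, 31, by decide +kernel⟩
theorem a9 : Sg true 9 := ⟨59652324, 36, by decide +kernel⟩
theorem a10 : Sg true 10 := ⟨51130564, 42, by decide +kernel⟩
theorem a11 : Sg true 11 := ⟨44739243, 48, by decide +kernel⟩
theorem a12 : Sg true 12 := ⟨42949673, 50, by decide +kernel⟩
theorem a13 : Sg true 13 := ⟨43826197, 49, by decide +kernel⟩
theorem a14 : Sg true 14 := ⟨46684428, 46, by decide +kernel⟩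

end Pool.Agent.MP_cb5fda_co.AA.NU
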