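import Pool.Agent.MP_cb5fda_co.AA.NU1

namespace Pool.Agent.MP_cb5fda_co.AA.NU

theorem a15 : Sg true 15 := ⟨55063684, 39, by decide +kernel⟩
theorem a16 : Sg true 16 := ⟨69273667, 31, by decide +kernel⟩
theorem a17 : Sg true 17 := ⟨89478486, 24, by decide +kernel⟩
theorem a18 : Sg true 18 := ⟨113025456, 19, by decide +kernel⟩
theorem a19 : Sg true 19 := ⟨89478486, 24, by decide +kernel⟩
theorem a20 : Sg true 20 := ⟨71582789, 30, by decide +kernel⟩
theorem a21 : Sg true 21 := ⟨61356676, 35, by decide +kernel⟩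
theorem a22 : Sg true 22 := ⟨56512728, 38, by decide +kernel⟩
theorem a23 : Sg true 23 := ⟨55063684, 39, by decide +kernel⟩
theorem a24 : Sg true 24 := ⟨56512728, 38, by decide +kernel⟩
theorem a25 : Sg true 25 := ⟨63161284, 34, by decide +kernel⟩
theorem a26 : Sg true 26 := ⟨67108864, 32, by decide +kernel⟩
theorem a27 : Sg true 27 := ⟨49941481, 43, by decide +kernel⟩

end Pool.Agent.MP_cb5fda_co.AA.NU
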