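import Pool.Agent.MP_cb5fda_co.AA.NU2

namespace Pool.Agent.MP_cb5fda_co.AA.NU

theorem a28 : Sg true 28 := ⟨39045158, 55, by decide +kernel⟩
theorem a29 : Sg true 29 := ⟨35791395, 60, by decide +kernel⟩
theorem a30 : Sg true 30 := ⟨33554432, 64, by decide +kernel⟩
theorem a31 : Sg true 31 := ⟨33554432, 64, by decide +kernel⟩
theorem a32 : Sg true 32 := ⟨33554432, 64, by decide +kernel⟩
theorem a33 : Sg true 33 := ⟨33554432, 64, by decide +kernel⟩
theorem a34 : Sg true 34 := ⟨35791395, 60, by decide +kernel⟩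

end Pool.Agent.MP_cb5fda_co.AA.NU
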