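import Pool.Agent.MP_cb5fda_co.AA.NU3

namespace Pool.Agent.MP_cb5fda_co.AA.NU

theorem a35 : Sg true 35 := ⟨39045158, 55, by decide +kernel⟩
theorem a36 : Sg true 36 := ⟨49941481, 43, by decide +kernel⟩
theorem a37 : Sg true 37 := ⟨67108864, 32, by decide +kernel⟩
theorem a38 : Sg true 38 := ⟨63161284, 34, by decide +kernel⟩
theorem a39 : Sg true 39 := ⟨56512728, 38, by decide +kernel⟩
theorem a40 : Sg true 40 := ⟨55063684, 39, by decide +kernel⟩
theorem a41 : Sg true 41 := ⟨56512728, 38, by decide +kernel⟩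
theorem a42 : Sg true 42 := ⟨61356676, 35, by decide +kernel⟩
theorem a43 : Sg true 43 := ⟨71582789, 30, by decide +kernel⟩
theorem a44 : Sg true 44 := ⟨89478486, 24, by decide +kernel⟩
theorem a45 : Sg true 45 := ⟨113025456, 19, by decide +kernel⟩

end Pool.Agent.MP_cb5fda_co.AA.NU
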