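import Pool.Agent.MP_cb5fda_co.AA.NU4

namespace Pool.Agent.MP_cb5fda_co.AA.NU

theorem a46 : Sg true 46 := ⟨89478486, 24, by decide +kernel⟩
theorem a47 : Sg true 47 := ⟨69273667, 31, by decide +kernel⟩
theorem a48 : Sg true 48 := ⟨55063684, 39, by decide +kernel⟩
theorem a49 : Sg true 49 := ⟨46684428, 46, by decide +kernel⟩
theorem a50 : Sg true 50 := ⟨43826197, 49, by decide +kernel⟩
theorem a51 : Sg true 51 := ⟨42949673, 50, by decide +kernel⟩
theorem a52 : Sg true 52 := ⟨44739243, 48, by decide +kernel⟩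
theorem a53 : Sg true 53 := ⟨51130564, 42, by decide +kernel⟩
theorem a54 : Sg true 54 := ⟨59652324, 36, by decide +kernel⟩
theorem a55 : Sg true 55 := ⟨69273667, 31, by decide +kernel⟩
theorem a56 : Sg true 56 := ⟨79536432, 27, by decide +kernel⟩
theorem a57 : Sg true 57 := ⟨93368855, 23, by decide +kernel⟩

end Pool.Agent.MP_cb5fda_co.AA.NU
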