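import Pool.Agent.MP_cb5fda_co.AA.NU5

namespace Pool.Agent.MP_cb5fda_co.AA.NU

theorem a58 : Sg true 58 := ⟨102261127, 21, by decide +kernel⟩
theorem a59 : Sg true 59 := ⟨113025456, 19, by decide +kernel⟩
theorem a60 : Sg true 60 := ⟨119304648, 18, by decide +kernel⟩
theorem a61 : Sg true 61 := ⟨126322568, 17, by decide +kernel⟩
theorem a62 : Sg true 62 := ⟨134217728, 16, by decide +kernel⟩
theorem a63 : Sg true 63 := ⟨134217728, 16, by decide +kernel⟩
theorem b0 : Sg false 0 := ⟨134217728, 16, by decide +kernel⟩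
theorem b1 : Sg false 1 := ⟨134217728, 16, by decide +kernel⟩
theorem b2 : Sg false 2 := ⟨126322568, 17, by decide +kernel⟩
theorem b3 : Sg false 3 := ⟨119304648, 18, by decide +kernel⟩
theorem b4 : Sg false 4 := ⟨113025456, 19, by decide +kernel⟩
theorem b5 : Sg false 5 := ⟨102261127, 21, by decide +kernel⟩
theorem b6 : Sg false 6 := ⟨89478486, 24, by decide +kernel⟩
theorem b7 : Sg false 7 := ⟨79536432, 27, by decide +kernel⟩
theorem b8 : Sg false 8 := ⟨71582789, 30, by decide +kernel⟩
theorem b9 : Sg false 9 := ⟨65075263, 33, by decide +kernel⟩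
theorem b10 : Sg false 10 := ⟨65075263, 33, by decide +kernel⟩
theorem b11 : Sg false 11 := ⟨65075263, 33, by decide +kernel⟩
theorem b12 : Sg false 12 := ⟨71582789, 30, by decide +kernel⟩

end Pool.Agent.MP_cb5fda_co.AA.NU
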