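import Pool.Agent.MP_cb5fda_co.AA.NU6

namespace Pool.Agent.MP_cb5fda_co.AA.NU

theorem b13 : Sg false 13 := ⟨82595525, 26, by decide +kernel⟩
theorem b14 : Sg false 14 := ⟨102261127, 21, by decide +kernel⟩
theorem b15 : Sg false 15 := ⟨126322568, 17, by decide +kernel⟩
theorem b16 : Sg false 16 := ⟨165191050, 13, by decide +kernel⟩
theorem b17 : Sg false 17 := ⟨195225787, 11, by decide +kernel⟩
theorem b18 : Sg false 18 := ⟨238609295, 9, by decide +kernel⟩
theorem b19 : Sg false 19 := ⟨268435456, 8, by decide +kernel⟩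
theorem b20 : Sg false 20 := ⟨306783379, 7, by decide +kernel⟩
theorem b21 : Sg false 21 := ⟨268435456, 8, by decide +kernel⟩
theorem b22 : Sg false 22 := ⟨238609295, 9, by decide +kernel⟩
theorem b23 : Sg false 23 := ⟨238609295, 9, by decide +kernel⟩
theorem b24 : Sg false 24 := ⟨214748365, 10, by decide +kernel⟩
theorem b25 : Sg false 25 := ⟨214748365, 10, by decide +kernel⟩
theorem b26 : Sg false 26 := ⟨214748365, 10, by decide +kernel⟩
theorem b27 : Sg false 27 := ⟨238609295, 9, by decide +kernel⟩
theorem b28 : Sg false 28 := ⟨178956971, 12, by decide +kernel⟩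
theorem b29 : Sg false 29 := ⟨126322568, 17, by decide +kernel⟩
theorem b30 : Sg false 30 := ⟨93368855, 23, by decide +kernel⟩
theorem b31 : Sg false 31 := ⟨79536432, 27, by decide +kernel⟩
theorem b32 : Sg false 32 := ⟨79536432, 27, by decide +kernel⟩
theorem b33 : Sg false 33 := ⟨93368855, 23, by decide +kernel⟩
theorem b34 : Sg false 34 := ⟨126322568, 17, by decide +kernel⟩
theorem b35 : Sg false 35 := ⟨178956971, 12, by decide +kernel⟩
theorem b36 : Sg false 36 := ⟨238609295, 9, by decide +kernel⟩
theorem b37 : Sg false 37 := ⟨214748365, 10, by decide +kernel⟩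
theorem b38 : Sg false 38 := ⟨214748365, 10, by decide +kernel⟩
theorem b39 : Sg false 39 := ⟨214748365, 10, by decide +kernel⟩
theorem b40 : Sg false 40 := ⟨238609295, 9, by decide +kernel⟩
theorem b41 : Sg false 41 := ⟨238609295, 9, by decide +kernel⟩
theorem b42 : Sg false 42 := ⟨268435456, 8, by decide +kernel⟩
theorem b43 : Sg false 43 := ⟨306783379, 7, by decide +kernel⟩

end Pool.Agent.MP_cb5fda_co.AA.NU
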