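import Pool.Agent.MP_cb5fda_co.AA.NU7

namespace Pool.Agent.MP_cb5fda_co.AA.NU

theorem b44 : Sg false 44 := ⟨268435456, 8, by decide +kernel⟩
theorem b45 : Sg false 45 := ⟨238609295, 9, by decide +kernel⟩
theorem b46 : Sg false 46 := ⟨195225787, 11, by decide +kernel⟩
theorem b47 : Sg false 47 := ⟨165191050, 13, by decide +kernel⟩
theorem b48 : Sg false 48 := ⟨126322568, 17, by decide +kernel⟩
theorem b49 : Sg false 49 := ⟨102261127, 21, by decide +kernel⟩
theorem b50 : Sg false 50 := ⟨82595525, 26, by decide +kernel⟩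
theorem b51 : Sg false 51 := ⟨71582789, 30, by decide +kernel⟩
theorem b52 : Sg false 52 := ⟨65075263, 33, by decide +kernel⟩
theorem b53 : Sg false 53 := ⟨65075263, 33, by decide +kernel⟩
theorem b54 : Sg false 54 := ⟨65075263, 33, by decide +kernel⟩
theorem b55 : Sg false 55 := ⟨71582789, 30, by decide +kernel⟩
theorem b56 : Sg false 56 := ⟨79536432, 27, by decide +kernel⟩
theorem b57 : Sg false 57 := ⟨89478486, 24, by decide +kernel⟩
theorem b58 : Sg false 58 := ⟨102261127, 21, by decide +kernel⟩
theorem b59 : Sg false 59 := ⟨113025456, 19, by decide +kernel⟩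
theorem b60 : Sg false 60 := ⟨119304648, 18, by decide +kernel⟩
theorem b61 : Sg false 61 := ⟨126322568, 17, by decide +kernel⟩
theorem b62 : Sg false 62 := ⟨134217728, 16, by decide +kernel⟩
theorem b63 : Sg false 63 := ⟨134217728, 16, by decide +kernel⟩

end Pool.Agent.MP_cb5fda_co.AA.NU
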