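import Pool.Agent.MP_cb5fda_co.AA.Spec

/-! The polymer bound. -/

noncomputable section
open Finset Complex Metric Filter
open scoped Classical

namespace Pool.Agent.MP_cb5fda_co.AA

namespace PO

variable {n : ℕ}

/-- A set of vertices with a set of pairs. -/
abbrev Pol (n : ℕ) : Type := Σ _ : Finset (Fin n), Finset (Sym2 (Fin n))

/-- All polymers. -/
def UU (n : ℕ) : Finset (Pol n) := (univ.filter fun K : Finset (Fin n) => 2 ≤ K.card).sigma
  fun K => (K.offDiag.image Sym2.mk.uncurry).powerset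

/-- The polymer of a component. -/
def pol (H : SimpleGraph (Fin n)) (K : H.ConnectedComponent) : Pol n :=
  ⟨K.supp.toFinset, (ed H).filter fun e => ∀ v ∈ e, v ∈ K.supp⟩

/-- The polymers of a graph. -/
def Ph (H : SimpleGraph (Fin n)) : Finset (Pol n) :=
  (univ.filter fun K : H.ConnectedComponent => 2 ≤ K.supp.ncard).image (pol H)

theorem card_pol (H : SimpleGraph (Fin n)) (K : H.ConnectedComponent) :
    (pol H K).1.card = K.supp.ncard := (Set.ncard_eq_toFinset_card' _).symm

theorem Ph_sub (H : SimpleGraph (Fin n)) : Ph H ⊆ UU n := by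
  intro x hx
  obtain ⟨K, hK, rfl⟩ := mem_image.1 hx
  refine mem_sigma.2 ⟨mem_filter.2 ⟨mem_univ _, ?_⟩, mem_powerset.2 fun e he => ?_⟩
  · rw [card_pol]
    exact (mem_filter.1 hK).2
  · obtain ⟨h1, h2⟩ := mem_filter.1 he
    induction e using Sym2.ind with
    | _ u v =>
      have h3 : H.Adj u v := (mem_filter.1 h1).2
      exact mem_image.2 ⟨(u, v), mem_offDiag.2 ⟨Set.mem_toFinset.2 (h2 u (by simp)),
        Set.mem_toFinset.2 (h2 v (by simp)), h3.ne⟩, rfl⟩

theorem prod_Ph (H : SimpleGraph (Fin n)) (β : ℕ → ℝ) :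
    ((ms H).map β).prod = ∏ x ∈ Ph H, β x.1.card := by
  rw [ms, List.map_map, prod_map_toList, Ph, prod_image fun K _ K' _ e =>
    SimpleGraph.ConnectedComponent.supp_injective (Set.toFinset_inj.1 (congrArg Sigma.fst e))]
  exact prod_congr rfl fun K _ => by rw [card_pol]; rfl

theorem adj_iff (H : SimpleGraph (Fin n)) (u v : Fin n) :
    H.Adj u v ↔ ∃ x ∈ Ph H, s(u, v) ∈ x.2 := by
  constructor
  · intro h
    have h1 : u ∈ (H.connectedComponentMk u).supp := rfl
    have h2 : v ∈ (H.connectedComponentMk u).supp :=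
      (SimpleGraph.ConnectedComponent.connectedComponentMk_eq_of_adj h).symm
    refine ⟨pol H (H.connectedComponentMk u), mem_image_of_mem _ (mem_filter.2 ⟨mem_univ _, ?_⟩),
      mem_filter.2 ⟨mem_filter.2 ⟨mem_univ _, h⟩, fun w hw => ?_⟩⟩
    · exact (Set.one_lt_ncard (Set.toFinite _)).2 ⟨u, h1, v, h2, h.ne⟩
    · rcases Sym2.mem_iff.1 hw with rfl | rfl
      exacts [h1, h2]
  · rintro ⟨x, hx, h⟩
    obtain ⟨K, -, rfl⟩ := mem_image.1 hx
    exact (mem_filter.1 (mem_filter.1 h).1).2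

theorem Ph_inj : Function.Injective (Ph : SimpleGraph (Fin n) → Finset (Pol n)) := fun H H' e => by
  ext u v
  rw [adj_iff, adj_iff, e]

theorem sum_UU (n : ℕ) (β : ℕ → ℝ) : ∑ x ∈ UU n, β x.1.card =
    ∑ s ∈ Icc 2 n, (n.choose s : ℝ) * 2 ^ (s.choose 2) * β s := by
  rw [UU, sum_sigma, ← sum_fiberwise_of_maps_to (g := card) (t := Icc 2 n) fun K hK =>
    mem_Icc.2 ⟨(mem_filter.1 hK).2, by simpa using card_le_univ K⟩]
  refine sum_congr rfl fun s hs => ?_
  have e : (univ.filter fun K : Finset (Fin n) => 2 ≤ K.card).filter (fun K => K.card = s) =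
      powersetCard s univ := by
    ext K
    have := (mem_Icc.1 hs).1
    simp only [mem_filter, mem_univ, true_and, mem_powersetCard, subset_univ]
    omega
  rw [e, sum_congr rfl (g := fun _ => (2 : ℝ) ^ (s.choose 2) * β s) fun K hK => by
    simp only [sum_const, card_powerset, Sym2.card_image_offDiag, (mem_powersetCard.1 hK).2,
      nsmul_eq_mul, Nat.cast_pow, Nat.cast_ofNat]]
  rw [sum_const, card_powersetCard, card_univ, Fintype.card_fin, nsmul_eq_mul, mul_assoc]

end PO

open PO in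
theorem poS : POStmt := by
  intro n β hβ
  rw [← sum_UU]
  refine le_trans ?_ (Real.prod_one_add_le_exp_sum _ fun x => hβ _)
  rw [prod_one_add, sum_congr rfl fun H _ => prod_Ph H β,
    ← sum_image (g := Ph) (f := fun S => ∏ x ∈ S, β x.1.card) fun _ _ _ _ e => Ph_inj e]
  refine sum_le_sum_of_subset_of_nonneg (fun S hS => ?_) fun S _ _ => prod_nonneg fun x _ => hβ _
  obtain ⟨H, -, rfl⟩ := mem_image.1 hS
  exact mem_powerset.2 (Ph_sub H)

end Pool.Agent.MP_cb5fda_co.AA
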