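import Pool.Agent.MP_cb5fda_co.AA.Spec

/-! Chromatic roots of almost all graphs: the statements of the last two steps. -/

noncomputable section
open Finset Complex Metric Filter
open scoped Classical

namespace Pool.Agent.MP_cb5fda_co.AA

/-- An analytic error term, small in mean square, that equals `-YY` at a root. -/
def CD.Gsm (D : CD) : Prop := ∀ ε : ℝ, 0 < ε → ∀ᶠ n : ℕ in atTop,
  ∃ g : SimpleGraph (Fin n) → ℂ → ℂ, (∀ G, AnalyticOnNhd ℂ (g G) (closedBall 0 1)) ∧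
    ∑ G : SimpleGraph (Fin n), Real.circleAverage (fun w => ‖g G w‖ ^ 2) 0 1 ≤
      2 ^ (n.choose 2) * ε ∧
    ∀ (G : SimpleGraph (Fin n)) (P : Polynomial ℂ),
      (∀ k : ℕ, P.eval (k : ℂ) = (Nat.card (G.Coloring (Fin k)) : ℂ)) →
      ∀ z ∈ closedBall (0 : ℂ) 1, z ≠ 0 → P.eval (n * D.tau z) = 0 → g G z = -YY G (D.kap z / n)

def MainStmt : Prop :=
  Tendsto (fun n : ℕ => (Nat.card {G : SimpleGraph (Fin n) //
      ∀ [DecidableRel G.Adj] (P : Polynomial ℂ),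
        (∀ k : ℕ, P.eval (k : ℂ) = (Nat.card (G.Coloring (Fin k)) : ℂ)) →
        ∀ z : ℂ, P.eval z = 0 → z.re ≤ (G.maxDegree : ℝ) - (n : ℝ) / 1000} : ℝ) /
    2 ^ (n.choose 2)) atTop (nhds 1)

def F1Stmt : Prop := ∀ D : CD, D.R0 → D.Nz → D.L2small → D.Gsm
def F2Stmt : Prop := ∀ D : CD, D.Cover → D.Gsm → MainStmt

end Pool.Agent.MP_cb5fda_co.AA
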